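import Pool.Agent.H1.LS4.Gdf

/-!
# [H1 LS4 BAD] Ramified primes and the discriminant (50-80 lines)

Let `B` be the set of the primes `l` of `K` for which there is a prime `P` of `E` with `P^2 ∣ l 𝓞_E` (`Unr` fails). For `l ∈ B` choose such a `P_l`
(it lies over `l`, so different `l` have different `P_l`; `P_l ≠ ⊥` because `l 𝓞_E ≠ ⊥`). If `p` is the rational prime in `l`, then `P_l^2 ∣ l 𝓞_E ∣ p 𝓞_E`, so
`P_l` divides `differentIdeal ℤ (𝓞 E)` (Mathlib: `pow_sub_one_dvd_differentIdeal`, exponent `2`). For a finite subset `B₀` of `B` the product of the different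
primes `P_l`, `l ∈ B₀`, divides the different (`Finset.prod_primes_dvd` or `Finset.prod_dvd_of_coprime`), so its norm, which is at least `2^#B₀`,
divides `absNorm (differentIdeal ℤ (𝓞 E)) = |discr E|` (Mathlib: `NumberField.absNorm_differentIdeal`), and is at most `dd E`. So `B` is finite
(`#B₀ ≤ log_2 dd E`) and `2^#B ≤ dd E`.
-/

set_option autoImplicit false

open scoped NumberField Classical
open NumberField H63.MA H36.QA H57.LI

noncomputable section

namespace H1.LS4

/-- one prime -/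
private lemma one (K E : Type) [Field K] [NumberField K] [Field E] [NumberField E] [Algebra K E] (l : Pl K)
    (h : ¬ Unr K E l.asIdeal) : ∃ P : Ideal (𝓞 E), P.IsPrime ∧ P ≠ ⊥ ∧ P ∣ differentIdeal ℤ (𝓞 E) ∧
      P.comap (algebraMap (𝓞 K) (𝓞 E)) = l.asIdeal := by
  unfold Unr at h
  push Not at h
  obtain ⟨P, hP, hd⟩ := h
  have hmd : md l.asIdeal E ≠ ⊥ := by
    unfold md
    rw [Ne, Ideal.map_eq_bot_iff_of_injective (FaithfulSMul.algebraMap_injective (𝓞 K) (𝓞 E))]
    exact l.ne_bot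
  have hP0 : P ≠ ⊥ := by
    rintro rfl
    apply hmd
    have : (⊥ : Ideal (𝓞 E)) ^ 2 = ⊥ := by
      rw [← Ideal.zero_eq_bot, zero_pow two_ne_zero]
    rw [this] at hd
    exact eq_bot_iff.mpr (Ideal.dvd_iff_le.mp hd)
  have hle : md l.asIdeal E ≤ P := (Ideal.dvd_iff_le.mp hd).trans (Ideal.pow_le_self two_ne_zero)
  have hcm : P.comap (algebraMap (𝓞 K) (𝓞 E)) = l.asIdeal := by
    have h1 : l.asIdeal ≤ P.comap (algebraMap (𝓞 K) (𝓞 E)) := Ideal.map_le_iff_le_comap.mp hle
    exact (l.isMaximal.eq_of_le (Ideal.comap_ne_top _ hP.ne_top) h1).symm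
  refine ⟨P, hP, hP0, ?_, hcm⟩
  set p : Ideal ℤ := l.asIdeal.comap (algebraMap ℤ (𝓞 K)) with hp
  haveI := l.isPrime
  have hpp : p.IsPrime := Ideal.IsPrime.comap _
  have hp0 : p ≠ ⊥ := by
    rw [hp]
    exact Ideal.IsIntegral.comap_ne_bot ℤ l.ne_bot
  haveI hpm : p.IsMaximal := hpp.isMaximal hp0
  have hmap : p.map (algebraMap ℤ (𝓞 E)) ≤ md l.asIdeal E := by
    rw [Ideal.map_le_iff_le_comap]
    intro x hx
    rw [Ideal.mem_comap]
    have h1 : algebraMap ℤ (𝓞 E) x = algebraMap (𝓞 K) (𝓞 E) (algebraMap ℤ (𝓞 K) x) := by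
      simp
    rw [h1]
    exact Ideal.mem_map_of_mem _ hx
  have hd2 : P ^ 2 ∣ p.map (algebraMap ℤ (𝓞 E)) := hd.trans (Ideal.dvd_iff_le.mpr hmap)
  have := pow_sub_one_dvd_differentIdeal ℤ P 2 hp0 hd2
  simpa using this

theorem bad (K E : Type) [Field K] [NumberField K] [Field E] [NumberField E] [Algebra K E] :
    ∃ B : Finset (Pl K), (2 : ℝ) ^ B.card ≤ dd E ∧ ∀ l : Pl K, l ∉ B → Unr K E l.asIdeal := by
  choose! P hP hP0 hPd hPc using one K E
  have key : ∀ B : Finset (Pl K), (∀ l ∈ B, ¬ Unr K E l.asIdeal) → (2 : ℝ) ^ B.card ≤ dd E := by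
    intro B hB
    have hinj : Set.InjOn P (B : Set (Pl K)) := by
      intro a ha b hb hab
      apply IsDedekindDomain.HeightOneSpectrum.ext
      rw [← hPc a (hB a ha), ← hPc b (hB b hb), hab]
    have hprod : ∏ Q ∈ B.image P, Q ∣ differentIdeal ℤ (𝓞 E) := by
      apply Finset.prod_primes_dvd
      · intro Q hQ
        obtain ⟨l, hl, rfl⟩ := Finset.mem_image.mp hQ
        exact Ideal.prime_of_isPrime (hP0 l (hB l hl)) (hP l (hB l hl))
      · intro Q hQ
        obtain ⟨l, hl, rfl⟩ := Finset.mem_image.mp hQ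
        exact hPd l (hB l hl)
    have hnorm : Ideal.absNorm (∏ Q ∈ B.image P, Q) ∣ (discr E).natAbs := by
      rw [← NumberField.absNorm_differentIdeal E (𝓞 E)]
      exact map_dvd Ideal.absNorm hprod
    have h2 : 2 ^ B.card ≤ Ideal.absNorm (∏ Q ∈ B.image P, Q) := by
      rw [map_prod, Finset.prod_image hinj, ← Finset.prod_const]
      apply Finset.prod_le_prod' 
      intro l hl
      have h0 : Ideal.absNorm (P l) ≠ 0 := by
        rw [Ne, Ideal.absNorm_eq_zero_iff]
        exact hP0 l (hB l hl)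
      have h1 : Ideal.absNorm (P l) ≠ 1 := by
        rw [Ne, Ideal.absNorm_eq_one_iff]
        exact (hP l (hB l hl)).ne_top
      omega
    have h3 : Ideal.absNorm (∏ Q ∈ B.image P, Q) ≤ (discr E).natAbs :=
      Nat.le_of_dvd (Int.natAbs_pos.mpr (NumberField.discr_ne_zero E)) hnorm
    have h4 : 2 ^ B.card ≤ (discr E).natAbs := h2.trans h3
    have h5 : ((2 ^ B.card : ℕ) : ℝ) ≤ ((discr E).natAbs : ℝ) := by exact_mod_cast h4
    have h6 : ((discr E).natAbs : ℝ) = dd E := by
      unfold dd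
      rw [Nat.cast_natAbs, Int.cast_abs]
    rw [← h6]
    simpa using h5
  have hfin : {l : Pl K | ¬ Unr K E l.asIdeal}.Finite := by
    by_contra hinf
    obtain ⟨n, hn⟩ := pow_unbounded_of_one_lt (dd E) (one_lt_two)
    obtain ⟨B, hBs, hBc⟩ := Set.Infinite.exists_subset_card_eq hinf n
    have := key B (fun l hl => hBs hl)
    rw [hBc] at this
    linarith
  refine ⟨hfin.toFinset, key _ (fun l hl => by simpa using hl), ?_⟩
  intro l hl
  by_contra h
  exact hl (by simpa using h)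

end H1.LS4
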