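import Pool.Agent.H1.LS4.OpC
import Pool.Agent.H63.MA.KumB
import Pool.Agent.H63.MA.PZb

/-!
# [H1 LS4 CMP] The comparison theorem (assembly, 100-150 lines)

Let `P` = the primes of `K` of norm `≤ M` (finite: `{l} ∈ AF K M`), `S` = the primes of `E` above the primes in `P`; a prime `v` of `E`
of norm `≤ M` lies over a prime `l` with `N l ≤ N v` (`N v = (N l)^f`), so it is in `S`. `∑_{s ∈ AF K M} ∏ g = opr P g nm e1 M` (`e1_opr`)
`= opr P g nm (cvs S L) M` (`opr_congr`, `cvs_triv`) `= opr P g nm (opr (Fin k × S) (-ψ_i(v)) nm (cvs ∅ L)) M` (`cvs_opr`). On the index set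
`ι = Pl K ⊕ (Fin k × Pl E)` with `c (inl l) = g l`, `c (inr (i, v)) = -ψ_i(v)`, `N = nm` this is `opr J(P) c N (cvs ∅ L) M`, where
`J(P) = inl P ∪ inr (Fin k × S(P))` (`opr_union`, `opr_image`). By induction over finite sets `P` of primes: for `l ∉ P`, `J(insert l P)` is the
disjoint union of `J({l})` and `J(P)`, so `opr J(insert l P) = opr J({l}) ∘ opr J(P)`. `#J({l}) ≤ 1 + k d` (at most `d = [E:K]` primes over
`l`: `∑ e f = [E:K]`, `Ideal.sum_ramification_inertia`-type lemma, or copy `har_fibre` of H57/TLS/Har). `‖c‖ ≤ G' := max G 1`.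
Norms: for `l ∉ B`: `opr_good` with `q = N l`: `N(v) = (N l)^f`, `f ≥ 1`, and the sum of the `c_j` with `N_j = N l` is
`g(l) - ∑_i ∑_{v over l, N v = N l} ψ_i(v) = 0` by hypothesis; factor `1 + H (N l)^(-2σ)`, `H = (1+G')^(1 + k d)`, `σ = 1 - δ ≥ 3/4`, so `≤ 1 + H (N l)^(-3/2)`.
For `l ∈ B`: `opr_bd`, factor `H`. So `‖opr J(P) c N (cvs ∅ L) M‖ ≤ H^#B ∏_{l ∈ P} (1 + H (N l)^(-3/2)) D M^σ` and
`∏ (1 + H (N l)^(-3/2)) ≤ exp (H ∑_l (N l)^(-3/2))`; the sum over finite sets of primes of `K` is bounded by a constant of `K`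
(`∑ over ideals (N I)^(-3/2)`; see `af_card`, `PZ` or H63/MA: search for the summability of `(nm v)^(-s)`, `s > 1`; or
`NumberField.dedekindZeta` / at most `[K:ℚ]` primes above each rational prime). `C₀ = max H (exp (H c_K))`.
-/

set_option autoImplicit false

open scoped NumberField Classical
open NumberField H63.MA H36.QA

noncomputable section

namespace H1.LS4

private theorem cmp_union {ι : Type} {X J J' : Finset ι} (hd : Disjoint J J') (hX : ∀ j, j ∈ X ↔ j ∈ J ∨ j ∈ J')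
    (c : ι → ℂ) (N : ι → ℕ) (f : ℝ → ℂ) : opr X c N f = opr J c N (opr J' c N f) := by
  have h : X = J ∪ J' := by
    ext j
    rw [Finset.mem_union]
    exact hX j
  rw [h]
  exact opr_union hd c N f

private theorem cmp_image {ι ι' : Type} (e : ι' → ι) (he : Function.Injective e) {X : Finset ι} {J : Finset ι'}
    (hX : ∀ x, x ∈ X ↔ ∃ j ∈ J, e j = x) (c : ι → ℂ) (N : ι → ℕ) (f : ℝ → ℂ) :
    opr X c N f = opr J (fun j => c (e j)) (fun j => N (e j)) f := by
  have h : X = J.image e := by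
    ext x
    rw [Finset.mem_image]
    exact hX x
  rw [h]
  exact opr_image e he J c N f

/-- the induction over the primes -/
private theorem cmp_ind {K ι : Type} [Field K] [NumberField K] (J : Pl K → Finset ι) (c : ι → ℂ) (N : ι → ℕ)
    (hdis : ∀ l l', l ≠ l' → Disjoint (J l) (J l')) {n : ℕ} (hcard : ∀ l, (J l).card ≤ n)
    {G' : ℝ} (hG : 1 ≤ G') (hc : ∀ l, ∀ j ∈ J l, ‖c j‖ ≤ G')
    (hN : ∀ l, ∀ j ∈ J l, ∃ f : ℕ, 1 ≤ f ∧ N j = nm l ^ f) (B : Finset (Pl K))
    (h0 : ∀ l, l ∉ B → ∑ j ∈ (J l).filter (fun j => N j = nm l), c j = 0)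
    {F : ℝ → ℂ} (hF : V1 F) {D δ : ℝ} (hD : 0 ≤ D) (hδ : δ ≤ 1 / 4)
    (hb : ∀ M : ℝ, 1 ≤ M → ‖F M‖ ≤ D * M ^ (1 - δ)) (P : Finset (Pl K)) :
    ∀ X : Finset ι, (∀ j, j ∈ X ↔ ∃ l ∈ P, j ∈ J l) → ∀ M : ℝ, 1 ≤ M →
      ‖opr X c N F M‖ ≤ (∏ l ∈ P, ((if l ∈ B then (1 + G') ^ n else 1) *
        Real.exp ((1 + G') ^ n * (nm l : ℝ) ^ (-(3 / 2) : ℝ)))) * D * M ^ (1 - δ) := by
  have hG1 : 1 ≤ 1 + G' := by linarith
  have hH1 : 1 ≤ (1 + G') ^ n := one_le_pow₀ hG1
  have hN1 : ∀ l, ∀ j ∈ J l, 1 ≤ N j := by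
    intro l j hj
    obtain ⟨f, -, hf⟩ := hN l j hj
    rw [hf]
    exact Nat.one_le_iff_ne_zero.2 (pow_ne_zero _ (by have := one_lt_nm l; omega))
  induction P using Finset.induction_on with
  | empty =>
    intro X hX M hM
    have hX0 : X = ∅ := by
      ext j
      rw [hX j]
      simp
    rw [hX0, opr_empty, Finset.prod_empty, one_mul]
    exact hb M hM
  | insert l P hl ih =>
    intro X hX M hM
    have hX' : ∀ j, j ∈ P.biUnion J ↔ ∃ l ∈ P, j ∈ J l := fun j => Finset.mem_biUnion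
    have hih := ih _ hX'
    have hNP : ∀ j ∈ P.biUnion J, 1 ≤ N j := by
      intro j hj
      obtain ⟨l', -, hj'⟩ := (hX' j).1 hj
      exact hN1 l' j hj'
    have hV := opr_v1 (c := c) hNP hF
    have hun : opr X c N F = opr (J l) c N (opr (P.biUnion J) c N F) := by
      refine cmp_union ?_ ?_ c N F
      · rw [Finset.disjoint_biUnion_right]
        intro l' hl'
        exact hdis l l' (fun h => hl (h ▸ hl'))
      · intro j
        rw [hX j, hX' j]
        constructor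
        · rintro ⟨l', hl', hj⟩
          rcases Finset.mem_insert.1 hl' with rfl | h
          · exact Or.inl hj
          · exact Or.inr ⟨l', h, hj⟩
        · rintro (h | ⟨l', hl', hj⟩)
          · exact ⟨l, Finset.mem_insert_self _ _, h⟩
          · exact ⟨l', Finset.mem_insert_of_mem hl', hj⟩
    rw [hun]
    obtain ⟨D', hD'⟩ : ∃ D' : ℝ, D' = (∏ l ∈ P, ((if l ∈ B then (1 + G') ^ n else 1) *
        Real.exp ((1 + G') ^ n * (nm l : ℝ) ^ (-(3 / 2) : ℝ)))) * D := ⟨_, rfl⟩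
    rw [← hD'] at hih
    have hD'0 : 0 ≤ D' := by
      rw [hD']
      refine mul_nonneg (Finset.prod_nonneg fun l _ => mul_nonneg ?_ (Real.exp_pos _).le) hD
      split_ifs
      · positivity
      · exact zero_le_one
    have hσ : 0 ≤ 1 - δ := by linarith
    have hMσ : 0 ≤ M ^ (1 - δ) := Real.rpow_nonneg (by linarith) _
    have hpow : (1 + G') ^ (J l).card ≤ (1 + G') ^ n := pow_le_pow_right₀ hG1 (hcard l)
    have hq1 : (1 : ℝ) ≤ (nm l : ℝ) := by exact_mod_cast (one_lt_nm l).le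
    have hq0 : 0 ≤ (nm l : ℝ) ^ (-(3 / 2) : ℝ) := Real.rpow_nonneg (by linarith) _
    have hexp1 : 1 ≤ Real.exp ((1 + G') ^ n * (nm l : ℝ) ^ (-(3 / 2) : ℝ)) :=
      Real.one_le_exp (mul_nonneg (by positivity) hq0)
    rw [Finset.prod_insert hl]
    have hfin : ∀ A : ℝ, ‖opr (J l) c N (opr (P.biUnion J) c N F) M‖ ≤ A * D' * M ^ (1 - δ) →
        A ≤ (if l ∈ B then (1 + G') ^ n else 1) * Real.exp ((1 + G') ^ n * (nm l : ℝ) ^ (-(3 / 2) : ℝ)) →
        ‖opr (J l) c N (opr (P.biUnion J) c N F) M‖ ≤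
          ((if l ∈ B then (1 + G') ^ n else 1) * Real.exp ((1 + G') ^ n * (nm l : ℝ) ^ (-(3 / 2) : ℝ)) *
          ∏ l ∈ P, ((if l ∈ B then (1 + G') ^ n else 1) *
            Real.exp ((1 + G') ^ n * (nm l : ℝ) ^ (-(3 / 2) : ℝ)))) * D * M ^ (1 - δ) := by
      intro A h1 h2
      refine h1.trans ?_
      rw [mul_assoc _ _ D, ← hD']
      exact mul_le_mul_of_nonneg_right (mul_le_mul_of_nonneg_right h2 hD'0) hMσ
    by_cases hlB : l ∈ B
    · refine hfin _ (opr_bd (hN1 l) hV (by linarith) (hc l) hD'0 hσ hih M hM) ?_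
      rw [if_pos hlB]
      calc (1 + G') ^ (J l).card ≤ (1 + G') ^ n * 1 := by rw [mul_one]; exact hpow
        _ ≤ _ := mul_le_mul_of_nonneg_left hexp1 (by positivity)
    · refine hfin _ (opr_good (one_lt_nm l) (hN l) hV (by linarith) (hc l) hD'0 hσ hih (h0 l hlB) M hM) ?_
      rw [if_neg hlB, one_mul]
      have h1 : (nm l : ℝ) ^ (-(2 * (1 - δ))) ≤ (nm l : ℝ) ^ (-(3 / 2) : ℝ) :=
        Real.rpow_le_rpow_of_exponent_le hq1 (by linarith)
      have h2 : (1 + G') ^ (J l).card * (nm l : ℝ) ^ (-(2 * (1 - δ))) ≤ (1 + G') ^ n * (nm l : ℝ) ^ (-(3 / 2) : ℝ) :=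
        mul_le_mul hpow h1 (Real.rpow_nonneg (by linarith) _) (by positivity)
      have h3 := Real.add_one_le_exp ((1 + G') ^ n * (nm l : ℝ) ^ (-(3 / 2) : ℝ))
      linarith

private theorem cmp_over_card {K E : Type} [Field K] [NumberField K] [Field E] [NumberField E] [Algebra K E]
    (l : Pl K) {S : Finset (Pl E)} (hS : ∀ v ∈ S, Over v l) : S.card ≤ Module.finrank K E := by
  have h1 : S.card ≤ (IsDedekindDomain.primesOverFinset l.asIdeal (𝓞 E)).card := by
    refine Finset.card_le_card_of_injOn (fun v => v.asIdeal) ?_ ?_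
    · intro v hv
      rw [Finset.mem_coe, IsDedekindDomain.mem_primesOverFinset_iff l.ne_bot]
      exact ⟨v.isPrime, ⟨(hS v hv).symm⟩⟩
    · intro v _ w _ h
      exact IsDedekindDomain.HeightOneSpectrum.ext h
  have hmax : l.asIdeal.IsMaximal := l.isMaximal
  have hnz : NoZeroSMulDivisors (𝓞 K) (𝓞 E) := ⟨fun {x y} h => by
    rw [Algebra.smul_def, mul_eq_zero] at h
    rcases h with h | h
    · exact Or.inl ((map_eq_zero_iff _ (FaithfulSMul.algebraMap_injective (𝓞 K) (𝓞 E))).1 h)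
    · exact Or.inr h⟩
  exact h1.trans (Ideal.card_primesOverFinset_le_finrank (𝓞 E) K E l.ne_bot)

theorem cmp (K : Type) [Field K] [NumberField K] (k d : ℕ) (G : ℝ) : ∃ C₀ : ℝ, 1 ≤ C₀ ∧
    ∀ (E : Type) [Field E] [NumberField E] [Algebra K E], Module.finrank K E ≤ d →
      ∀ L : List (Ideal (𝓞 E) →*₀ ℂ), L.length ≤ k → (∀ ψ ∈ L, ∀ I, ‖ψ I‖ ≤ 1) →
      ∀ g : Pl K → ℂ, (∀ l, ‖g l‖ ≤ G) → ∀ B : Finset (Pl K),
        (∀ l, l ∉ B → g l = (L.map fun ψ => ∑ᶠ v ∈ {v : Pl E | Over v l ∧ nm v = nm l}, ψ v.asIdeal).sum) →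
      ∀ D δ : ℝ, 0 ≤ D → 0 < δ → δ ≤ 1 / 4 → (∀ M : ℝ, 1 ≤ M → ‖cvs ∅ L M‖ ≤ D * M ^ (1 - δ)) →
        ∀ M : ℝ, 1 ≤ M → ‖∑ s ∈ AF K M, ∏ l ∈ s, g l‖ ≤ C₀ * C₀ ^ B.card * D * M ^ (1 - δ) := by
  obtain ⟨cK, hcK⟩ : ∃ cK : ℝ, cK = ∑' v : Pl K, (nm v : ℝ) ^ (-(3 / 2) : ℝ) := ⟨_, rfl⟩
  have hsum : Summable fun v : Pl K => (nm v : ℝ) ^ (-(3 / 2) : ℝ) := pz_summable K (by norm_num)
  obtain ⟨G', hG'⟩ : ∃ G' : ℝ, G' = max G 1 := ⟨_, rfl⟩
  have hG1 : 1 ≤ G' := by
    rw [hG']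
    exact le_max_right _ _
  have hGG : G ≤ G' := by
    rw [hG']
    exact le_max_left _ _
  obtain ⟨H, hH⟩ : ∃ H : ℝ, H = (1 + G') ^ (1 + k * d) := ⟨_, rfl⟩
  have hH1 : 1 ≤ H := by
    rw [hH]
    exact one_le_pow₀ (by linarith)
  refine ⟨max H (Real.exp (H * cK)), hH1.trans (le_max_left _ _), ?_⟩
  intro E _ _ _ hd L hL hψ g hg B hB D δ hD hδ hδ4 hcvs M hM
  -- the primes
  have hover : ∀ l : Pl K, {v : Pl E | Over v l}.Finite := fun l => over_finite l
  have hPfin : {l : Pl K | (nm l : ℝ) ≤ M}.Finite := by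
    refine Set.Finite.of_injOn (f := fun l : Pl K => l.asIdeal) (t := ↑(IN K M)) ?_ ?_ (Finset.finite_toSet _)
    · intro l hl
      have hl' : (nm l : ℝ) ≤ M := hl
      rw [Finset.mem_coe, mem_IN (by linarith)]
      exact ⟨hl', l.ne_bot⟩
    · intro l _ l' _ h
      exact IsDedekindDomain.HeightOneSpectrum.ext h
  obtain ⟨P, hPd⟩ : ∃ P : Finset (Pl K), P = hPfin.toFinset := ⟨_, rfl⟩
  have hP : ∀ l : Pl K, l ∈ P ↔ (nm l : ℝ) ≤ M := by
    intro l
    rw [hPd, Set.Finite.mem_toFinset]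
    rfl
  obtain ⟨S, hSd⟩ : ∃ S : Finset (Pl E), S = P.biUnion fun l => (hover l).toFinset := ⟨_, rfl⟩
  have hSm : ∀ v : Pl E, v ∈ S ↔ ∃ l ∈ P, Over v l := by
    intro v
    rw [hSd, Finset.mem_biUnion]
    refine exists_congr fun l => and_congr_right fun _ => ?_
    rw [Set.Finite.mem_toFinset]
    rfl
  have hS : ∀ v : Pl E, (nm v : ℝ) ≤ M → v ∈ S := by
    intro v hv
    obtain ⟨l, hl⟩ := exists_below (K := K) v
    obtain ⟨f, hf1, hf⟩ := nm_over hl
    refine (hSm v).2 ⟨l, (hP l).2 (le_trans ?_ hv), hl⟩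
    rw [hf]
    have h1 : nm l ≤ nm l ^ f := Nat.le_self_pow (by omega) _
    exact_mod_cast h1
  -- the operator on the big index set
  obtain ⟨c, hcd⟩ : ∃ c : Pl K ⊕ (Fin L.length × Pl E) → ℂ,
      c = Sum.elim g (fun x => -(L.get x.1) x.2.asIdeal) := ⟨_, rfl⟩
  obtain ⟨N, hNd⟩ : ∃ N : Pl K ⊕ (Fin L.length × Pl E) → ℕ, N = Sum.elim nm (fun x => nm x.2) := ⟨_, rfl⟩
  obtain ⟨J, hJd⟩ : ∃ J : Pl K → Finset (Pl K ⊕ (Fin L.length × Pl E)),
      J = fun l => insert (Sum.inl l) (((Finset.univ : Finset (Fin L.length)) ×ˢ (hover l).toFinset).image Sum.inr) :=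
    ⟨_, rfl⟩
  have hJl : ∀ l l' : Pl K, Sum.inl l' ∈ J l ↔ l' = l := by
    intro l l'
    rw [hJd]
    simp
  have hJr : ∀ (l : Pl K) (x : Fin L.length × Pl E), Sum.inr x ∈ J l ↔ Over x.2 l := by
    intro l x
    rw [hJd]
    simp
  have hmain : ∑ s ∈ AF K M, ∏ l ∈ s, g l = opr (P.biUnion J) c N (cvs ∅ L) M := by
    rw [← e1_opr g hM hP]
    have h1 : opr P g nm e1 M = opr P g nm (cvs S L) M :=
      opr_congr (fun l _ => (one_lt_nm l).le) (by linarith) fun M' hM' => (cvs_triv hS L M' hM').symm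
    rw [h1, cvs_opr S L]
    have h2 : opr (P.biUnion J) c N (cvs ∅ L) = opr (P.image Sum.inl) c N
        (opr (((Finset.univ : Finset (Fin L.length)) ×ˢ S).image Sum.inr) c N (cvs ∅ L)) := by
      refine cmp_union ?_ ?_ c N _
      · rw [Finset.disjoint_left]
        rintro (l | x) h3 h4
        · simp at h4
        · simp at h3
      · rintro (l | x)
        · rw [Finset.mem_biUnion]
          constructor
          · rintro ⟨l', hl', h3⟩
            rw [hJl] at h3
            left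
            rw [Finset.mem_image]
            exact ⟨l, h3 ▸ hl', rfl⟩
          · rintro (h3 | h3)
            · obtain ⟨l', hl', h4⟩ := Finset.mem_image.1 h3
              rw [Sum.inl.injEq] at h4
              exact ⟨l, h4 ▸ hl', (hJl l l).2 rfl⟩
            · simp at h3
        · rw [Finset.mem_biUnion]
          constructor
          · rintro ⟨l', hl', h3⟩
            rw [hJr] at h3
            right
            rw [Finset.mem_image]
            exact ⟨x, Finset.mem_product.2 ⟨Finset.mem_univ _, (hSm _).2 ⟨l', hl', h3⟩⟩, rfl⟩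
          · rintro (h3 | h3)
            · simp at h3
            · obtain ⟨x', hx', h4⟩ := Finset.mem_image.1 h3
              rw [Sum.inr.injEq] at h4
              rw [h4] at hx'
              obtain ⟨l', hl', h5⟩ := (hSm _).1 (Finset.mem_product.1 hx').2
              exact ⟨l', hl', (hJr l' x).2 h5⟩
    rw [h2]
    rw [cmp_image (J := P) Sum.inl Sum.inl_injective (by intro x; rw [Finset.mem_image]) c N,
      cmp_image (J := (Finset.univ : Finset (Fin L.length)) ×ˢ S) Sum.inr Sum.inr_injective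
        (by intro x; rw [Finset.mem_image]) c N]
    rw [hcd, hNd]
    rfl
  rw [hmain]
  have hdis : ∀ l l', l ≠ l' → Disjoint (J l) (J l') := by
    intro l l' hne
    rw [Finset.disjoint_left]
    rintro (l'' | x) h3 h4
    · rw [hJl] at h3 h4
      exact hne (h3.symm.trans h4)
    · rw [hJr] at h3 h4
      exact hne (below_unique h3 h4)
  have hcard : ∀ l, (J l).card ≤ 1 + k * d := by
    intro l
    rw [hJd]
    have h1 : (hover l).toFinset.card ≤ d := by
      refine (cmp_over_card l fun v hv => ?_).trans hd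
      rw [Set.Finite.mem_toFinset] at hv
      exact hv
    have h2 : (((Finset.univ : Finset (Fin L.length)) ×ˢ (hover l).toFinset).image
        (Sum.inr : _ → Pl K ⊕ (Fin L.length × Pl E))).card ≤ k * d := by
      refine Finset.card_image_le.trans ?_
      rw [Finset.card_product, Finset.card_univ, Fintype.card_fin]
      exact Nat.mul_le_mul hL h1
    have h3 := Finset.card_insert_le (Sum.inl l) (((Finset.univ : Finset (Fin L.length)) ×ˢ (hover l).toFinset).image
        (Sum.inr : _ → Pl K ⊕ (Fin L.length × Pl E)))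
    change (insert (Sum.inl l) (((Finset.univ : Finset (Fin L.length)) ×ˢ (hover l).toFinset).image
        (Sum.inr : _ → Pl K ⊕ (Fin L.length × Pl E)))).card ≤ 1 + k * d
    omega
  have hc : ∀ l, ∀ j ∈ J l, ‖c j‖ ≤ G' := by
    rintro l (l' | x) hj
    · rw [hcd]
      exact (hg l').trans hGG
    · rw [hcd]
      change ‖-(L.get x.1) x.2.asIdeal‖ ≤ G'
      rw [norm_neg]
      exact (hψ _ (List.get_mem _ _) _).trans hG1
  have hN : ∀ l, ∀ j ∈ J l, ∃ f : ℕ, 1 ≤ f ∧ N j = nm l ^ f := by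
    rintro l (l' | x) hj
    · rw [hJl] at hj
      refine ⟨1, le_rfl, ?_⟩
      rw [pow_one, hNd, hj]
      rfl
    · rw [hJr] at hj
      rw [hNd]
      exact nm_over hj
  have h0 : ∀ l, l ∉ B → ∑ j ∈ (J l).filter (fun j => N j = nm l), c j = 0 := by
    intro l hl
    have hT : {v : Pl E | Over v l ∧ nm v = nm l}.Finite := (hover l).subset fun v hv => hv.1
    have h1 : (J l).filter (fun j => N j = nm l) = insert (Sum.inl l)
        (((Finset.univ : Finset (Fin L.length)) ×ˢ hT.toFinset).image Sum.inr) := by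
      ext j
      rw [Finset.mem_filter, Finset.mem_insert, Finset.mem_image]
      rcases j with l' | x
      · rw [hJl, hNd]
        simp only [Sum.elim_inl, Sum.inl.injEq, reduceCtorEq, and_false, exists_false, or_false]
        constructor
        · rintro ⟨h, -⟩
          exact h
        · rintro h
          exact ⟨h, by rw [h]⟩
      · rw [hJr, hNd]
        simp only [Sum.elim_inr, Sum.inr.injEq, reduceCtorEq, false_or, exists_eq_right, Finset.mem_product,
          Finset.mem_univ, true_and, Set.Finite.mem_toFinset, Set.mem_ofPred_eq]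
    rw [h1, Finset.sum_insert (by
      rw [Finset.mem_image]
      rintro ⟨x, -, h⟩
      simp at h), Finset.sum_image (fun x _ y _ h => Sum.inr_injective h), Finset.sum_product]
    have h2 : c (Sum.inl l) = g l := by
      rw [hcd]
      rfl
    have h3 : ∀ i : Fin L.length, ∀ v : Pl E, c (Sum.inr (i, v)) = -(L.get i) v.asIdeal := by
      intro i v
      rw [hcd]
      rfl
    rw [h2, hB l hl]
    have h4 := Fin.sum_univ_fun_getElem L fun ψ => ∑ᶠ v ∈ {v : Pl E | Over v l ∧ nm v = nm l}, ψ v.asIdeal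
    rw [← h4, ← Finset.sum_add_distrib]
    refine Finset.sum_eq_zero fun i _ => ?_
    rw [finsum_mem_eq_finite_toFinset_sum _ hT, ← Finset.sum_add_distrib]
    refine Finset.sum_eq_zero fun v _ => ?_
    rw [h3]
    exact add_neg_cancel _
  have h5 := cmp_ind J c N hdis hcard hG1 hc hN B h0 (cvs_v1 ∅ L) hD hδ4 hcvs P (P.biUnion J)
    (fun j => Finset.mem_biUnion) M hM
  refine h5.trans ?_
  have hM0 : 0 ≤ M ^ (1 - δ) := Real.rpow_nonneg (by linarith) _
  refine mul_le_mul_of_nonneg_right (mul_le_mul_of_nonneg_right ?_ hD) hM0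
  rw [← hH, Finset.prod_mul_distrib, Finset.prod_ite, Finset.prod_const, Finset.prod_const_one, mul_one,
    ← Real.exp_sum, ← Finset.mul_sum, mul_comm]
  have hH0 : 0 ≤ H := by linarith
  refine mul_le_mul ?_ ?_ (pow_nonneg hH0 _) (le_trans hH0 (le_max_left _ _))
  · refine le_trans (Real.exp_le_exp.2 (mul_le_mul_of_nonneg_left ?_ hH0)) (le_max_right _ _)
    rw [hcK]
    exact hsum.sum_le_tsum P fun v _ => Real.rpow_nonneg (Nat.cast_nonneg _) _
  · have h6 : (P.filter fun l => l ∈ B).card ≤ B.card :=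
      Finset.card_le_card fun l hl => (Finset.mem_filter.1 hl).2
    calc H ^ (P.filter fun l => l ∈ B).card ≤ H ^ B.card := pow_le_pow_right₀ hH1 h6
      _ ≤ _ := pow_le_pow_left₀ hH0 (le_max_left _ _) _

end H1.LS4
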