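import Pool.Agent.H1.LS4.Gdf

/-!
# [H1 LS4 CPF] The compositum of two cyclic cubic fields (60-100 lines, Galois theory)

`E = ↥(F ⊔ F')`, `Algebra F E` from `IntermediateField.inclusion le_sup_left`, `Algebra F' E` from `le_sup_right`.
* finite dimensional over `K` (`IntermediateField.finiteDimensional_sup`), so a number field (`NumberField.of_module_finite`); Galois: normal and separable
(`IntermediateField.normal_sup`, `isSeparable_sup`; or `IsGalois` of a sup in Mathlib).
* `F ⊓ F' = ⊥`: its degree divides `3` (`IntermediateField.finrank_dvd_of_le_left`-type lemma); if it is `3` then `F ⊓ F' = F` and `= F'`, so `F = F'`.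
* `Gal(E/K) → Gal(F/K) × Gal(F'/K)` by restriction (`AlgEquiv.restrictNormalHom`) is injective, because `E` is generated by `F` and `F'`, and bijective
(`IntermediateField.restrictNormalHom..`, Mathlib may have this for `F ⊓ F' = ⊥`: search `LinearDisjoint`, `finrank_sup`, `IsGalois`; `[E:K] = 9` because
`F`, `F'` are linearly disjoint when one is Galois and `F ⊓ F' = ⊥`: `IntermediateField.LinearDisjoint.of_inf_eq_bot`, `LinearDisjoint.finrank_sup`).
Alternatively: `[E:F]` divides.. `[E:K] ≤ 9` (`finrank_sup_le`), it is a multiple of `3` and `Gal(E/K)` embeds into a group of order `9`, so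
`[E:K] ∈ {3, 9}`; `3` would give `F = E = F'`.
* `gen`: `(F ⊔ F').toSubalgebra = F.toSubalgebra ⊔ F'.toSubalgebra` (`IntermediateField.sup_toSubalgebra_of_isAlgebraic_left` or similar), whose elements are in the
subring generated by `F` and `F'` (`Algebra.adjoin_induction` / `Subalgebra` sup); pass from `Ω` to the subtype `E`.
* `tc_up`: an infinite place of `F` which is real would restrict to a real place of `K` (Mathlib: `InfinitePlace.isReal..comap`,
`IsTotallyComplex` of an extension; search `IsTotallyComplex`), degrees: `Module.finrank_mul_finrank`.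
-/

set_option autoImplicit false

open scoped NumberField Classical
open NumberField H63.MA H36.QA H57.LI

noncomputable section

namespace H1.LS4

theorem tc_up {K F : Type} [Field K] [NumberField K] [Field F] [NumberField F] [Algebra K F] {n d : ℕ} (hK : TC K n)
    (hd : Module.finrank K F = d) : TC F (n * d) := by
  obtain ⟨h1, h2⟩ := hK
  refine ⟨NumberField.isTotallyComplex_of_algebra K F, ?_⟩
  rw [← Module.finrank_mul_finrank ℚ K F, h2, hd]

theorem cpf {K Ω : Type} [Field K] [NumberField K] [Field Ω] [Algebra K Ω] (F F' : IntermediateField K Ω)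
    [IsGalois K F] [IsGalois K F'] (hF : Module.finrank K F = 3) (hF' : Module.finrank K F' = 3) (hne : F ≠ F') :
    ∃ (E : Type) (_ : Field E) (_ : NumberField E) (_ : Algebra K E) (_ : Algebra F E) (_ : Algebra F' E),
      Cp K F F' E := by
  have hfF : FiniteDimensional K F := Module.finite_of_finrank_pos (by rw [hF]; norm_num)
  have hfF' : FiniteDimensional K F' := Module.finite_of_finrank_pos (by rw [hF']; norm_num)
  have hfE : FiniteDimensional K ↥(F ⊔ F') := IntermediateField.finiteDimensional_sup F F'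
  have hNE : NumberField ↥(F ⊔ F') := NumberField.of_module_finite K ↥(F ⊔ F')
  have hgE : IsGalois K ↥(F ⊔ F') := {}
  have hbot : F ⊓ F' = ⊥ := by
    have h1 : Module.finrank K ↥(F ⊓ F') ∣ 3 := by
      rw [← hF]
      exact IntermediateField.finrank_dvd_of_le_right inf_le_left
    rcases (Nat.dvd_prime Nat.prime_three).1 h1 with h2 | h2
    · exact IntermediateField.finrank_eq_one_iff.1 h2
    · exfalso
      have h3 : F ⊓ F' = F := IntermediateField.eq_of_le_of_finrank_eq inf_le_left (by rw [h2, hF])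
      have h4 : F ⊓ F' = F' := IntermediateField.eq_of_le_of_finrank_eq inf_le_right (by rw [h2, hF'])
      exact hne (h3.symm.trans h4)
  have hd9 : Module.finrank K ↥(F ⊔ F') = 9 := by
    rw [(IntermediateField.LinearDisjoint.of_inf_eq_bot hbot).finrank_sup, hF, hF']
  let i1 : F →ₐ[K] ↥(F ⊔ F') := IntermediateField.inclusion le_sup_left
  let i2 : F' →ₐ[K] ↥(F ⊔ F') := IntermediateField.inclusion le_sup_right
  let A1 : Algebra F ↥(F ⊔ F') := i1.toRingHom.toAlgebra
  let A2 : Algebra F' ↥(F ⊔ F') := i2.toRingHom.toAlgebra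
  have T1 : IsScalarTower K F ↥(F ⊔ F') := IsScalarTower.of_algebraMap_eq fun x => (i1.commutes x).symm
  have T2 : IsScalarTower K F' ↥(F ⊔ F') := IsScalarTower.of_algebraMap_eq fun x => (i2.commutes x).symm
  have hgen : Subring.closure (Set.range (algebraMap F ↥(F ⊔ F')) ∪
      Set.range (algebraMap F' ↥(F ⊔ F'))) = ⊤ := by
    rw [eq_top_iff]
    rintro x -
    set R := Subring.closure (Set.range (algebraMap F ↥(F ⊔ F')) ∪
      Set.range (algebraMap F' ↥(F ⊔ F'))) with hR
    let S : Subalgebra K Ω := { R.map ((F ⊔ F').val : ↥(F ⊔ F') →+* Ω) with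
      algebraMap_mem' := by
        intro r
        refine ⟨algebraMap F ↥(F ⊔ F') (algebraMap K F r), Subring.subset_closure (Or.inl ⟨_, rfl⟩), rfl⟩ }
    have h1 : F.toSubalgebra ≤ S := by
      intro y hy
      exact ⟨algebraMap F ↥(F ⊔ F') ⟨y, hy⟩, Subring.subset_closure (Or.inl ⟨_, rfl⟩), rfl⟩
    have h2 : F'.toSubalgebra ≤ S := by
      intro y hy
      exact ⟨algebraMap F' ↥(F ⊔ F') ⟨y, hy⟩, Subring.subset_closure (Or.inr ⟨_, rfl⟩), rfl⟩
    have h3 : (F ⊔ F').toSubalgebra ≤ S := by
      rw [IntermediateField.sup_toSubalgebra_of_left]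
      exact sup_le h1 h2
    obtain ⟨y, hy, hyx⟩ := h3 x.2
    have h4 : y = x := Subtype.ext hyx
    rw [← h4]
    exact hy
  have hinj : ∀ σ : ↥(F ⊔ F') ≃ₐ[K] ↥(F ⊔ F'),
      (∀ z : F, σ (algebraMap F ↥(F ⊔ F') z) = algebraMap F ↥(F ⊔ F') z) →
      (∀ z : F', σ (algebraMap F' ↥(F ⊔ F') z) = algebraMap F' ↥(F ⊔ F') z) → σ = 1 := by
    intro σ h1 h2
    have h3 : Set.EqOn (σ.toRingEquiv : ↥(F ⊔ F') →+* ↥(F ⊔ F')) (RingHom.id ↥(F ⊔ F'))
        (Subring.closure (Set.range (algebraMap F ↥(F ⊔ F')) ∪ Set.range (algebraMap F' ↥(F ⊔ F')))) := by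
      apply RingHom.eqOn_set_closure
      rintro _ (⟨z, rfl⟩ | ⟨z, rfl⟩)
      · exact h1 z
      · exact h2 z
    ext x
    have h4 := h3 (show x ∈ _ by rw [hgen]; trivial)
    exact congrArg Subtype.val h4
  have hres : ∀ (τ : F ≃ₐ[K] F) (τ' : F' ≃ₐ[K] F'), ∃ σ : ↥(F ⊔ F') ≃ₐ[K] ↥(F ⊔ F'),
      (∀ z : F, σ (algebraMap F ↥(F ⊔ F') z) = algebraMap F ↥(F ⊔ F') (τ z)) ∧
      ∀ z : F', σ (algebraMap F' ↥(F ⊔ F') z) = algebraMap F' ↥(F ⊔ F') (τ' z) := by
    let ρ : (↥(F ⊔ F') ≃ₐ[K] ↥(F ⊔ F')) →* (F ≃ₐ[K] F) × (F' ≃ₐ[K] F') :=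
      (AlgEquiv.restrictNormalHom F).prod (AlgEquiv.restrictNormalHom F')
    have hρ : Function.Injective ρ := by
      rw [injective_iff_map_eq_one]
      intro σ hσ
      have h1 : σ.restrictNormal F = 1 := congrArg Prod.fst hσ
      have h2 : σ.restrictNormal F' = 1 := congrArg Prod.snd hσ
      apply hinj
      · intro z
        rw [← AlgEquiv.restrictNormal_commutes, h1]
        rfl
      · intro z
        rw [← AlgEquiv.restrictNormal_commutes, h2]
        rfl
    have hc : Nat.card (↥(F ⊔ F') ≃ₐ[K] ↥(F ⊔ F')) = Nat.card ((F ≃ₐ[K] F) × (F' ≃ₐ[K] F')) := by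
      rw [Nat.card_prod, IsGalois.card_aut_eq_finrank, IsGalois.card_aut_eq_finrank,
        IsGalois.card_aut_eq_finrank, hd9, hF, hF']
    have hb : Function.Bijective ρ := (Nat.bijective_iff_injective_and_card ρ).2 ⟨hρ, hc⟩
    intro τ τ'
    obtain ⟨σ, hσ⟩ := hb.2 (τ, τ')
    have h1 : σ.restrictNormal F = τ := congrArg Prod.fst hσ
    have h2 : σ.restrictNormal F' = τ' := congrArg Prod.snd hσ
    refine ⟨σ, fun z => ?_, fun z => ?_⟩
    · rw [← AlgEquiv.restrictNormal_commutes, h1]
    · rw [← AlgEquiv.restrictNormal_commutes, h2]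
  exact ⟨↥(F ⊔ F'), inferInstance, hNE, inferInstance, A1, A2, ⟨T1, T2, hgE, hd9, hgen, hres, hinj⟩⟩

end H1.LS4
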