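import Pool.Agent.H1.LS4.Spl

/-!
# [H1 LS4 LCA] The local identities in the cubic field (60-100 lines)

`n_F` = number of primes of `F` over `l`.
* `lca1`: `n_F = 3`: all `v` over `l` have `nm v = nm l` (`spl_norm`), so the right side is the sum over the primes above `l` (translate `Pl F` with `Over v l`
into `l.asIdeal.primesOver (𝓞 F)`). `n_F ≠ 3`: both sides are `0` (`spl_unr`: no `v` over `l` with `nm v = nm l`).
* `lca3`: `n_F ≠ 3`: both sides are `0`. `n_F = 3`: with `P₀` over `l` both sides are, by `spl_sum`: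
left `∑_σ χ(gm σ P₀) * ∑_ρ χ'(gm ρ P₀)`, right `∑_τ ∑_σ χ(gm σ P₀) χ'(gm τ (gm σ P₀))`, `gm τ (gm σ P₀) = gm (σ.trans τ) P₀` (`gm_trans`), and `τ ↦ σ.trans τ` is a
bijection.
* `lca_non`: if `χ(I) χ'(gm τ I) = 1` for all `I ≠ ⊥` prime to `md 𝔪 F`, then `χ'(gm τ I) = χ(I)` for these `I` (values `±1`: `gm τ I` is prime to
`gm τ (md 𝔪 F) = md 𝔪 F`). For `I = ⊥` both are `0` (`map_zero`), for `I` not prime to `md 𝔪 F` both are `0` (`zero_of`, `gm_cop`, `gm_md`).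
-/

set_option autoImplicit false

open scoped NumberField Classical
open NumberField H63.MA H36.QA H57.LI

noncomputable section

namespace H1.LS4

variable {K F : Type} [Field K] [NumberField K] [Field F] [NumberField F] [Algebra K F] [IsGalois K F]

omit [IsGalois K F] in
/-- the places over `l` as ideals -/
private theorem lca_over (l : Pl K) (v : Pl F) :
    Over v l ↔ v.asIdeal ∈ l.asIdeal.primesOver (𝓞 F) := by
  constructor
  · intro h
    exact ⟨v.isPrime, ⟨h.symm⟩⟩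
  · rintro ⟨_, h⟩
    exact h.over.symm

private theorem lca_set (l : Pl K)
    (h : (l.asIdeal.primesOver (𝓞 F)).ncard = Module.finrank K F) (f : Ideal (𝓞 F) → ℂ) :
    ∑ᶠ v ∈ {v : Pl F | Over v l ∧ nm v = nm l}, f v.asIdeal =
      ∑ᶠ P ∈ l.asIdeal.primesOver (𝓞 F), f P := by
  have h1 : l.asIdeal.primesOver (𝓞 F) =
      (fun v : Pl F => v.asIdeal) '' {v : Pl F | Over v l ∧ nm v = nm l} := by
    ext P
    constructor
    · intro hP
      have hb : P ≠ ⊥ := Ideal.ne_bot_of_mem_primesOver l.ne_bot hP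
      refine ⟨⟨P, hP.1, hb⟩, ⟨?_, ?_⟩, rfl⟩
      · exact (lca_over l ⟨P, hP.1, hb⟩).2 hP
      · exact (spl_norm l h P hP).2
    · rintro ⟨v, ⟨hv, _⟩, rfl⟩
      exact (lca_over l v).1 hv
  rw [h1, finsum_mem_image]
  intro v _ w _ hvw
  exact IsDedekindDomain.HeightOneSpectrum.ext hvw

private theorem lca_empty (l : Pl K) (hl : Unr K F l.asIdeal)
    (h : (l.asIdeal.primesOver (𝓞 F)).ncard ≠ Module.finrank K F) (f : Ideal (𝓞 F) → ℂ) :
    ∑ᶠ v ∈ {v : Pl F | Over v l ∧ nm v = nm l}, f v.asIdeal = 0 := by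
  have h1 : {v : Pl F | Over v l ∧ nm v = nm l} = ∅ := by
    rw [Set.eq_empty_iff_forall_notMem]
    rintro v ⟨hv, hv2⟩
    exact h (spl_unr l hl v.asIdeal ((lca_over l v).1 hv) hv2)
  rw [h1, finsum_mem_empty]

theorem lca1 (h3 : Module.finrank K F = 3) (χ : Ideal (𝓞 F) →*₀ ℂ) (l : Pl K) (hl : Unr K F l.asIdeal) :
    lpc χ l.asIdeal = ∑ᶠ v ∈ {v : Pl F | Over v l ∧ nm v = nm l}, χ v.asIdeal := by
  unfold lpc
  by_cases h : (l.asIdeal.primesOver (𝓞 F)).ncard = 3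
  · rw [if_pos h, lca_set l (h.trans h3.symm) (fun P => χ P)]
  · rw [if_neg h, lca_empty l hl (by rwa [h3]) (fun P => χ P)]

theorem lca3 (h3 : Module.finrank K F = 3) (χ χ' : Ideal (𝓞 F) →*₀ ℂ) (l : Pl K) (hl : Unr K F l.asIdeal) :
    lpc χ l.asIdeal * lpc χ' l.asIdeal =
      ∑ τ : F ≃ₐ[K] F, ∑ᶠ v ∈ {v : Pl F | Over v l ∧ nm v = nm l}, χ v.asIdeal * χ' (gm τ v.asIdeal) := by
  unfold lpc
  by_cases h : (l.asIdeal.primesOver (𝓞 F)).ncard = 3
  · have h' := h.trans h3.symm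
    obtain ⟨P₀, hP₀⟩ : (l.asIdeal.primesOver (𝓞 F)).Nonempty := by
      by_contra h0
      rw [Set.not_nonempty_iff_eq_empty] at h0
      rw [h0, Set.ncard_empty] at h
      omega
    rw [if_pos h, if_pos h, spl_sum l h' P₀ hP₀ (fun P => χ P), spl_sum l h' P₀ hP₀ (fun P => χ' P)]
    have h1 : ∀ τ : F ≃ₐ[K] F, ∑ᶠ v ∈ {v : Pl F | Over v l ∧ nm v = nm l},
        χ v.asIdeal * χ' (gm τ v.asIdeal) =
        ∑ σ : F ≃ₐ[K] F, χ (gm σ P₀) * χ' (gm (τ * σ) P₀) := by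
      intro τ
      rw [lca_set l h' (fun P => χ P * χ' (gm τ P)),
        spl_sum l h' P₀ hP₀ (fun P => χ P * χ' (gm τ P))]
      refine Finset.sum_congr rfl fun σ _ => ?_
      rw [gm_trans]
      rfl
    simp only [h1]
    rw [Finset.sum_comm, Finset.sum_mul]
    refine Finset.sum_congr rfl fun σ _ => ?_
    rw [← Finset.mul_sum]
    congr 1
    exact (Equiv.sum_comp (Equiv.mulRight σ) (fun ρ : F ≃ₐ[K] F => χ' (gm ρ P₀))).symm
  · rw [if_neg h, zero_mul]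
    refine (Finset.sum_eq_zero fun τ _ => ?_).symm
    exact lca_empty l hl (by rwa [h3]) (fun P => χ P * χ' (gm τ P))

theorem lca_non {𝔪 : Ideal (𝓞 K)} (χ χ' : RC F (md 𝔪 F)) (hχ : QT 𝔪 χ) (hχ' : QT 𝔪 χ') (τ : F ≃ₐ[K] F)
    (ψ : RC F (md 𝔪 F)) (hψ : ∀ I : Ideal (𝓞 F), ψ.χ I = χ.χ I * χ'.χ (gm τ I)) (hn : ¬ ψ.Non) :
    ∀ I : Ideal (𝓞 F), χ'.χ (gm τ I) = χ.χ I := by
  intro I
  by_cases h0 : I = ⊥
  · have h1 : gm τ I = ⊥ := (gm_bot τ I).2 h0
    rw [h1, h0]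
    have h2 : χ'.χ (⊥ : Ideal (𝓞 F)) = 0 := map_zero χ'.χ
    have h3 : χ.χ (⊥ : Ideal (𝓞 F)) = 0 := map_zero χ.χ
    rw [h2, h3]
  by_cases hc : IsCoprime I (md 𝔪 F)
  · have h1 : ψ.χ I = 1 := by
      by_contra h2
      exact hn ⟨I, h0, hc, h2⟩
    rw [hψ] at h1
    rcases hχ.quad I h0 hc with h2 | h2
    · rw [h2, one_mul] at h1
      rw [h1, h2]
    · rw [h2] at h1 ⊢
      have h3 : -(χ'.χ (gm τ I)) = 1 := by
        rw [← h1]
        ring
      rw [← h3, neg_neg]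
  · have h1 : ¬ IsCoprime (gm τ I) (md 𝔪 F) := by
      rw [← gm_md τ 𝔪, gm_cop]
      exact hc
    rw [χ.zero_of I hc, χ'.zero_of _ h1]

end H1.LS4
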