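import Pool.Agent.H1.LS4.Spl

/-!
# [H1 LS4 LCB] The local identity in the compositum (70-110 lines)

Let `n_F`, `n_F'`, `n_E` be the numbers of primes of `F`, `F'`, `E` above `l`.
CASE 1: `n_F = 3 = n_F'`. Then `n_E = 9` (`spl_up`). Let `𝔓₀` be a prime of `E` over `l`, `P₀ = 𝔓₀ ∩ F`, `P₀' = 𝔓₀ ∩ F'` (primes over `l`). All `v` over
`l` have `nm v = nm l` (`spl_norm`), so the right side is the sum of `ψ` over the primes above `l` (translate `Pl E` with `Over v l` into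
`l.asIdeal.primesOver (𝓞 E)`: `finsum_mem_eq_of_bijOn`) `= ∑_σ ψ(gm σ 𝔓₀)` (`spl_sum`). For `σ` with restrictions `τ`, `τ'`:
`relNorm (𝓞 F) (gm σ 𝔓₀) = (gm σ 𝔓₀) ∩ F = gm τ P₀` (`spl_rel`, `spl_gm`), so `ψ(gm σ 𝔓₀) = χ(gm τ P₀) χ'(gm τ' P₀')`. The map `(τ, τ') ↦ σ` (choice from
`h.res`) is injective (`σ` determines `τ`, `τ'`) between sets of `9` elements (`IsGalois.card_aut_eq_finrank`), so bijective, and the sum is
`∑_τ ∑_τ' χ(gm τ P₀) χ'(gm τ' P₀') = lpc χ l * lpc χ' l` (`spl_sum` for `F` and `F'`).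
CASE 2: `n_F ≠ 3` or `n_F' ≠ 3`: the left side is `0`. There is no `v` over `l` with `nm v = nm l`: otherwise `n_E = 9` (`spl_unr`) and
`n_F = 3`, `n_F' = 3` (`spl_down`). So the right side is an empty sum.
-/

set_option autoImplicit false

open scoped NumberField Classical
open NumberField H63.MA H36.QA H57.LI

noncomputable section

namespace H1.LS4

private lemma lcb_over {K E : Type} [Field K] [NumberField K] [Field E] [NumberField E] [Algebra K E] (l : Pl K) (v : Pl E) :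
    v.asIdeal ∈ l.asIdeal.primesOver (𝓞 E) ↔ Over v l := by
  constructor
  · rintro ⟨_, h⟩
    exact h.over.symm
  · intro h
    exact ⟨v.isPrime, ⟨h.symm⟩⟩

private lemma lcb_ne {K E : Type} [Field K] [NumberField K] [Field E] [NumberField E] [Algebra K E] (l : Pl K)
    {P : Ideal (𝓞 E)} (h : P ∈ l.asIdeal.primesOver (𝓞 E)) : P ≠ ⊥ := by
  rintro rfl
  have h1 : l.asIdeal = (⊥ : Ideal (𝓞 E)).comap (algebraMap (𝓞 K) (𝓞 E)) := h.2.over
  have h2 : (⊥ : Ideal (𝓞 E)).comap (algebraMap (𝓞 K) (𝓞 E)) = ⊥ :=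
    Ideal.comap_bot_of_injective _ (FaithfulSMul.algebraMap_injective (𝓞 K) (𝓞 E))
  exact l.ne_bot (h1.trans h2)

private lemma lcb_gm {K E : Type} [Field K] [NumberField K] [Field E] [NumberField E] [Algebra K E] (l : Pl K)
    (σ : E ≃ₐ[K] E) {P : Ideal (𝓞 E)} (h : P ∈ l.asIdeal.primesOver (𝓞 E)) : gm σ P ∈ l.asIdeal.primesOver (𝓞 E) := by
  refine ⟨(gm_prime σ P).2 h.1, ⟨?_⟩⟩
  have h1 := spl_gm (K := K) (F := K) (E := E) AlgEquiv.refl σ (fun z => σ.commutes z) P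
  rw [gm_refl] at h1
  exact h.2.over.trans h1.symm

private lemma lcb_comap {K F E : Type} [Field K] [NumberField K] [Field F] [NumberField F] [Algebra K F] [Field E]
    [NumberField E] [Algebra K E] [Algebra F E] [IsScalarTower K F E] (l : Pl K) {P : Ideal (𝓞 E)}
    (h : P ∈ l.asIdeal.primesOver (𝓞 E)) : P.comap (algebraMap (𝓞 F) (𝓞 E)) ∈ l.asIdeal.primesOver (𝓞 F) := by
  haveI := h.1
  refine ⟨Ideal.comap_isPrime _ _, ⟨?_⟩⟩
  have h1 : l.asIdeal = P.comap (algebraMap (𝓞 K) (𝓞 E)) := h.2.over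
  rw [Ideal.under, Ideal.comap_comap, ← IsScalarTower.algebraMap_eq (𝓞 K) (𝓞 F) (𝓞 E)]
  exact h1

private lemma lcb_sum {K E : Type} [Field K] [NumberField K] [Field E] [NumberField E] [Algebra K E] [IsGalois K E] (l : Pl K)
    (h : (l.asIdeal.primesOver (𝓞 E)).ncard = Module.finrank K E) (ψ : Ideal (𝓞 E) → ℂ) :
    ∑ᶠ v ∈ {v : Pl E | Over v l ∧ nm v = nm l}, ψ v.asIdeal = ∑ᶠ P ∈ l.asIdeal.primesOver (𝓞 E), ψ P := by
  refine finsum_mem_eq_of_bijOn (fun v : Pl E => v.asIdeal) ⟨?_, ?_, ?_⟩ (fun v _ => rfl)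
  · intro v hv
    exact (lcb_over l v).2 hv.1
  · intro v _ w _ e
    exact IsDedekindDomain.HeightOneSpectrum.ext e
  · intro P hP
    have hv : (⟨P, hP.1, lcb_ne l hP⟩ : Pl E).asIdeal ∈ l.asIdeal.primesOver (𝓞 E) := hP
    exact ⟨⟨P, hP.1, lcb_ne l hP⟩, ⟨(lcb_over l _).1 hv, (spl_norm l h P hP).2⟩, rfl⟩

private lemma lcb_lpc {K F : Type} [Field K] [NumberField K] [Field F] [NumberField F] [Algebra K F] [IsGalois K F]
    (h3 : Module.finrank K F = 3) (χ : Ideal (𝓞 F) →*₀ ℂ) (l : Pl K)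
    (h : (l.asIdeal.primesOver (𝓞 F)).ncard = 3) {P : Ideal (𝓞 F)} (hP : P ∈ l.asIdeal.primesOver (𝓞 F)) :
    lpc χ l.asIdeal = ∑ τ : F ≃ₐ[K] F, χ (gm τ P) := by
  unfold lpc
  rw [if_pos h]
  exact spl_sum l (h.trans h3.symm) P hP (fun I => χ I)

theorem lcb {K F F' E : Type} [Field K] [NumberField K] [Field F] [NumberField F] [Algebra K F] [Field F'] [NumberField F']
    [Algebra K F'] [Field E] [NumberField E] [Algebra K E] [Algebra F E] [Algebra F' E] (h : Cp K F F' E) [IsGalois K F]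
    [IsGalois K F'] (h3 : Module.finrank K F = 3) (h3' : Module.finrank K F' = 3) (χ : Ideal (𝓞 F) →*₀ ℂ)
    (χ' : Ideal (𝓞 F') →*₀ ℂ) (ψ : Ideal (𝓞 E) →*₀ ℂ)
    (hψ : ∀ I : Ideal (𝓞 E), ψ I = χ (Ideal.relNorm (𝓞 F) I) * χ' (Ideal.relNorm (𝓞 F') I)) (l : Pl K)
    (hl : Unr K E l.asIdeal) :
    lpc χ l.asIdeal * lpc χ' l.asIdeal = ∑ᶠ v ∈ {v : Pl E | Over v l ∧ nm v = nm l}, ψ v.asIdeal := by
  haveI := h.tow
  haveI := h.tow'
  haveI := h.gal
  by_cases hn : (l.asIdeal.primesOver (𝓞 F)).ncard = 3 ∧ (l.asIdeal.primesOver (𝓞 F')).ncard = 3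
  · obtain ⟨h1, h2⟩ := hn
    have hE : (l.asIdeal.primesOver (𝓞 E)).ncard = Module.finrank K E :=
      spl_up h l (h1.trans h3.symm) (h2.trans h3'.symm)
    rw [lcb_sum l hE ψ]
    have hne : (l.asIdeal.primesOver (𝓞 E)).Nonempty := by
      rw [Set.nonempty_iff_ne_empty]
      intro h0
      rw [h0, Set.ncard_empty, h.d9] at hE
      omega
    obtain ⟨P, hP⟩ := hne
    rw [spl_sum l hE P hP (fun I => ψ I), lcb_lpc h3 χ l h1 (lcb_comap (F := F) l hP),
      lcb_lpc h3' χ' l h2 (lcb_comap (F := F') l hP), Finset.sum_mul_sum, ← Fintype.sum_prod_type']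
    set s : (F ≃ₐ[K] F) × (F' ≃ₐ[K] F') → (E ≃ₐ[K] E) := fun p => (h.res p.1 p.2).choose with hs
    have hs1 : ∀ p : (F ≃ₐ[K] F) × (F' ≃ₐ[K] F'), ∀ z : F, s p (algebraMap F E z) = algebraMap F E (p.1 z) :=
      fun p => (h.res p.1 p.2).choose_spec.1
    have hs2 : ∀ p : (F ≃ₐ[K] F) × (F' ≃ₐ[K] F'), ∀ z : F', s p (algebraMap F' E z) = algebraMap F' E (p.2 z) :=
      fun p => (h.res p.1 p.2).choose_spec.2
    have hb : Function.Bijective s := by
      rw [Fintype.bijective_iff_injective_and_card]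
      constructor
      · intro p q hpq
        refine Prod.ext (AlgEquiv.ext fun z => ?_) (AlgEquiv.ext fun z => ?_)
        · apply (algebraMap F E).injective
          rw [← hs1 p z, ← hs1 q z, hpq]
        · apply (algebraMap F' E).injective
          rw [← hs2 p z, ← hs2 q z, hpq]
      · rw [Fintype.card_prod, ← Nat.card_eq_fintype_card, ← Nat.card_eq_fintype_card,
          ← Nat.card_eq_fintype_card, IsGalois.card_aut_eq_finrank, IsGalois.card_aut_eq_finrank,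
          IsGalois.card_aut_eq_finrank, h3, h3', h.d9]
    refine Fintype.sum_bijective s hb _ _ (fun p => ?_)
    have hp := lcb_gm l (s p) hP
    rw [hψ, spl_rel (F := F) l hE _ hp, spl_rel (F := F') l hE _ hp, spl_gm p.1 (s p) (hs1 p) P,
      spl_gm p.2 (s p) (hs2 p) P]
  · have hL : lpc χ l.asIdeal * lpc χ' l.asIdeal = 0 := by
      unfold lpc
      by_cases h1 : (l.asIdeal.primesOver (𝓞 F)).ncard = 3
      · rw [if_neg (fun h2 => hn ⟨h1, h2⟩), mul_zero]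
      · rw [if_neg h1, zero_mul]
    have hS : {v : Pl E | Over v l ∧ nm v = nm l} = ∅ := by
      rw [Set.eq_empty_iff_forall_notMem]
      rintro v ⟨hv, hv'⟩
      have hE := spl_unr l hl v.asIdeal ((lcb_over l v).2 hv) hv'
      exact hn ⟨(spl_down (F := F) l hE).trans h3, (spl_down (F := F') l hE).trans h3'⟩
    rw [hL, hS, finsum_mem_empty]

end H1.LS4
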