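import Pool.Agent.H1.LS4.Gdf
import Pool.Agent.H63.MA.AFin
import Pool.Agent.H57.LI.PrK

/-!
# [H1 LS4 LQS] Squarefree ideals and finite sets of primes (60-90 lines)

* `lqs`: the squarefree ideals `q ≠ ⊥` of norm `≤ Y` are the `idl s = ∏_{l ∈ s} l`, `s ∈ AF K Y`, each once (`idl_inj`, `idl_norm`, `mem_AF`, `mem_IN`;
surjectivity: a squarefree ideal is the product of its prime factors, which are different: `UniqueFactorizationMonoid.squarefree_iff_nodup_normalizedFactors`), and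
`normalizedFactors (idl s)` is the multiset of the `l.asIdeal`, `l ∈ s` (`UniqueFactorizationMonoid.normalizedFactors_prod..`, induction over `s` with
`normalizedFactors_mul`, `normalizedFactors_irreducible`; the associates-normalisation of ideals is trivial).
* `lp_lpc`: the values `χ(P)` at primes are `1`, `-1` (`quad`) or `0` (`zero_of`), hence real; the set of primes over `l` is finite (or the
cardinality is not `3`); `Complex.ofReal` commutes with the finite sum (`finsum_mem_eq_finite_toFinset_sum`).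
* `lp_le`: three values of absolute value at most `1`.
* `lq_sum`: `x.lq q * y.lq q = if Squarefree q then ((normalizedFactors q).map (x.lp · y.lp)).prod else 0` (`Multiset.prod_map_mul`), `lqs`, `lp_lpc`.
-/

set_option autoImplicit false

open scoped NumberField Classical
open NumberField H63.MA H36.QA H57.LI

noncomputable section

namespace H1.LS4

private theorem sf_af {K : Type} [Field K] [NumberField K] (Y : ℝ) : (prK K).SF Y = AF K Y := by
  refine Finset.ext fun s => ?_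
  rw [(prK K).mem_SF, mem_AF, prK_nn, H57.LI.idl_norm]
  rfl

theorem lqs {K : Type} [Field K] [NumberField K] (f : Ideal (𝓞 K) → ℝ) (Y : ℝ) (hY : 1 ≤ Y) :
    ∑ q ∈ IN K Y, (if Squarefree q then ((UniqueFactorizationMonoid.normalizedFactors q).map f).prod else 0) =
      ∑ s ∈ AF K Y, ∏ l ∈ s, f l.asIdeal := by
  rw [sum_sf (fun q => if Squarefree q then ((UniqueFactorizationMonoid.normalizedFactors q).map f).prod else 0)
    (fun q h => if_neg h) Y (by linarith), sf_af]
  refine Finset.sum_congr rfl fun s _ => ?_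
  rw [if_pos (H57.LI.idl_sqf s), H57.LI.idl_nf, Multiset.map_map]
  rfl

variable {K Ω : Type} [Field K] [NumberField K] [Field Ω] [Algebra K Ω] {𝔪 : Ideal (𝓞 K)}

private theorem re_eq (x : AP K Ω 𝔪) (P : Ideal (𝓞 x.F)) : (((x.χ.χ P).re : ℝ) : ℂ) = x.χ.χ P := by
  by_cases h0 : P = ⊥
  · rw [h0, ← Ideal.zero_eq_bot, map_zero, Complex.zero_re, Complex.ofReal_zero]
  · by_cases hc : IsCoprime P (md 𝔪 x.F)
    · rcases x.quad P h0 hc with h | h
      · rw [h, Complex.one_re, Complex.ofReal_one]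
      · rw [h, Complex.neg_re, Complex.one_re, Complex.ofReal_neg, Complex.ofReal_one]
    · rw [x.χ.zero_of P hc, Complex.zero_re, Complex.ofReal_zero]

theorem lp_lpc (x : AP K Ω 𝔪) (l : Pl K) : ((x.lp l.asIdeal : ℝ) : ℂ) = lpc x.χ.χ l.asIdeal := by
  unfold AP.lp lpc
  by_cases h : (l.asIdeal.primesOver (𝓞 x.F)).ncard = 3
  · rw [if_pos h, if_pos h]
    have hfin : (l.asIdeal.primesOver (𝓞 x.F)).Finite :=
      Set.finite_of_ncard_ne_zero (by rw [h]; norm_num)
    rw [finsum_mem_eq_finite_toFinset_sum _ hfin, finsum_mem_eq_finite_toFinset_sum _ hfin,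
      Complex.ofReal_sum]
    exact Finset.sum_congr rfl fun P _ => re_eq x P
  · rw [if_neg h, if_neg h, Complex.ofReal_zero]

theorem lp_le (x : AP K Ω 𝔪) (l : Pl K) : ‖lpc (K := K) x.χ.χ l.asIdeal‖ ≤ 3 := by
  rw [← lp_lpc, Complex.norm_real, Real.norm_eq_abs]
  exact lam_le x l

theorem lq_sum1 (x : AP K Ω 𝔪) (Y : ℝ) (hY : 1 ≤ Y) :
    ((∑ q ∈ IN K Y, x.lq q : ℝ) : ℂ) = ∑ s ∈ AF K Y, ∏ l ∈ s, lpc (K := K) x.χ.χ l.asIdeal := by
  have h1 : ∑ q ∈ IN K Y, x.lq q = ∑ s ∈ AF K Y, ∏ l ∈ s, x.lp l.asIdeal := lqs x.lp Y hY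
  rw [h1, Complex.ofReal_sum]
  refine Finset.sum_congr rfl fun s _ => ?_
  rw [Complex.ofReal_prod]
  exact Finset.prod_congr rfl fun l _ => lp_lpc x l

theorem lq_sum (x y : AP K Ω 𝔪) (Y : ℝ) (hY : 1 ≤ Y) :
    ((∑ q ∈ IN K Y, x.lq q * y.lq q : ℝ) : ℂ) =
      ∑ s ∈ AF K Y, ∏ l ∈ s, (lpc (K := K) x.χ.χ l.asIdeal * lpc (K := K) y.χ.χ l.asIdeal) := by
  have h1 : ∑ q ∈ IN K Y, x.lq q * y.lq q = ∑ s ∈ AF K Y, ∏ l ∈ s, (x.lp l.asIdeal * y.lp l.asIdeal) := by
    rw [← lqs (fun I => x.lp I * y.lp I) Y hY]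
    refine Finset.sum_congr rfl fun q _ => ?_
    unfold AP.lq
    by_cases h : Squarefree q
    · rw [if_pos h, if_pos h, if_pos h, Multiset.prod_map_mul]
    · rw [if_neg h, if_neg h, if_neg h, mul_zero]
  rw [h1, Complex.ofReal_sum]
  refine Finset.sum_congr rfl fun s _ => ?_
  rw [Complex.ofReal_prod]
  refine Finset.prod_congr rfl fun l _ => ?_
  rw [Complex.ofReal_mul, lp_lpc, lp_lpc]

end H1.LS4
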