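import Pool.Agent.H1.LS4.Gal

/-!
# [H1 LS4 NCH] Pulling back ray class characters (80-120 lines)

* `nch` (`F ⊆ E` Galois): `ψ = χ.χ.comp (Ideal.relNorm (𝓞 F))` (both are `→*₀`).
  `zero_of`: `I ≠ ⊥` not prime to `md 𝔪 E`: a prime `𝔓` divides both; `P = 𝔓 ∩ 𝓞_F` contains `md 𝔪 F` (`md 𝔪 E = (md 𝔪 F) 𝓞_E`: `Ideal.map_map`,
  `IsScalarTower`), and `relNorm 𝔓 = P^f`, `f ≥ 1`, divides `relNorm I`; so `relNorm I` is not prime to `md 𝔪 F`. `I = ⊥`: `map_zero`.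
  `norm_one`: a prime `P` dividing `relNorm I` and `md 𝔪 F`: `I` is a product of primes `𝔓_i`, `relNorm I` the product of the `P_i^(f_i)`, so
  `P = P_i` for some `i`, and `𝔓_i` contains `md 𝔪 F`, hence `md 𝔪 E`: contradiction. (`relNorm_eq_pow_of_isMaximal`; induction over factorisations.)
  `ray`: `x - 1 ∈ md 𝔪 E`: `relNorm (x) = (intNorm x)` (`Ideal.relNorm_singleton`); in `𝓞_E` the norm is `∏_σ σ x` over `Gal(E/F)`
  (`Algebra.algebraMap_intNorm_of_isGalois`), `σ x - 1 ∈ gm σ (md 𝔪 E) = md 𝔪 E`, so `z := intNorm x - 1` has image in `md 𝔪 E = (md 𝔪 F) 𝓞_E`. Then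
  `(md 𝔪 F) 𝓞_E ∣ (z) 𝓞_E`, take `relNorm` (`relNorm_algebraMap`): `(md 𝔪 F)^d ∣ (z)^d`, so `md 𝔪 F ∣ (z)` (`pow_dvd_pow_iff` for ideals;
  if `md 𝔪 F = ⊥` then `z = 0`).
* `rcml`: product of two characters of the same modulus (see `H57.TLS.prc`).
* `rtw`: `χ'(I) = χ(gm σ I)` (`gm_mul`, `gm_bot`, `gm_top`, `gm_cop`, `gm_md`; `gm σ (x) = (σ x)`, `σ x - 1 ∈ gm σ (md 𝔪 F) = md 𝔪 F'`).
-/

set_option autoImplicit false

open scoped NumberField Classical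
open NumberField H63.MA H36.QA H57.LI

noncomputable section

namespace H1.LS4

section aux

variable {F E : Type} [Field F] [NumberField F] [Field E] [NumberField E] [Algebra F E]

private theorem nch_mdmd {K F E : Type} [Field K] [NumberField K] [Field F] [NumberField F] [Algebra K F] [Field E]
    [NumberField E] [Algebra K E] [Algebra F E] [IsScalarTower K F E] (𝔪 : Ideal (𝓞 K)) : md (md 𝔪 F) E = md 𝔪 E := by
  unfold md
  rw [Ideal.map_map]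
  congr 1
  refine RingHom.ext fun x => RingOfIntegers.coe_injective ?_
  have h1 : algebraMap (𝓞 E) E (((algebraMap (𝓞 F) (𝓞 E)).comp (algebraMap (𝓞 K) (𝓞 F))) x) =
      algebraMap F E (algebraMap K F (algebraMap (𝓞 K) K x)) := rfl
  have h2 : algebraMap (𝓞 E) E (algebraMap (𝓞 K) (𝓞 E) x) = algebraMap K E (algebraMap (𝓞 K) K x) := rfl
  rw [h1, h2, ← IsScalarTower.algebraMap_apply K F E]

private theorem nch_desc (A B : Ideal (𝓞 F)) (h : IsCoprime (md A E) (md B E)) : IsCoprime A B := by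
  by_contra hc
  rw [Ideal.isCoprime_iff_sup_eq] at hc
  obtain ⟨p, hp, hle⟩ := Ideal.exists_le_maximal _ hc
  obtain ⟨P, hP1, hP2⟩ := Ideal.exists_maximal_ideal_liesOver_of_isIntegral (S := 𝓞 E) p
  have h1 : ∀ C : Ideal (𝓞 F), C ≤ p → md C E ≤ P := by
    intro C hC
    unfold md
    rw [Ideal.map_le_iff_le_comap]
    exact hC.trans (le_of_eq (Ideal.LiesOver.over (P := P) (p := p)))
  rw [Ideal.isCoprime_iff_sup_eq] at h
  have h2 : md A E ⊔ md B E ≤ P := sup_le (h1 A (le_sup_left.trans hle)) (h1 B (le_sup_right.trans hle))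
  rw [h, top_le_iff] at h2
  exact hP1.ne_top h2

private theorem nch_norm [IsGalois F E] (x : 𝓞 E) : algebraMap (𝓞 F) (𝓞 E) (Algebra.intNorm (𝓞 F) (𝓞 E) x) =
    ∏ σ : E ≃ₐ[F] E, (RingOfIntegers.mapRingEquiv σ.toRingEquiv : 𝓞 E ≃+* 𝓞 E) x := by
  apply RingOfIntegers.coe_injective
  rw [map_prod]
  have h1 : algebraMap (𝓞 E) E (algebraMap (𝓞 F) (𝓞 E) (Algebra.intNorm (𝓞 F) (𝓞 E) x)) =
      algebraMap F E (algebraMap (𝓞 F) F (Algebra.intNorm (𝓞 F) (𝓞 E) x)) := by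
    rw [← IsScalarTower.algebraMap_apply, ← IsScalarTower.algebraMap_apply]
  rw [h1, Algebra.algebraMap_intNorm (A := 𝓞 F) (K := F) (L := E) (B := 𝓞 E), Algebra.norm_eq_prod_automorphisms]
  rfl

private theorem nch_coll {I J : Ideal (𝓞 F)} (h : md I E ≤ md J E) : I ≤ J := by
  have h1 := Ideal.relNorm_mono (𝓞 F) h
  unfold md at h1
  rw [Ideal.relNorm_algebraMap, Ideal.relNorm_algebraMap] at h1
  have h2 : J ^ Module.finrank (𝓞 F) (𝓞 E) ∣ I ^ Module.finrank (𝓞 F) (𝓞 E) := Ideal.dvd_iff_le.2 h1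
  have h3 : Module.finrank (𝓞 F) (𝓞 E) ≠ 0 := Module.finrank_pos.ne'
  rw [UniqueFactorizationMonoid.pow_dvd_pow_iff_dvd h3] at h2
  exact Ideal.dvd_iff_le.1 h2

/-- the norm of an element which is `1` modulo `J 𝓞_E` is `1` modulo `J` -/
private theorem nch_cong [IsGalois F E] {J : Ideal (𝓞 F)} {x : 𝓞 E} (hx : x - 1 ∈ md J E) :
    Algebra.intNorm (𝓞 F) (𝓞 E) x - 1 ∈ J := by
  have h1 : ∀ σ : E ≃ₐ[F] E, Ideal.Quotient.mk (md J E)
      ((RingOfIntegers.mapRingEquiv σ.toRingEquiv : 𝓞 E ≃+* 𝓞 E) x) = 1 := by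
    intro σ
    have h2 := (gm_mem σ (md J E) (x - 1)).2 hx
    rw [gm_md, map_sub, map_one] at h2
    rw [← map_one (Ideal.Quotient.mk (md J E)), Ideal.Quotient.eq]
    exact h2
  have h2 : algebraMap (𝓞 F) (𝓞 E) (Algebra.intNorm (𝓞 F) (𝓞 E) x) - 1 ∈ md J E := by
    rw [← Ideal.Quotient.eq, nch_norm, map_prod, map_one]
    exact Finset.prod_eq_one fun σ _ => h1 σ
  have h3 : md (Ideal.span {Algebra.intNorm (𝓞 F) (𝓞 E) x - 1}) E ≤ md J E := by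
    have h4 : md (Ideal.span {Algebra.intNorm (𝓞 F) (𝓞 E) x - 1}) E =
        Ideal.span {algebraMap (𝓞 F) (𝓞 E) (Algebra.intNorm (𝓞 F) (𝓞 E) x) - 1} := by
      unfold md
      rw [Ideal.map_span, Set.image_singleton, map_sub, map_one]
    rw [h4, Ideal.span_singleton_le_iff_mem]
    exact h2
  have h4 := nch_coll h3
  rwa [Ideal.span_singleton_le_iff_mem] at h4

private theorem nch_cop [IsGalois F E] {I : Ideal (𝓞 E)} {J : Ideal (𝓞 F)} (hI : I ≠ ⊥)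
    (h : IsCoprime I (md J E)) : IsCoprime (Ideal.relNorm (𝓞 F) I) J := by
  apply nch_desc (E := E)
  rw [← gm_prod I hI]
  refine IsCoprime.prod_left fun σ _ => ?_
  rw [← gm_md σ J, gm_cop]
  exact h

private theorem nch_ncop {I : Ideal (𝓞 E)} {J : Ideal (𝓞 F)} (h : ¬ IsCoprime I (md J E)) :
    ¬ IsCoprime (Ideal.relNorm (𝓞 F) I) J := by
  rw [Ideal.isCoprime_iff_sup_eq] at h ⊢
  obtain ⟨P, hP, hle⟩ := Ideal.exists_le_maximal _ h
  intro hc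
  have h1 : Ideal.relNorm (𝓞 F) I ≤ P.comap (algebraMap (𝓞 F) (𝓞 E)) :=
    (Ideal.relNorm_mono (𝓞 F) (le_sup_left.trans hle)).trans (Ideal.relNorm_le_comap (𝓞 F) P)
  have h2 : J ≤ P.comap (algebraMap (𝓞 F) (𝓞 E)) :=
    Ideal.map_le_iff_le_comap.1 (le_sup_right.trans hle)
  have h3 := sup_le h1 h2
  rw [hc, top_le_iff, Ideal.comap_eq_top_iff] at h3
  exact hP.ne_top h3

end aux

theorem nch {K F E : Type} [Field K] [NumberField K] [Field F] [NumberField F] [Algebra K F] [Field E] [NumberField E]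
    [Algebra K E] [Algebra F E] [IsScalarTower K F E] [IsGalois F E] {𝔪 : Ideal (𝓞 K)} (χ : RC F (md 𝔪 F)) :
    ∃ ψ : RC E (md 𝔪 E), ∀ I : Ideal (𝓞 E), ψ.χ I = χ.χ (Ideal.relNorm (𝓞 F) I) := by
  have hm : md 𝔪 E = md (md 𝔪 F) E := (nch_mdmd 𝔪).symm
  refine ⟨⟨χ.χ.comp (Ideal.relNorm (𝓞 F)), ?_, ?_, ?_⟩, fun I => rfl⟩
  · intro I hI hc
    rw [hm] at hc
    exact χ.norm_one _ (fun h => hI (Ideal.relNorm_eq_bot_iff.1 h)) (nch_cop hI hc)
  · intro I hc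
    rw [hm] at hc
    exact χ.zero_of _ (nch_ncop hc)
  · intro x hx hx1
    rw [hm] at hx1
    have h1 : (χ.χ.comp (Ideal.relNorm (𝓞 F))) (Ideal.span {x}) =
        χ.χ (Ideal.relNorm (𝓞 F) (Ideal.span {x})) := rfl
    rw [h1, Ideal.relNorm_singleton]
    exact χ.ray _ (Algebra.intNorm_ne_zero.2 hx) (nch_cong hx1)

theorem rcml {F : Type} [Field F] [NumberField F] {𝔣 : Ideal (𝓞 F)} (χ χ' : RC F 𝔣) :
    ∃ ψ : RC F 𝔣, ∀ I : Ideal (𝓞 F), ψ.χ I = χ.χ I * χ'.χ I := by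
  obtain ⟨φ, hφ⟩ : ∃ φ : Ideal (𝓞 F) →*₀ ℂ, ∀ I, φ I = χ.χ I * χ'.χ I := by
    refine ⟨⟨⟨fun I => χ.χ I * χ'.χ I, ?_⟩, ?_, ?_⟩, fun _ => rfl⟩
    · show χ.χ 0 * χ'.χ 0 = 0
      rw [map_zero, zero_mul]
    · show χ.χ 1 * χ'.χ 1 = 1
      rw [map_one, map_one, mul_one]
    · intro I J
      show χ.χ (I * J) * χ'.χ (I * J) = χ.χ I * χ'.χ I * (χ.χ J * χ'.χ J)
      rw [map_mul, map_mul]
      ring
  refine ⟨⟨φ, ?_, ?_, ?_⟩, hφ⟩
  · intro I hI hc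
    rw [hφ, norm_mul, χ.norm_one I hI hc, χ'.norm_one I hI hc, mul_one]
  · intro I hc
    rw [hφ, χ.zero_of I hc, zero_mul]
  · intro x hx hx1
    rw [hφ, χ.ray x hx hx1, χ'.ray x hx hx1, mul_one]

theorem rtw {K F F' : Type} [Field K] [NumberField K] [Field F] [NumberField F] [Algebra K F] [Field F'] [NumberField F']
    [Algebra K F'] (σ : F ≃ₐ[K] F') {𝔪 : Ideal (𝓞 K)} (χ : RC F' (md 𝔪 F')) :
    ∃ χ' : RC F (md 𝔪 F), ∀ I : Ideal (𝓞 F), χ'.χ I = χ.χ (gm σ I) := by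
  obtain ⟨φ, hφ⟩ : ∃ φ : Ideal (𝓞 F) →*₀ ℂ, ∀ I, φ I = χ.χ (gm σ I) := by
    refine ⟨⟨⟨fun I => χ.χ (gm σ I), ?_⟩, ?_, ?_⟩, fun _ => rfl⟩
    · show χ.χ (gm σ 0) = 0
      have h1 : gm σ (0 : Ideal (𝓞 F)) = 0 := (gm_bot σ ⊥).2 rfl
      rw [h1, map_zero]
    · show χ.χ (gm σ 1) = 1
      have h1 : gm σ (1 : Ideal (𝓞 F)) = 1 := by
        rw [Ideal.one_eq_top, Ideal.one_eq_top]
        exact gm_top σ
      rw [h1, map_one]
    · intro I J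
      show χ.χ (gm σ (I * J)) = χ.χ (gm σ I) * χ.χ (gm σ J)
      rw [gm_mul, map_mul]
  refine ⟨⟨φ, ?_, ?_, ?_⟩, hφ⟩
  · intro I hI hc
    rw [hφ]
    refine χ.norm_one _ (fun h => hI ((gm_bot σ I).1 h)) ?_
    rw [← gm_md σ 𝔪, gm_cop]
    exact hc
  · intro I hc
    rw [hφ]
    refine χ.zero_of _ fun h => hc ?_
    rw [← gm_md σ 𝔪, gm_cop] at h
    exact h
  · intro x hx hx1
    have h1 : gm σ (Ideal.span {x}) =
        Ideal.span {(RingOfIntegers.mapRingEquiv σ.toRingEquiv : 𝓞 F ≃+* 𝓞 F') x} := by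
      unfold gm
      rw [Ideal.map_span, Set.image_singleton]
    rw [hφ, h1]
    refine χ.ray _ ?_ ?_
    · intro h
      exact hx ((map_eq_zero_iff _ (RingEquiv.injective _)).1 h)
    · have h2 := (gm_mem σ (md 𝔪 F) (x - 1)).2 hx1
      rwa [gm_md, map_sub, map_one] at h2

end H1.LS4
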