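import Pool.Agent.H1.LS4.Gal

/-!
# [H1 LS4 NTR] The character of the compositum is not trivial (60-100 lines)

Suppose `ψ(I) = 1` for all `I ≠ ⊥` prime to `md 𝔪 E`. Let `J ≠ ⊥` be an ideal of `F` prime to `md 𝔪 F` and `τ ∈ Gal(F/K)`. By `h.res τ 1` there is
`σ ∈ Gal(E/K)` with `σ = τ` on `F` and `σ = 1` on `F'`. Put `I = J 𝓞_E` (prime to `md 𝔪 E = (md 𝔪 F) 𝓞_E`: image of `1 = a + b`). `ψ(I) = ψ(gm σ I) = 1`
(`gm σ I` is prime to `gm σ (md 𝔪 E) = md 𝔪 E`). `relNorm (𝓞 F') (gm σ I) = relNorm (𝓞 F') I`, because `σ` is an automorphism over `F'`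
(`Ideal.relNorm_map_algEquiv` with the algebra isomorphism `𝓞 E ≃ₐ[𝓞 F'] 𝓞 E` induced by `σ`). The common factor `χ'(..)` is not `0` (the product
`ψ(I)` is `1`), so `χ(relNorm (𝓞 F) (gm σ I)) = χ(relNorm (𝓞 F) I)`. Now `gm σ (J 𝓞_E) = (gm τ J) 𝓞_E` (both are generated by the `σ(x) = τ(x)`, `x ∈ J`), and
`relNorm (𝓞 F) (J 𝓞_E) = J^3` (`Ideal.relNorm_algebraMap`, `[E:F] = 3` from `h.d9`, `h3`; the rank of `𝓞 E` over `𝓞 F`), so
`χ(gm τ J)^3 = χ(J)^3`; as the values are `±1` (`quad`), `χ(gm τ J) = χ(J)`. By `gm_three` `χ(J) = 1` for all such `J`: contradiction to `χ.Non`.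
-/

set_option autoImplicit false

open scoped NumberField Classical
open NumberField H63.MA H36.QA H57.LI

noncomputable section

namespace H1.LS4

private lemma gm_coe {K F F' : Type} [Field K] [Field F] [Field F'] [Algebra K F] [Algebra K F'] (σ : F ≃ₐ[K] F')
    (I : Ideal (𝓞 F)) : gm σ I =
      I.map ((RingOfIntegers.mapRingEquiv σ.toRingEquiv : 𝓞 F ≃+* 𝓞 F') : 𝓞 F →+* 𝓞 F') := rfl

private lemma alg_tower {K F E : Type} [Field K] [Field F] [Field E] [Algebra K F] [Algebra K E] [Algebra F E]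
    [IsScalarTower K F E] :
    (algebraMap (𝓞 F) (𝓞 E)).comp (algebraMap (𝓞 K) (𝓞 F)) = algebraMap (𝓞 K) (𝓞 E) := by
  ext x
  exact (IsScalarTower.algebraMap_apply K F E (x : K)).symm

private lemma md_tower {K F E : Type} [Field K] [Field F] [Field E] [Algebra K F] [Algebra K E] [Algebra F E]
    [IsScalarTower K F E] (𝔪 : Ideal (𝓞 K)) :
    (md 𝔪 F).map (algebraMap (𝓞 F) (𝓞 E)) = md 𝔪 E := by
  unfold md
  rw [Ideal.map_map, alg_tower]

private lemma gm_relNorm {K F' E : Type} [Field K] [Field F'] [NumberField F']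
    [Field E] [NumberField E] [Algebra K E] [Algebra F' E] (σ : E ≃ₐ[K] E)
    (hσ : ∀ z : F', σ (algebraMap F' E z) = algebraMap F' E z) (I : Ideal (𝓞 E)) :
    Ideal.relNorm (𝓞 F') (gm σ I) = Ideal.relNorm (𝓞 F') I := by
  set e : 𝓞 E ≃ₐ[𝓞 F'] 𝓞 E := AlgEquiv.ofRingEquiv
    (f := (RingOfIntegers.mapRingEquiv σ.toRingEquiv : 𝓞 E ≃+* 𝓞 E)) (by
      intro z
      ext
      exact hσ (z : F')) with he
  have h1 : gm σ I = I.map e := rfl
  rw [h1, Ideal.relNorm_map_algEquiv]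

theorem ntr {K F F' E : Type} [Field K] [NumberField K] [Field F] [NumberField F] [Algebra K F] [Field F'] [NumberField F']
    [Algebra K F'] [Field E] [NumberField E] [Algebra K E] [Algebra F E] [Algebra F' E] (h : Cp K F F' E) [IsGalois K F]
    (h3 : Module.finrank K F = 3) {𝔪 : Ideal (𝓞 K)} (χ : RC F (md 𝔪 F)) (χ' : RC F' (md 𝔪 F')) (hχ : QT 𝔪 χ)
    (hn : χ.Non) (ψ : RC E (md 𝔪 E))
    (hψ : ∀ I : Ideal (𝓞 E), ψ.χ I = χ.χ (Ideal.relNorm (𝓞 F) I) * χ'.χ (Ideal.relNorm (𝓞 F') I)) : ψ.Non := by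
  haveI := h.tow
  haveI := h.tow'
  have hfin : Module.finrank F E = 3 := by
    have h1 := Module.finrank_mul_finrank K F E
    rw [h.d9, h3] at h1
    omega
  have hfin2 : Module.finrank (𝓞 F) (𝓞 E) = 3 := by
    rw [← hfin]
    exact (IsFractionRing.finrank_eq (𝓞 F) F (𝓞 E) E).symm
  by_contra hnon
  have hone : ∀ I : Ideal (𝓞 E), I ≠ ⊥ → IsCoprime I (md 𝔪 E) → ψ.χ I = 1 := by
    intro I hI hc
    by_contra hne
    exact hnon ⟨I, hI, hc, hne⟩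
  obtain ⟨J, hJ, hJc, hJ1⟩ := hn
  refine hJ1 (gm_three h3 χ hχ J hJ hJc fun τ => ?_)
  obtain ⟨σ, hσ1, hσ2⟩ := h.res τ AlgEquiv.refl
  have hσ2' : ∀ z : F', σ (algebraMap F' E z) = algebraMap F' E z := hσ2
  set I : Ideal (𝓞 E) := J.map (algebraMap (𝓞 F) (𝓞 E)) with hI
  have hI0 : I ≠ ⊥ := by
    rw [hI, ne_eq, Ideal.map_eq_bot_iff_of_injective
      (FaithfulSMul.algebraMap_injective (𝓞 F) (𝓞 E))]
    exact hJ
  have hIc : IsCoprime I (md 𝔪 E) := by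
    rw [← md_tower (F := F) 𝔪, Ideal.isCoprime_iff_sup_eq, hI, ← Ideal.map_sup,
      Ideal.isCoprime_iff_sup_eq.1 hJc, Ideal.map_top]
  have hsI0 : gm σ I ≠ ⊥ := by
    rw [ne_eq, gm_bot]
    exact hI0
  have hsIc : IsCoprime (gm σ I) (md 𝔪 E) := by
    rw [← gm_md σ 𝔪, gm_cop]
    exact hIc
  have e1 := hone I hI0 hIc
  have e2 := hone (gm σ I) hsI0 hsIc
  rw [hψ] at e1 e2
  rw [gm_relNorm σ hσ2'] at e2
  have e3 : χ.χ (Ideal.relNorm (𝓞 F) (gm σ I)) = χ.χ (Ideal.relNorm (𝓞 F) I) := by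
    have hne : χ'.χ (Ideal.relNorm (𝓞 F') I) ≠ 0 := by
      intro h0
      rw [h0, mul_zero] at e1
      exact zero_ne_one e1
    exact mul_right_cancel₀ hne (e2.trans e1.symm)
  have e4 : gm σ I = (gm τ J).map (algebraMap (𝓞 F) (𝓞 E)) := by
    rw [gm_coe, gm_coe, hI, Ideal.map_map, Ideal.map_map]
    congr 1
    ext x
    exact hσ1 (x : F)
  have hr1 : Ideal.relNorm (𝓞 F) I = J ^ 3 := by
    rw [hI, Ideal.relNorm_algebraMap, hfin2]
  have hr2 : Ideal.relNorm (𝓞 F) (gm σ I) = (gm τ J) ^ 3 := by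
    rw [e4, Ideal.relNorm_algebraMap, hfin2]
  rw [hr1, hr2, map_pow, map_pow] at e3
  have hc1 := hχ.quad J hJ hJc
  have hgJ0 : gm τ J ≠ ⊥ := by
    rw [ne_eq, gm_bot]
    exact hJ
  have hgJc : IsCoprime (gm τ J) (md 𝔪 F) := by
    rw [← gm_md τ 𝔪, gm_cop]
    exact hJc
  have hc2 := hχ.quad (gm τ J) hgJ0 hgJc
  rcases hc1 with hc1 | hc1 <;> rcases hc2 with hc2 | hc2 <;> rw [hc1, hc2] at e3 ⊢ <;> norm_num at e3

end H1.LS4
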