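import Pool.Agent.H1.LS4.Gdf

/-!
# [H1 LS4 GAL] Isomorphisms acting on ideals (60-100 lines)

`gm σ I = I.map (mapRingEquiv σ)`.
* `gm_mul`: `Ideal.map_mul`. `gm_trans`: `Ideal.map_map` and `mapRingEquiv (σ.trans τ) = ..` (extensionality in `F''`).
* `gm_md`: `md J F` is generated by the images of the elements of `J`, which `σ` maps to their images in `F'` (`σ.commutes`).
* `gm_cop`, `gm_abs` (`Ideal.absNorm` is invariant: `𝓞 F ⧸ I ≃ 𝓞 F' ⧸ gm σ I`, `Ideal.quotientEquiv`, or `Ideal.relNorm_map_algEquiv` over `ℤ`).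
* `gm_prod`: for `K ⊆ F` Galois and `J ≠ ⊥`: `∏_τ gm τ J = (N_{F/K} J) 𝓞_F`. Proof: `relNorm (𝓞 K) J` is generated by the norms of the
elements `x ∈ J` (`Ideal.relNorm_apply` / `spanNorm`), whose image in `𝓞 F` is `∏_τ τ x ∈ ∏_τ gm τ J` (`Algebra.algebraMap_intNorm_of_isGalois`,
`Algebra.norm_eq_prod_automorphisms`). So `md (relNorm J) F ≤ ∏_τ gm τ J`, i.e. `∏_τ gm τ J ∣ md (relNorm J) F`. Both have the absolute norm
`(N J)^[F:K]` (`gm_abs`, `Ideal.absNorm_algebraMap`, `Ideal.absNorm_relNorm`, `IsGalois.card_aut_eq_finrank`), and `I ∣ I'`, `absNorm I = absNorm I' ≠ 0`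
imply `I = I'`.
* `gm_three`: `χ J = (χ J)^3` (`quad`) `= ∏_τ χ(gm τ J) = χ(∏_τ gm τ J) = χ(md (relNorm J) F) = 1` (`triv`; the norm of `J` is prime to
`𝔪`: a prime `p` of `K` dividing `N J` and `𝔪`: some prime `P` over `p` divides `J` (`Ideal.relNorm` of a prime is a power of the prime below) and
`md 𝔪 F`).
-/

set_option autoImplicit false

open scoped NumberField Classical
open NumberField H63.MA H36.QA H57.LI

noncomputable section

namespace H1.LS4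

section gen

variable {K F F' F'' : Type} [Field K] [Field F] [Field F'] [Field F''] [Algebra K F] [Algebra K F'] [Algebra K F'']

private theorem mem_gm (σ : F ≃ₐ[K] F') (I : Ideal (𝓞 F)) (y : 𝓞 F') :
    y ∈ gm σ I ↔
      ∃ x ∈ I, (RingOfIntegers.mapRingEquiv σ.toRingEquiv : 𝓞 F ≃+* 𝓞 F') x = y :=
  Ideal.mem_map_of_equiv _ y

private theorem coe_e (σ : F ≃ₐ[K] F') (x : 𝓞 F) :
    (((RingOfIntegers.mapRingEquiv σ.toRingEquiv : 𝓞 F ≃+* 𝓞 F') x : 𝓞 F') : F') = σ (x : F) := rfl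

theorem gm_mul (σ : F ≃ₐ[K] F') (I J : Ideal (𝓞 F)) : gm σ (I * J) = gm σ I * gm σ J :=
  Ideal.map_mul _ I J

theorem gm_trans (σ : F ≃ₐ[K] F') (τ : F' ≃ₐ[K] F'') (I : Ideal (𝓞 F)) : gm τ (gm σ I) = gm (σ.trans τ) I := by
  ext y
  rw [mem_gm, mem_gm]
  constructor
  · rintro ⟨z, hz, rfl⟩
    rw [mem_gm] at hz
    obtain ⟨x, hx, rfl⟩ := hz
    exact ⟨x, hx, rfl⟩
  · rintro ⟨x, hx, rfl⟩
    exact ⟨_, (mem_gm σ I _).2 ⟨x, hx, rfl⟩, rfl⟩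

theorem gm_refl (I : Ideal (𝓞 F)) : gm (AlgEquiv.refl : F ≃ₐ[K] F) I = I := by
  ext y
  rw [mem_gm]
  constructor
  · rintro ⟨x, hx, rfl⟩
    exact hx
  · intro hy
    exact ⟨y, hy, rfl⟩

private theorem gm_symm (σ : F ≃ₐ[K] F') (I : Ideal (𝓞 F)) : gm σ.symm (gm σ I) = I := by
  rw [gm_trans, AlgEquiv.self_trans_symm, gm_refl]

theorem gm_top (σ : F ≃ₐ[K] F') : gm σ ⊤ = ⊤ := Ideal.map_top _

private theorem gm_inj (σ : F ≃ₐ[K] F') {I J : Ideal (𝓞 F)} (h : gm σ I = gm σ J) : I = J := by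
  rw [← gm_symm σ I, h, gm_symm]

theorem gm_bot (σ : F ≃ₐ[K] F') (I : Ideal (𝓞 F)) : gm σ I = ⊥ ↔ I = ⊥ := by
  have h0 : gm σ ⊥ = ⊥ := Ideal.map_bot
  constructor
  · intro h
    exact gm_inj σ (h.trans h0.symm)
  · rintro rfl
    exact h0

theorem gm_md (σ : F ≃ₐ[K] F') (J : Ideal (𝓞 K)) : gm σ (md J F) = md J F' := by
  have e : ((RingOfIntegers.mapRingEquiv σ.toRingEquiv : 𝓞 F ≃+* 𝓞 F') : 𝓞 F →+* 𝓞 F').comp
      (algebraMap (𝓞 K) (𝓞 F)) = algebraMap (𝓞 K) (𝓞 F') := by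
    ext x
    exact σ.commutes (x : K)
  unfold md
  rw [← e, ← Ideal.map_map]
  rfl

theorem gm_cop (σ : F ≃ₐ[K] F') (I J : Ideal (𝓞 F)) : IsCoprime (gm σ I) (gm σ J) ↔ IsCoprime I J := by
  rw [Ideal.isCoprime_iff_sup_eq, Ideal.isCoprime_iff_sup_eq]
  have e : gm σ I ⊔ gm σ J = gm σ (I ⊔ J) := (Ideal.map_sup _ I J).symm
  rw [e]
  constructor
  · intro h
    exact gm_inj σ (h.trans (gm_top σ).symm)
  · intro h
    rw [h, gm_top]

theorem gm_mem (σ : F ≃ₐ[K] F') (I : Ideal (𝓞 F)) (x : 𝓞 F) :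
    (RingOfIntegers.mapRingEquiv σ.toRingEquiv : 𝓞 F ≃+* 𝓞 F') x ∈ gm σ I ↔ x ∈ I := by
  rw [mem_gm]
  constructor
  · rintro ⟨z, hz, h⟩
    rwa [← RingEquiv.injective _ h]
  · intro h
    exact ⟨x, h, rfl⟩

private theorem gm_prime1 (σ : F ≃ₐ[K] F') (I : Ideal (𝓞 F)) (h : I.IsPrime) :
    (gm σ I).IsPrime :=
  Ideal.map_isPrime_of_equiv _

theorem gm_prime (σ : F ≃ₐ[K] F') (I : Ideal (𝓞 F)) : (gm σ I).IsPrime ↔ I.IsPrime := by
  constructor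
  · intro h
    rw [← gm_symm σ I]
    exact gm_prime1 σ.symm _ h
  · exact gm_prime1 σ I

end gen

variable {K F F' : Type} [Field K] [NumberField K] [Field F] [NumberField F] [Algebra K F] [Field F'] [NumberField F']
  [Algebra K F']

theorem gm_abs (σ : F ≃ₐ[K] F') (I : Ideal (𝓞 F)) : Ideal.absNorm (gm σ I) = Ideal.absNorm I := by
  rw [Ideal.absNorm_apply, Ideal.absNorm_apply, Submodule.cardQuot_apply,
    Submodule.cardQuot_apply]
  exact (Nat.card_congr (Ideal.quotientEquiv I (gm σ I)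
    (RingOfIntegers.mapRingEquiv σ.toRingEquiv : 𝓞 F ≃+* 𝓞 F') rfl).toEquiv).symm

private theorem alg_norm [IsGalois K F] (x : 𝓞 F) :
    algebraMap (𝓞 K) (𝓞 F) (Algebra.intNorm (𝓞 K) (𝓞 F) x)
      = ∏ τ : F ≃ₐ[K] F, (RingOfIntegers.mapRingEquiv τ.toRingEquiv : 𝓞 F ≃+* 𝓞 F) x := by
  apply RingOfIntegers.coe_injective
  have h1 : ((algebraMap (𝓞 K) (𝓞 F) (Algebra.intNorm (𝓞 K) (𝓞 F) x) : 𝓞 F) : F)
      = algebraMap K F (algebraMap (𝓞 K) K (Algebra.intNorm (𝓞 K) (𝓞 F) x)) := rfl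
  refine h1.trans ?_
  rw [Algebra.algebraMap_intNorm (A := 𝓞 K) (K := K) (L := F) (B := 𝓞 F),
    Algebra.norm_eq_prod_automorphisms, map_prod]
  rfl

private theorem eq_of_dvd {I I' : Ideal (𝓞 F)} (h : I ∣ I')
    (h1 : Ideal.absNorm I = Ideal.absNorm I') (h0 : Ideal.absNorm I ≠ 0) : I = I' := by
  obtain ⟨C, rfl⟩ := h
  rw [map_mul] at h1
  have h2 : Ideal.absNorm C = 1 := by
    have h3 : Ideal.absNorm I * 1 = Ideal.absNorm I * Ideal.absNorm C := by rw [mul_one]; exact h1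
    exact (Nat.eq_of_mul_eq_mul_left (Nat.pos_of_ne_zero h0) h3).symm
  rw [Ideal.absNorm_eq_one_iff.1 h2, ← Ideal.one_eq_top, mul_one]

theorem gm_prod [IsGalois K F] (J : Ideal (𝓞 F)) (hJ : J ≠ ⊥) :
    ∏ τ : F ≃ₐ[K] F, gm τ J = md (Ideal.relNorm (𝓞 K) J) F := by
  have hN : Ideal.absNorm (∏ τ : F ≃ₐ[K] F, gm τ J)
      = Ideal.absNorm J ^ Module.finrank K F := by
    rw [map_prod]
    simp_rw [gm_abs]
    rw [Finset.prod_const, Finset.card_univ, ← Nat.card_eq_fintype_card,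
      IsGalois.card_aut_eq_finrank]
  apply eq_of_dvd
  · rw [Ideal.dvd_iff_le]
    unfold md
    rw [Ideal.map_relNorm, Ideal.span_le]
    rintro _ ⟨x, hx, rfl⟩
    rw [Function.comp_apply, alg_norm, SetLike.mem_coe]
    exact Ideal.prod_mem_prod fun τ _ => (gm_mem τ J x).2 hx
  · rw [hN]
    unfold md
    rw [Ideal.absNorm_algebraMap, Ideal.absNorm_relNorm,
      IsFractionRing.finrank_eq (𝓞 K) K (𝓞 F) F]
  · rw [hN]
    exact pow_ne_zero _ (fun h => hJ (Ideal.absNorm_eq_zero_iff.1 h))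

private theorem cop_norm [IsGalois K F] {𝔪 : Ideal (𝓞 K)} (J : Ideal (𝓞 F))
    (hc : IsCoprime J (md 𝔪 F)) : IsCoprime (Ideal.relNorm (𝓞 K) J) 𝔪 := by
  rw [Ideal.isCoprime_iff_sup_eq]
  by_contra hne
  obtain ⟨p, hp, hle⟩ := Ideal.exists_le_maximal _ hne
  obtain ⟨P, hP, hPp⟩ := Ideal.exists_maximal_ideal_liesOver_of_isIntegral p (S := 𝓞 F)
  obtain ⟨x, hx, y, hy, hxy⟩ := Ideal.isCoprime_iff_exists.1 hc
  have h1 : ∀ z ∈ p, algebraMap (𝓞 K) (𝓞 F) z ∈ P := by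
    intro z hz
    have := hPp.over
    rw [this] at hz
    exact hz
  have hm : md 𝔪 F ≤ P := by
    unfold md
    rw [Ideal.map_le_iff_le_comap]
    intro z hz
    exact h1 z (hle (Ideal.mem_sup_right hz))
  have h2 : algebraMap (𝓞 K) (𝓞 F) (Algebra.intNorm (𝓞 K) (𝓞 F) x) ∈ P := by
    refine h1 _ (hle (Ideal.mem_sup_left ?_))
    rw [Ideal.relNorm_apply]
    exact Ideal.subset_span ⟨x, hx, rfl⟩
  rw [alg_norm, ← Ideal.Quotient.eq_zero_iff_mem, map_prod] at h2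
  have h3 : ∀ τ : F ≃ₐ[K] F, Ideal.Quotient.mk P
      ((RingOfIntegers.mapRingEquiv τ.toRingEquiv : 𝓞 F ≃+* 𝓞 F) x) = 1 := by
    intro τ
    have h4 : (RingOfIntegers.mapRingEquiv τ.toRingEquiv : 𝓞 F ≃+* 𝓞 F) y ∈ P := by
      apply hm
      rw [← gm_md τ 𝔪, gm_mem]
      exact hy
    have h5 : (RingOfIntegers.mapRingEquiv τ.toRingEquiv : 𝓞 F ≃+* 𝓞 F) x
        = 1 - (RingOfIntegers.mapRingEquiv τ.toRingEquiv : 𝓞 F ≃+* 𝓞 F) y := by
      rw [eq_sub_iff_add_eq, ← map_add, hxy, map_one]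
    rw [h5, map_sub, Ideal.Quotient.eq_zero_iff_mem.2 h4, sub_zero, map_one]
  rw [Finset.prod_congr rfl (fun τ _ => h3 τ), Finset.prod_const_one] at h2
  have : Nontrivial (𝓞 F ⧸ P) := Ideal.Quotient.nontrivial_iff.2 hP.ne_top
  exact one_ne_zero h2

theorem gm_three [IsGalois K F] (h3 : Module.finrank K F = 3) {𝔪 : Ideal (𝓞 K)} (χ : RC F (md 𝔪 F)) (hχ : QT 𝔪 χ)
    (J : Ideal (𝓞 F)) (hJ : J ≠ ⊥) (hc : IsCoprime J (md 𝔪 F)) (h : ∀ τ : F ≃ₐ[K] F, χ.χ (gm τ J) = χ.χ J) :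
    χ.χ J = 1 := by
  have h1 : χ.χ (∏ τ : F ≃ₐ[K] F, gm τ J) = χ.χ J ^ 3 := by
    rw [map_prod, Finset.prod_congr rfl (fun τ _ => h τ), Finset.prod_const, Finset.card_univ,
      ← Nat.card_eq_fintype_card, IsGalois.card_aut_eq_finrank, h3]
  rw [gm_prod J hJ, hχ.triv _ (fun h0 => hJ (Ideal.relNorm_eq_bot_iff.1 h0))
    (cop_norm J hc)] at h1
  rcases hχ.quad J hJ hc with h2 | h2
  · exact h2
  · rw [h2] at h1
    norm_num at h1

end H1.LS4
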