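import Pool.Agent.H57.TLS.Har
import Pool.Agent.H92.DivBound

/-!
# [H1 LS4 DVB] The number of ideals of norm `m`, uniformly in the field of degree `n` (60-100 lines)

`dvb`: choose an index `i v : Fin n` for every prime `v` such that the primes over the same rational prime have different indices
(read H57/TLS/Har.lean, `har_index` and the map `φ`, private: copy what is needed). `I ↦ φ I : Fin n → ℕ`, `φ I j = ∏_{v, i v = j} (nm v)^(mult_v I)`
is injective and `∏ j, φ I j = N I`. So the ideals of norm `m` inject into the functions `Fin n → divisors of m`: at most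
`(m.divisors.card)^n ≤ (C m^(ε/n))^n` (`H92`, `divisor_bound`, see Pool/Agent/H92/DivBound.lean).
`dvs`: for `M ≥ 1`, `0 ≤ H ≤ M` the number of nonzero ideals with `M < N I ≤ M + H` is at most
`∑_{M < m ≤ M + H} C m^ε ≤ (H + 1) C (2 M)^ε` (the integers in `(M, M + H]` are at most `H + 1`).
-/

set_option autoImplicit false

open scoped NumberField Classical
open NumberField H63.MA H36.QA H57.TLS

noncomputable section

namespace H1.LS4

section copy

variable {F : Type} [Field F] [NumberField F]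

private theorem dvh_pow (v : Pl F) :
    (nm v).minFac.Prime ∧ ∃ f : ℕ, 1 ≤ f ∧ nm v = (nm v).minFac ^ f := by
  have hmax : v.asIdeal.IsMaximal := v.isMaximal
  obtain ⟨p, n, hn, -, hp, h⟩ := Ideal.exists_prime_and_absNorm_eq_pow v.asIdeal
  have h1 : nm v = p ^ n := h
  have h2 : (nm v).minFac = p := by
    rw [h1]
    exact hp.pow_minFac (Nat.pos_iff_ne_zero.1 hn)
  rw [h2]
  exact ⟨hp, n, hn, h1⟩

private theorem dvh_mem (v : Pl F) : (((nm v).minFac : ℕ) : 𝓞 F) ∈ v.asIdeal := by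
  obtain ⟨-, f, -, hf⟩ := dvh_pow v
  have h1 : ((nm v : ℕ) : 𝓞 F) ∈ v.asIdeal := Ideal.absNorm_mem v.asIdeal
  have hp := v.isPrime
  apply hp.mem_of_pow_mem f
  rw [← Nat.cast_pow, ← hf]
  exact h1

private theorem dvh_pos (v : Pl F) : 0 < nm v := by
  obtain ⟨h1, f, -, hf⟩ := dvh_pow v
  rw [hf]
  exact pow_pos h1.pos f

private theorem dvh_fibre (ℓ : ℕ) (s : Finset (Pl F)) (hs : ∀ v ∈ s, (nm v).minFac = ℓ) :
    s.card ≤ Module.finrank ℚ F := by
  classical
  rcases s.eq_empty_or_nonempty with rfl | ⟨v0, hv0⟩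
  · simp
  have hℓ : ℓ.Prime := by
    rw [← hs v0 hv0]
    exact (dvh_pow v0).1
  have h1 : ∏ v ∈ s, v.asIdeal ∣ Ideal.span {((ℓ : ℕ) : 𝓞 F)} := by
    have h2 : ∏ I ∈ s.image (fun v => v.asIdeal), I ∣ Ideal.span {((ℓ : ℕ) : 𝓞 F)} := by
      apply Finset.prod_primes_dvd
      · intro I hI
        obtain ⟨v, -, rfl⟩ := Finset.mem_image.1 hI
        exact v.prime
      · intro I hI
        obtain ⟨v, hv, rfl⟩ := Finset.mem_image.1 hI
        rw [Ideal.dvd_span_singleton, ← hs v hv]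
        exact dvh_mem v
    rwa [Finset.prod_image] at h2
    intro v _ v' _ h
    exact IsDedekindDomain.HeightOneSpectrum.ext h
  have h3 : Ideal.absNorm (∏ v ∈ s, v.asIdeal) ∣ ℓ ^ Module.finrank ℤ (𝓞 F) := by
    rw [← Ideal.absNorm_span_natCast]
    exact map_dvd Ideal.absNorm h1
  rw [map_prod, RingOfIntegers.rank] at h3
  have h4 : ℓ ^ s.card ≤ ∏ v ∈ s, Ideal.absNorm v.asIdeal := by
    rw [← Finset.prod_const]
    apply Finset.prod_le_prod'
    intro v hv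
    rw [← hs v hv]
    exact Nat.minFac_le (dvh_pos v)
  have h5 := h4.trans (Nat.le_of_dvd (pow_pos hℓ.pos _) h3)
  exact (Nat.pow_le_pow_iff_right hℓ.one_lt).1 h5

private theorem dvh_index (n : ℕ) (hn : 0 < n) (h : Module.finrank ℚ F = n) :
    ∃ i : Pl F → Fin n, ∀ v w, (nm v).minFac = (nm w).minFac → i v = i w → v = w := by
  classical
  have h1 : ∀ ℓ : ℕ, ∃ g : Pl F → Fin n, Set.InjOn g {v | (nm v).minFac = ℓ} := by
    intro ℓ
    have hfin : {v : Pl F | (nm v).minFac = ℓ}.Finite := by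
      by_contra hinf
      obtain ⟨t, ht, hc⟩ := (show {v : Pl F | (nm v).minFac = ℓ}.Infinite from
        hinf).exists_subset_card_eq (n + 1)
      have := dvh_fibre ℓ t (fun v hv => ht hv)
      omega
    have hc : hfin.toFinset.card ≤ n := by
      rw [← h]
      exact dvh_fibre ℓ _ (fun v hv => (Set.Finite.mem_toFinset hfin).1 hv)
    obtain ⟨e⟩ : Nonempty (hfin.toFinset ↪ Fin n) := by
      apply Function.Embedding.nonempty_of_card_le
      rw [Fintype.card_coe, Fintype.card_fin]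
      exact hc
    refine ⟨fun v => if hv : v ∈ hfin.toFinset then e ⟨v, hv⟩ else ⟨0, hn⟩, ?_⟩
    intro v hv w hw hvw
    have hv' : v ∈ hfin.toFinset := (Set.Finite.mem_toFinset hfin).2 hv
    have hw' : w ∈ hfin.toFinset := (Set.Finite.mem_toFinset hfin).2 hw
    simp only [dif_pos hv', dif_pos hw'] at hvw
    exact congrArg Subtype.val (e.injective hvw)
  choose g hg using h1
  refine ⟨fun v => g (nm v).minFac v, fun v w hvw hi => ?_⟩
  have hi' : g (nm v).minFac v = g (nm w).minFac w := hi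
  rw [← hvw] at hi'
  exact hg _ rfl hvw.symm hi'

open Classical in
/-- the part of the norm of `I` at the primes in `P` of index `j` -/
private def dvh_phi {n : ℕ} (i : Pl F → Fin n) (P : Finset (Pl F)) (I : Ideal (𝓞 F)) (j : Fin n) :
    ℕ := ∏ v ∈ P.filter (fun v => i v = j), nm v ^ rcm v I

private theorem dvh_fac (P : Finset (Pl F)) {I : Ideal (𝓞 F)} (hI : I ≠ ⊥)
    (hP : ∀ v, rcm v I ≠ 0 → v ∈ P) : ∏ v ∈ P, v.asIdeal ^ rcm v I = I := by
  classical
  have h := Ideal.finprod_heightOneSpectrum_factorization (I := I) hI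
  have h2 : ∀ v : Pl F, v.maxPowDividing I = v.asIdeal ^ rcm v I := fun v => rfl
  simp only [h2] at h
  rw [finprod_eq_prod_of_mulSupport_subset (s := P)] at h
  · exact h
  · intro v hv
    refine hP v fun h0 => hv ?_
    show v.asIdeal ^ rcm v I = 1
    rw [h0, pow_zero]

private theorem dvh_prod {n : ℕ} (i : Pl F → Fin n) (P : Finset (Pl F)) {I : Ideal (𝓞 F)}
    (hI : I ≠ ⊥) (hP : ∀ v, rcm v I ≠ 0 → v ∈ P) : ∏ j, dvh_phi i P I j = Ideal.absNorm I := by
  classical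
  unfold dvh_phi
  have h := congrArg Ideal.absNorm (dvh_fac P hI hP)
  rw [map_prod] at h
  rw [← h]
  rw [← Finset.prod_fiberwise P i]
  refine Finset.prod_congr rfl fun j _ => Finset.prod_congr ?_ fun v _ => ?_
  · ext v
    simp
  · rw [map_pow]
    rfl

private theorem dvh_pos' {n : ℕ} (i : Pl F → Fin n) (P : Finset (Pl F)) (I : Ideal (𝓞 F))
    (j : Fin n) : 0 < dvh_phi i P I j :=
  Finset.prod_pos fun v _ => pow_pos (dvh_pos v) _

private theorem dvh_val {n : ℕ} (i : Pl F → Fin n) (hi : ∀ v w, (nm v).minFac = (nm w).minFac →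
    i v = i w → v = w) (P : Finset (Pl F)) (I : Ideal (𝓞 F)) (v : Pl F) (hv : v ∈ P) :
    (dvh_phi i P I (i v)).factorization (nm v).minFac =
      rcm v I * (nm v).factorization (nm v).minFac := by
  classical
  unfold dvh_phi
  rw [Nat.factorization_prod (fun w _ => (pow_pos (dvh_pos w) _).ne'), Finsupp.finset_sum_apply,
    Finset.sum_eq_single v]
  · rw [Nat.factorization_pow]
    rfl
  · intro w hw hne
    have hw' := (Finset.mem_filter.1 hw).2
    rw [Nat.factorization_pow]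
    have h0 : (nm w).factorization (nm v).minFac = 0 := by
      obtain ⟨h1, f, -, hf⟩ := dvh_pow w
      rw [hf, Nat.factorization_pow, h1.factorization]
      have h2 : (nm w).minFac ≠ (nm v).minFac := fun h => hne (hi w v h hw')
      simp [h2]
    show rcm w I * (nm w).factorization (nm v).minFac = 0
    rw [h0, mul_zero]
  · intro h
    exact (h (Finset.mem_filter.2 ⟨hv, rfl⟩)).elim

private theorem dvh_inj {n : ℕ} (i : Pl F → Fin n) (hi : ∀ v w, (nm v).minFac = (nm w).minFac →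
    i v = i w → v = w) (P : Finset (Pl F)) {I J : Ideal (𝓞 F)} (hI : I ≠ ⊥) (hJ : J ≠ ⊥)
    (hPI : ∀ v, rcm v I ≠ 0 → v ∈ P) (hPJ : ∀ v, rcm v J ≠ 0 → v ∈ P)
    (h : dvh_phi i P I = dvh_phi i P J) : I = J := by
  rw [← dvh_fac P hI hPI, ← dvh_fac P hJ hPJ]
  refine Finset.prod_congr rfl fun v hv => ?_
  have h1 := dvh_val i hi P I v hv
  have h2 := dvh_val i hi P J v hv
  rw [h, h2] at h1
  obtain ⟨h3, f, hf1, hf⟩ := dvh_pow v
  have h4 : (nm v).factorization (nm v).minFac ≠ 0 := by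
    have h5 : ((nm v).minFac ^ f).factorization (nm v).minFac = f := by
      rw [h3.factorization_pow]
      simp
    rw [← hf] at h5
    omega
  rw [mul_right_cancel₀ h4 h1]

end copy

theorem dvb (n : ℕ) (hn : 0 < n) (ε : ℝ) (hε : 0 < ε) : ∃ C : ℝ, 1 ≤ C ∧ ∀ (F : Type) [Field F] [NumberField F],
    Module.finrank ℚ F = n → ∀ (m : ℕ), 1 ≤ m → ∀ T : Finset (Ideal (𝓞 F)), (∀ I ∈ T, Ideal.absNorm I = m) →
      (T.card : ℝ) ≤ C * (m : ℝ) ^ ε := by
  obtain ⟨C₀, hC₀, h0⟩ := Pool.Agent.H5.W.divisor_bound (ε / n) (by positivity)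
  refine ⟨(C₀ + 1) ^ n, one_le_pow₀ (by linarith), ?_⟩
  intro F _ _ hF m hm T hT
  obtain ⟨i, hi⟩ := dvh_index (F := F) n hn hF
  have hTb : ∀ I ∈ T, I ≠ ⊥ := by
    rintro I hI rfl
    have := hT _ hI
    rw [Ideal.absNorm_bot] at this
    omega
  let P : Finset (Pl F) := T.biUnion fun I =>
    if h : I ≠ ⊥ then (rcm_finite h).toFinset else ∅
  have hTP : ∀ I ∈ T, ∀ v, rcm v I ≠ 0 → v ∈ P := by
    intro I hI v hv
    refine Finset.mem_biUnion.2 ⟨I, hI, ?_⟩
    rw [dif_pos (hTb I hI)]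
    exact (Set.Finite.mem_toFinset _).2 hv
  have hinj : Set.InjOn (dvh_phi i P) (T : Set (Ideal (𝓞 F))) := by
    intro I hI J hJ h
    exact dvh_inj i hi P (hTb I hI) (hTb J hJ) (hTP I hI) (hTP J hJ) h
  have hsub : T.image (dvh_phi i P) ⊆ Fintype.piFinset (fun _ : Fin n => m.divisors) := by
    intro f hf
    obtain ⟨I, hI, rfl⟩ := Finset.mem_image.1 hf
    rw [Fintype.mem_piFinset]
    intro j
    rw [Nat.mem_divisors]
    refine ⟨?_, by omega⟩
    have h2 := dvh_prod i P (hTb I hI) (hTP I hI)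
    have h3 : dvh_phi i P I j ∣ ∏ j, dvh_phi i P I j := Finset.dvd_prod_of_mem _ (Finset.mem_univ j)
    rwa [h2, hT I hI] at h3
  have h1 : T.card ≤ m.divisors.card ^ n := by
    have h2 := Finset.card_le_card hsub
    rw [Finset.card_image_of_injOn hinj, Fintype.card_piFinset, Finset.prod_const, Finset.card_univ,
      Fintype.card_fin] at h2
    exact h2
  have hm0 : (0 : ℝ) < m := by exact_mod_cast hm
  have hp : 0 ≤ (m : ℝ) ^ (ε / n) := Real.rpow_nonneg hm0.le _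
  calc (T.card : ℝ) ≤ ((m.divisors.card ^ n : ℕ) : ℝ) := by exact_mod_cast h1
    _ = (m.divisors.card : ℝ) ^ n := by push_cast; ring
    _ ≤ (C₀ * (m : ℝ) ^ (ε / n)) ^ n := pow_le_pow_left₀ (Nat.cast_nonneg _) (h0 m hm) n
    _ ≤ ((C₀ + 1) * (m : ℝ) ^ (ε / n)) ^ n :=
        pow_le_pow_left₀ (by positivity) (mul_le_mul_of_nonneg_right (by linarith) hp) n
    _ = (C₀ + 1) ^ n * (m : ℝ) ^ ε := by
        rw [mul_pow, ← Real.rpow_mul_natCast hm0.le]
        congr 2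
        field_simp

theorem dvs (n : ℕ) (hn : 0 < n) (ε : ℝ) (hε : 0 < ε) : ∃ C : ℝ, 1 ≤ C ∧ ∀ (F : Type) [Field F] [NumberField F],
    Module.finrank ℚ F = n → ∀ M H : ℝ, 1 ≤ M → 0 ≤ H → H ≤ M → ∀ T : Finset (Ideal (𝓞 F)),
      (∀ I ∈ T, I ≠ ⊥ ∧ M < (Ideal.absNorm I : ℝ) ∧ (Ideal.absNorm I : ℝ) ≤ M + H) →
      (T.card : ℝ) ≤ C * (H + 1) * M ^ ε := by
  obtain ⟨C, hC, h⟩ := dvb n hn ε hε
  have h2 : (1 : ℝ) ≤ (2 : ℝ) ^ ε := Real.one_le_rpow (by norm_num) hε.le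
  refine ⟨C * 2 ^ ε, by nlinarith, ?_⟩
  intro F _ _ hF M H hM hH hHM T hT
  have hmap : ∀ I ∈ T, Ideal.absNorm I ∈ Finset.Ioc ⌊M⌋₊ ⌊M + H⌋₊ := by
    intro I hI
    obtain ⟨-, h3, h4⟩ := hT I hI
    rw [Finset.mem_Ioc]
    exact ⟨(Nat.floor_lt (by linarith)).2 h3, Nat.le_floor h4⟩
  rw [Finset.card_eq_sum_card_fiberwise (f := fun I => Ideal.absNorm I)
    (t := Finset.Ioc ⌊M⌋₊ ⌊M + H⌋₊) hmap]
  push_cast
  have h5 : ∀ m ∈ Finset.Ioc ⌊M⌋₊ ⌊M + H⌋₊,
      ((T.filter fun I => Ideal.absNorm I = m).card : ℝ) ≤ C * 2 ^ ε * M ^ ε := by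
    intro m hm
    rw [Finset.mem_Ioc] at hm
    have hm1 : 1 ≤ m := by omega
    have hm2 : (m : ℝ) ≤ 2 * M := by
      have h6 : (m : ℝ) ≤ (⌊M + H⌋₊ : ℕ) := by exact_mod_cast hm.2
      have h7 : ((⌊M + H⌋₊ : ℕ) : ℝ) ≤ M + H := Nat.floor_le (by linarith)
      linarith
    have h8 := h F hF m hm1 (T.filter fun I => Ideal.absNorm I = m) fun I hI => (Finset.mem_filter.1 hI).2
    refine h8.trans ?_
    rw [mul_assoc, ← Real.mul_rpow (by norm_num) (by linarith)]
    exact mul_le_mul_of_nonneg_left (Real.rpow_le_rpow (Nat.cast_nonneg _) hm2 hε.le) (by linarith)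
  refine (Finset.sum_le_sum h5).trans ?_
  rw [Finset.sum_const, nsmul_eq_mul, Nat.card_Ioc]
  have h6 : ((⌊M + H⌋₊ - ⌊M⌋₊ : ℕ) : ℝ) ≤ H + 1 := by
    have h7 : ((⌊M + H⌋₊ : ℕ) : ℝ) ≤ M + H := Nat.floor_le (by linarith)
    have h8 : M < (⌊M⌋₊ : ℕ) + 1 := Nat.lt_floor_add_one M
    have h9 : ⌊M⌋₊ ≤ ⌊M + H⌋₊ := Nat.floor_le_floor (by linarith)
    rw [Nat.cast_sub h9]
    linarith
  have h7 : 0 ≤ C * 2 ^ ε * M ^ ε := by
    have := Real.rpow_nonneg (show (0 : ℝ) ≤ M by linarith) ε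
    positivity
  calc ((⌊M + H⌋₊ - ⌊M⌋₊ : ℕ) : ℝ) * (C * 2 ^ ε * M ^ ε) ≤ (H + 1) * (C * 2 ^ ε * M ^ ε) :=
        mul_le_mul_of_nonneg_right h6 h7
    _ = C * 2 ^ ε * (H + 1) * M ^ ε := by ring

end H1.LS4
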