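import Pool.Agent.H36.QA.CR

/-!
# [H1 LS4 CRB] Counting the points of a shifted lattice, with a general covering set (complete)

`cr_lower`, `cr_upper` of H36/QA with a set `B` in place of the ball of radius `R`.
-/

set_option autoImplicit false

open MeasureTheory

namespace H1.LS4

open H36.QA

theorem crb_lower {V : Type} [NormedAddCommGroup V] [MeasurableSpace V] [BorelSpace V]
    (μ : Measure V) [μ.IsAddLeftInvariant] (L : AddSubgroup V) [Countable L] (D : Set V)
    (hD : IsAddFundamentalDomain L D μ) (B : Set V)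
    (hR : ∀ x : V, ∃ l ∈ L, x - l ∈ B) (v : V) (S S' : Set V) (hS' : MeasurableSet S')
    (h : ∀ x ∈ S', ∀ y ∈ B, x - y ∈ S) (hfin : {x : V | x - v ∈ L ∧ x ∈ S}.Finite) :
    μ S' ≤ ({x : V | x - v ∈ L ∧ x ∈ S}.ncard : ENNReal) * μ D := by
  classical
  set N := {x : V | x - v ∈ L ∧ x ∈ S}.ncard with hN
  rw [cr_unfold μ L D hD S' hS']
  have key : ∀ y : V, (∑' l : L, S'.indicator (fun _ => (1 : ENNReal)) ((l : V) + y)) ≤ N := by
    intro y
    obtain ⟨ly, hly, hn⟩ := hR (y - v)
    rw [ENNReal.tsum_eq_iSup_sum]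
    apply iSup_le
    intro s
    have h1 : ∑ l ∈ s, S'.indicator (fun _ => (1 : ENNReal)) ((l : V) + y) =
        ((s.filter (fun l : L => (l : V) + y ∈ S')).card : ENNReal) := by
      rw [Finset.card_filter]
      push_cast
      apply Finset.sum_congr rfl
      intro l _
      by_cases hl : (l : V) + y ∈ S'
      · rw [Set.indicator_of_mem hl, if_pos hl]
      · rw [Set.indicator_of_notMem hl, if_neg hl]
    rw [h1]
    have h2 : (s.filter (fun l : L => (l : V) + y ∈ S')).card ≤ N := by
      rw [hN, Set.ncard_eq_toFinset_card _ hfin]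
      apply Finset.card_le_card_of_injOn (fun l : L => (l : V) + y - ((y - v) - ly))
      · intro l hl
        rw [Finset.mem_coe, Finset.mem_filter] at hl
        rw [Finset.mem_coe, Set.Finite.mem_toFinset]
        refine ⟨?_, h _ hl.2 _ hn⟩
        have : (l : V) + y - ((y - v) - ly) - v = (l : V) + ly := by abel
        rw [this]
        exact L.add_mem l.2 hly
      · intro l _ l' _ hll
        have hll' : (l : V) + y - ((y - v) - ly) = (l' : V) + y - ((y - v) - ly) := hll
        exact Subtype.ext (add_right_cancel (sub_left_injective hll'))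
    exact_mod_cast h2
  calc ∫⁻ y in D, (∑' l : L, S'.indicator (fun _ => (1 : ENNReal)) ((l : V) + y)) ∂μ
      ≤ ∫⁻ _ in D, (N : ENNReal) ∂μ := lintegral_mono (fun y => key y)
    _ = (N : ENNReal) * μ D := by
        rw [lintegral_const, Measure.restrict_apply_univ]

theorem crb_upper {V : Type} [NormedAddCommGroup V] [MeasurableSpace V] [BorelSpace V]
    (μ : Measure V) [μ.IsAddLeftInvariant] (L : AddSubgroup V) [Countable L] (D : Set V)
    (hD : IsAddFundamentalDomain L D μ) (B : Set V)
    (hR : ∀ x : V, ∃ l ∈ L, x - l ∈ B) (v : V) (S S'' : Set V) (hS'' : MeasurableSet S'')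
    (h : ∀ x ∈ S, ∀ y ∈ B, x + y ∈ S'') (P : Finset V)
    (hP : ∀ x ∈ P, x - v ∈ L ∧ x ∈ S) :
    (P.card : ENNReal) * μ D ≤ μ S'' := by
  classical
  rw [cr_unfold μ L D hD S'' hS'']
  have key : ∀ y : V, (P.card : ENNReal) ≤
      (∑' l : L, S''.indicator (fun _ => (1 : ENNReal)) ((l : V) + y)) := by
    intro y
    obtain ⟨ly, hly, hn⟩ := hR (y - v)
    have hmem : ∀ x ∈ P, x - v - ly ∈ L := fun x hx => L.sub_mem (hP x hx).1 hly
    have h1 : (P.card : ENNReal) =
        ∑ x ∈ P.attach, S''.indicator (fun _ => (1 : ENNReal))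
          (((⟨x.1 - v - ly, hmem x.1 x.2⟩ : L) : V) + y) := by
      have : ∀ x ∈ P.attach, S''.indicator (fun _ => (1 : ENNReal))
          (((⟨x.1 - v - ly, hmem x.1 x.2⟩ : L) : V) + y) = 1 := by
        intro x _
        apply Set.indicator_of_mem
        have : ((⟨x.1 - v - ly, hmem x.1 x.2⟩ : L) : V) + y = x.1 + ((y - v) - ly) := by
          show x.1 - v - ly + y = x.1 + ((y - v) - ly)
          abel
        rw [this]
        exact h _ (hP x.1 x.2).2 _ hn
      rw [Finset.sum_congr rfl this, Finset.sum_const, Finset.card_attach, nsmul_eq_mul, mul_one]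
    rw [h1]
    have hinj : Function.Injective (fun x : {x // x ∈ P} => (⟨x.1 - v - ly, hmem x.1 x.2⟩ : L)) := by
      intro x x' hxx
      have : x.1 - v - ly = x'.1 - v - ly := congrArg Subtype.val hxx
      exact Subtype.ext (sub_left_injective (sub_left_injective this))
    have h2 : ∑ x ∈ P.attach, S''.indicator (fun _ => (1 : ENNReal))
          (((⟨x.1 - v - ly, hmem x.1 x.2⟩ : L) : V) + y) =
        ∑ l ∈ P.attach.image (fun x : {x // x ∈ P} => (⟨x.1 - v - ly, hmem x.1 x.2⟩ : L)),
          S''.indicator (fun _ => (1 : ENNReal)) ((l : V) + y) := by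
      rw [Finset.sum_image (fun a _ b _ hab => hinj hab)]
    rw [h2]
    exact ENNReal.sum_le_tsum _
  calc (P.card : ENNReal) * μ D = ∫⁻ _ in D, (P.card : ENNReal) ∂μ := by
        rw [lintegral_const, Measure.restrict_apply_univ]
    _ ≤ ∫⁻ y in D, (∑' l : L, S''.indicator (fun _ => (1 : ENNReal)) ((l : V) + y)) ∂μ :=
        lintegral_mono (fun y => key y)

end H1.LS4
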