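import Mathlib

/-!
# [H1 LS4 FDF] The `m`-th difference of the truncated power (40-70 lines, only Mathlib)

`fdf x h m := ∑_{j ≤ m} (-1)^(m-j) C(m,j) (max 0 (x + j h))^m` (for `m = 0`: `(max 0 x)^0 = 1` is wrong for `x < 0`, therefore the
truncated power is written as `if 0 ≤ z then z^m else 0`).
* `fdf_eq`: for `x ≥ 0` all terms are `(x + j h)^m` and the sum is `m! h^m`: the `m`-th forward difference of `x ↦ x^m` with step `h`
(Mathlib: `fwdDiff_iter_eq_sum_shift` and the lemma on the `m`-th difference of `x^m` (`fwdDiff_iter_pow_eq_factorial` or similar; search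
`fwdDiff`); step `1` and the variable `x / h` if only the step `1` is in Mathlib, `h = 0` trivial for `m ≥ 1`).
* `fdf_zero`: for `x + m h < 0` all terms vanish (`h ≥ 0`).
* `fdf_le`: for `x < 0`, `0 ≤ h`: `0 ≤ x + j h ≤ m h` or the term vanishes; so `|fdf x h m| ≤ 2^m (m h)^m` (with `0^0 = 1` for `m = 0`;
`∑ C(m,j) = 2^m`).
-/

set_option autoImplicit false

noncomputable section

namespace H1.LS4

/-- the truncated power -/
def tpw (m : ℕ) (z : ℝ) : ℝ := if 0 ≤ z then z ^ m else 0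

/-- the `m`-th difference with step `h` of the truncated power -/
def fdf (x h : ℝ) (m : ℕ) : ℝ :=
  ∑ j ∈ Finset.range (m + 1), (-1 : ℝ) ^ (m - j) * (m.choose j : ℝ) * tpw m (x + j * h)

private theorem unit_step (m : ℕ) (y : ℝ) :
    ∑ j ∈ Finset.range (m + 1), (-1 : ℝ) ^ (m - j) * (m.choose j : ℝ) * (y + j) ^ m = (m.factorial : ℝ) := by
  have h1 := fwdDiff_iter_eq_sum_shift (1 : ℝ) (fun r : ℝ => r ^ m) m y
  have h2 := congrFun (fwdDiff_iter_eq_factorial (R := ℝ) (n := m)) y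
  rw [h2] at h1
  have h3 : ((m.factorial : ℝ → ℝ) y) = (m.factorial : ℝ) := by simp
  rw [h3] at h1
  rw [h1]
  refine Finset.sum_congr rfl fun j _ => ?_
  rw [zsmul_eq_mul, nsmul_eq_mul, mul_one]
  push_cast
  ring

private theorem alt_sum (m : ℕ) :
    ∑ j ∈ Finset.range (m + 1), (-1 : ℝ) ^ (m - j) * (m.choose j : ℝ) = 0 ^ m := by
  have h := add_pow (1 : ℝ) (-1) m
  rw [add_neg_cancel] at h
  rw [h]
  refine Finset.sum_congr rfl fun j _ => ?_
  rw [one_pow, one_mul]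

theorem fdf_eq (m : ℕ) (x h : ℝ) (hx : 0 ≤ x) (hh : 0 ≤ h) : fdf x h m = (m.factorial : ℝ) * h ^ m := by
  have h1 : fdf x h m = ∑ j ∈ Finset.range (m + 1), (-1 : ℝ) ^ (m - j) * (m.choose j : ℝ) * (x + j * h) ^ m := by
    unfold fdf
    refine Finset.sum_congr rfl fun j _ => ?_
    have h2 : 0 ≤ x + j * h := by positivity
    unfold tpw
    rw [if_pos h2]
  rw [h1]
  rcases eq_or_lt_of_le hh with h0 | h0
  · rw [← h0]
    simp only [mul_zero, add_zero]
    rw [← Finset.sum_mul, alt_sum]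
    rcases Nat.eq_zero_or_pos m with hm | hm
    · subst hm
      simp
    · rw [zero_pow hm.ne']
      simp
  · have h2 := unit_step m (x / h)
    rw [← h2, Finset.sum_mul]
    refine Finset.sum_congr rfl fun j _ => ?_
    have h3 : x + j * h = (x / h + j) * h := by
      field_simp
    rw [h3, mul_pow]
    ring

theorem fdf_zero (m : ℕ) (x h : ℝ) (hh : 0 ≤ h) (hx : x + m * h < 0) : fdf x h m = 0 := by
  unfold fdf
  refine Finset.sum_eq_zero fun j hj => ?_
  have h1 : (j : ℝ) ≤ m := by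
    exact_mod_cast Nat.lt_succ_iff.1 (Finset.mem_range.1 hj)
  have h2 : (j : ℝ) * h ≤ m * h := mul_le_mul_of_nonneg_right h1 hh
  have h3 : ¬ 0 ≤ x + j * h := by
    intro h4
    linarith
  unfold tpw
  rw [if_neg h3, mul_zero]

theorem fdf_le (m : ℕ) (x h : ℝ) (hx : x < 0) (hh : 0 ≤ h) : |fdf x h m| ≤ 2 ^ m * (m * h) ^ m := by
  have h0 : 0 ≤ (m : ℝ) * h := by positivity
  have key : ∀ j ∈ Finset.range (m + 1),
      |(-1 : ℝ) ^ (m - j) * (m.choose j : ℝ) * tpw m (x + j * h)| ≤ (m.choose j : ℝ) * ((m : ℝ) * h) ^ m := by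
    intro j hj
    have h1 : (j : ℝ) ≤ m := by
      exact_mod_cast Nat.lt_succ_iff.1 (Finset.mem_range.1 hj)
    have h2 : (j : ℝ) * h ≤ m * h := mul_le_mul_of_nonneg_right h1 hh
    rw [abs_mul, abs_mul, abs_pow, abs_neg, abs_one, one_pow, one_mul, abs_of_nonneg (Nat.cast_nonneg (m.choose j))]
    refine mul_le_mul_of_nonneg_left ?_ (Nat.cast_nonneg _)
    unfold tpw
    by_cases h3 : 0 ≤ x + j * h
    · rw [if_pos h3, abs_of_nonneg (pow_nonneg h3 m)]
      exact pow_le_pow_left₀ h3 (by linarith) m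
    · rw [if_neg h3, abs_zero]
      exact pow_nonneg h0 m
  unfold fdf
  calc |∑ j ∈ Finset.range (m + 1), (-1 : ℝ) ^ (m - j) * (m.choose j : ℝ) * tpw m (x + j * h)|
      ≤ ∑ j ∈ Finset.range (m + 1), |(-1 : ℝ) ^ (m - j) * (m.choose j : ℝ) * tpw m (x + j * h)| :=
        Finset.abs_sum_le_sum_abs _ _
    _ ≤ ∑ j ∈ Finset.range (m + 1), (m.choose j : ℝ) * ((m : ℝ) * h) ^ m := Finset.sum_le_sum key
    _ = (∑ j ∈ Finset.range (m + 1), (m.choose j : ℝ)) * ((m : ℝ) * h) ^ m := by rw [Finset.sum_mul]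
    _ = 2 ^ m * (m * h) ^ m := by
        congr 1
        exact_mod_cast Nat.sum_range_choose m

end H1.LS4
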