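import Pool.Agent.H36.QA.Cov

/-!
# [H1 LS4 CPD] The discriminant of a compositum (80-120 lines)

`E` is generated as a ring by its subfields `F`, `F'` (totally complex of degrees `n`, `n'`). Claim `dd E ≤ C (dd F dd F')^A`.
1. `cov_prim` (H36/QA/Cov): `a ∈ 𝓞 F` with `ℚ(a) = F` and `w a ≤ (2 + 2^n) dd F` for all infinite places; `b ∈ 𝓞 F'` in the same way. So every
complex embedding `φ` of `E` has `‖φ(a)‖ ≤ T := (2 + 2^n) dd F`, `‖φ(b)‖ ≤ T' := (2 + 2^n') dd F'` (`φ` restricted to `F` is an embedding of `F`).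
2. The products `a^i b^j` (`i < n`, `j < n'`) span `E` over `ℚ`: their span is a subring containing `F = ℚ[a]` and `F' = ℚ[b]` (closed
under multiplication because `a^n`, `b^n'` are combinations of lower powers: `F = span of the a^i`, so the span is `F · F'` = all finite sums of products
`f f'`), so it is everything by `hgen`. Choose from this spanning family a basis `c_1, .., c_N` of `E` over `ℚ` (`exists_linearIndependent`-type lemma, or
`Submodule.exists_fun_fin_finrank_span_eq` ..., `Module.Basis.extend`), `N = [E:ℚ] ≤ n n'`; all `c_k` are algebraic integers, `‖φ(c_k)‖ ≤ (T T')^(n+n')`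
(`T, T' ≥ 1`).
3. `Algebra.discr ℚ c = det(φ_j(c_k))^2` (`Algebra.discr_eq_det_embeddingsMatrixReindex_pow_two`), so
`|discr ℚ c| ≤ (N! (T T')^((n+n') N))^2` (`Matrix.det_apply`, triangle inequality; or `Matrix.det_le`).
4. `c = P · (integral basis)` with an integral matrix `P`, so `discr ℚ c = det(P)^2 discr E` (`Algebra.discr_of_matrix_vecMul`, `NumberField.coe_discr`
= `Algebra.discr ℚ (integralBasis E)`), `det P ≠ 0` because `discr ℚ c ≠ 0` (`Algebra.discr_not_zero_of_basis`), so `|discr E| ≤ |discr ℚ c|`.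
5. `(n n')!^2 ((2+2^n)(2+2^n') dd F dd F')^(2 (n+n') n n')`; `N ≤ n n'` and all bases are `≥ 1`.
-/

set_option autoImplicit false

open scoped NumberField Classical
open NumberField H36.QA

noncomputable section

namespace H1.LS4

/-- the products of two spanning families span the compositum -/
private theorem cpd_span {F F' E : Type} [Field F] [NumberField F] [Field F'] [NumberField F']
    [Field E] [NumberField E] [Algebra F E] [Algebra F' E] {n n' : ℕ}
    (hgen : Subring.closure (Set.range (algebraMap F E) ∪ Set.range (algebraMap F' E)) = ⊤)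
    (u : Fin n → F) (hu : Submodule.span ℚ (Set.range u) = ⊤) (u' : Fin n' → F')
    (hu' : Submodule.span ℚ (Set.range u') = ⊤) :
    Submodule.span ℚ (Set.range fun p : Fin n × Fin n' => algebraMap F E (u p.1) * algebraMap F' E (u' p.2)) = ⊤ := by
  obtain ⟨φ, hφ⟩ : ∃ φ : F →ₐ[ℚ] E, ∀ x, φ x = algebraMap F E x := ⟨(algebraMap F E).toRatAlgHom, fun x => rfl⟩
  obtain ⟨φ', hφ'⟩ : ∃ φ' : F' →ₐ[ℚ] E, ∀ x, φ' x = algebraMap F' E x := ⟨(algebraMap F' E).toRatAlgHom, fun x => rfl⟩
  have htop : φ.range ⊔ φ'.range = ⊤ := by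
    rw [eq_top_iff]
    intro x _
    have hx : x ∈ Subring.closure (Set.range (algebraMap F E) ∪ Set.range (algebraMap F' E)) := by
      rw [hgen]
      trivial
    have hle : Subring.closure (Set.range (algebraMap F E) ∪ Set.range (algebraMap F' E)) ≤
        (φ.range ⊔ φ'.range).toSubring := by
      rw [Subring.closure_le]
      rintro _ (⟨y, rfl⟩ | ⟨y, rfl⟩)
      · have h1 : algebraMap F E y ∈ φ.range ⊔ φ'.range :=
          (le_sup_left : φ.range ≤ φ.range ⊔ φ'.range) ⟨y, hφ y⟩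
        exact h1
      · have h1 : algebraMap F' E y ∈ φ.range ⊔ φ'.range :=
          (le_sup_right : φ'.range ≤ φ.range ⊔ φ'.range) ⟨y, hφ' y⟩
        exact h1
    exact hle hx
  have h1 : Subalgebra.toSubmodule φ.range = Submodule.span ℚ (φ '' Set.range u) := by
    have h2 : Subalgebra.toSubmodule φ.range = Submodule.map φ.toLinearMap ⊤ := by
      ext x
      simp
    rw [h2, ← hu, Submodule.map_span]
    rfl
  have h1' : Subalgebra.toSubmodule φ'.range = Submodule.span ℚ (φ' '' Set.range u') := by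
    have h2 : Subalgebra.toSubmodule φ'.range = Submodule.map φ'.toLinearMap ⊤ := by
      ext x
      simp
    rw [h2, ← hu', Submodule.map_span]
    rfl
  have h3 := Subalgebra.mul_toSubmodule φ.range φ'.range
  rw [htop, h1, h1', Submodule.span_mul_span, Algebra.top_toSubmodule] at h3
  rw [eq_top_iff, ← h3, Submodule.span_le]
  rintro _ ⟨_, ⟨_, ⟨i, rfl⟩, rfl⟩, _, ⟨_, ⟨j, rfl⟩, rfl⟩, rfl⟩
  refine Submodule.subset_span ⟨(i, j), ?_⟩
  simp only [hφ, hφ']

/-- the bound of the discriminant by a basis of algebraic integers -/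
private theorem cpd_disc {E : Type} [Field E] [NumberField E] {ι : Type} [Fintype ι] (c : Module.Basis ι ℚ E)
    (hint : ∀ i, IsIntegral ℤ (c i)) {R : ℝ} (hR : ∀ (φ : E →+* ℂ) i, ‖φ (c i)‖ ≤ R) :
    dd E ≤ ((Fintype.card ι).factorial * R ^ Fintype.card ι) ^ 2 := by
  have hcard : Fintype.card ι = Fintype.card (E →ₐ[ℚ] ℂ) := by
    rw [AlgHom.card ℚ E ℂ, Module.finrank_eq_card_basis c]
  obtain ⟨e⟩ : Nonempty (ι ≃ (E →ₐ[ℚ] ℂ)) := ⟨Fintype.equivOfCardEq hcard⟩
  have h1 := Algebra.discr_eq_det_embeddingsMatrixReindex_pow_two ℚ ℂ (b := c) e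
  have h2 : ‖(Algebra.embeddingsMatrixReindex ℚ ℂ c e).det‖ ≤ (Fintype.card ι).factorial * R ^ Fintype.card ι := by
    rw [Matrix.det_apply]
    refine (norm_sum_le _ _).trans ?_
    calc ∑ σ : Equiv.Perm ι, ‖Equiv.Perm.sign σ • ∏ i, Algebra.embeddingsMatrixReindex ℚ ℂ c e (σ i) i‖
        ≤ ∑ _σ : Equiv.Perm ι, R ^ Fintype.card ι := by
          refine Finset.sum_le_sum fun σ _ => ?_
          have h3 : ‖Equiv.Perm.sign σ • ∏ i, Algebra.embeddingsMatrixReindex ℚ ℂ c e (σ i) i‖ =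
              ∏ i, ‖Algebra.embeddingsMatrixReindex ℚ ℂ c e (σ i) i‖ := by
            rw [← norm_prod]
            rcases Int.units_eq_one_or (Equiv.Perm.sign σ) with h | h
            · rw [h, one_smul]
            · rw [h, Units.neg_smul, one_smul, norm_neg]
          rw [h3, Fintype.card, ← Finset.prod_const]
          refine Finset.prod_le_prod (fun _ _ => norm_nonneg _) fun i _ => ?_
          exact hR ((e i : E →ₐ[ℚ] ℂ) : E →+* ℂ) (σ i)
      _ = _ := by
          rw [Finset.sum_const, Finset.card_univ, Fintype.card_perm, nsmul_eq_mul]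
  -- the integral basis
  obtain ⟨f⟩ : Nonempty (Module.Free.ChooseBasisIndex ℤ (𝓞 E) ≃ ι) := by
    refine ⟨Fintype.equivOfCardEq ?_⟩
    rw [← Module.finrank_eq_card_basis (integralBasis E), ← Module.finrank_eq_card_basis c]
  obtain ⟨ib, hib⟩ : ∃ ib : Module.Basis ι ℚ E, ib = (integralBasis E).reindex f := ⟨_, rfl⟩
  have h4 : Algebra.discr ℚ ib = (discr E : ℚ) := by
    rw [coe_discr, hib, Module.Basis.coe_reindex, Algebra.discr_reindex]
  have h5 : Algebra.discr ℚ c = (ib.toMatrix c).det ^ 2 * (discr E : ℚ) := by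
    rw [← h4, ← Algebra.discr_of_matrix_vecMul, Module.Basis.toMatrix_map_vecMul]
  obtain ⟨P, hP⟩ : ∃ P : Matrix ι ι ℤ, ib.toMatrix c = P.map (Int.castRingHom ℚ) := by
    refine ⟨fun i j => (RingOfIntegers.basis E).repr ⟨c j, hint j⟩ (f.symm i), ?_⟩
    ext i j
    rw [Module.Basis.toMatrix_apply, hib, Module.Basis.repr_reindex_apply]
    exact integralBasis_repr_apply E ⟨c j, hint j⟩ (f.symm i)
  have h6 : (ib.toMatrix c).det = (P.det : ℚ) := by
    rw [hP, ← RingHom.mapMatrix_apply, ← RingHom.map_det]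
    rfl
  have h7 : Algebra.discr ℚ c ≠ 0 := Algebra.discr_not_zero_of_basis ℚ c
  have h8 : P.det ≠ 0 := by
    intro h
    rw [h5, h6, h] at h7
    simp at h7
  have h9 : (1 : ℤ) ≤ P.det ^ 2 := by
    have := Int.one_le_abs h8
    nlinarith [sq_abs P.det]
  have h10 : |(discr E : ℝ)| ≤ |((Algebra.discr ℚ c : ℚ) : ℝ)| := by
    rw [h5, h6, Rat.cast_mul, Rat.cast_pow, Rat.cast_intCast, Rat.cast_intCast, abs_mul]
    have h11 : (1 : ℝ) ≤ |(P.det : ℝ) ^ 2| := by
      rw [abs_of_nonneg (sq_nonneg _)]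
      exact_mod_cast h9
    nlinarith [abs_nonneg (discr E : ℝ)]
  have h12 : ‖(algebraMap ℚ ℂ (Algebra.discr ℚ c))‖ = |((Algebra.discr ℚ c : ℚ) : ℝ)| := by
    rw [eq_ratCast, Complex.norm_ratCast]
  unfold dd
  refine h10.trans ?_
  rw [← h12, h1, norm_pow]
  exact pow_le_pow_left₀ (norm_nonneg _) h2 2

theorem cpd (n n' : ℕ) : ∃ C : ℝ, 1 ≤ C ∧ ∃ A : ℕ, ∀ (F F' E : Type) [Field F] [NumberField F] [Field F'] [NumberField F']
    [Field E] [NumberField E] [Algebra F E] [Algebra F' E], TC F n → TC F' n' →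
      Subring.closure (Set.range (algebraMap F E) ∪ Set.range (algebraMap F' E)) = ⊤ →
      dd E ≤ C * (dd F * dd F') ^ A := by
  obtain ⟨q, hq⟩ : ∃ q : ℕ, q = n * n' := ⟨_, rfl⟩
  obtain ⟨k, hk⟩ : ∃ k : ℝ, k = 2 + 2 ^ n := ⟨_, rfl⟩
  obtain ⟨k', hk'⟩ : ∃ k' : ℝ, k' = 2 + 2 ^ n' := ⟨_, rfl⟩
  have hk1 : 1 ≤ k := by
    rw [hk]
    have : (0 : ℝ) < 2 ^ n := by positivity
    linarith
  have hk1' : 1 ≤ k' := by
    rw [hk']
    have : (0 : ℝ) < 2 ^ n' := by positivity
    linarith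
  refine ⟨((q.factorial : ℝ) * (k ^ n * k' ^ n') ^ q) ^ 2, ?_, (n + n') * q * 2, ?_⟩
  · refine one_le_pow₀ (one_le_mul_of_one_le_of_one_le ?_ (one_le_pow₀
      (one_le_mul_of_one_le_of_one_le (one_le_pow₀ hk1) (one_le_pow₀ hk1'))))
    exact_mod_cast Nat.one_le_iff_ne_zero.2 (Nat.factorial_ne_zero q)
  intro F F' E _ _ _ _ _ _ _ _ hF hF' hgen
  obtain ⟨a, ha, haw⟩ := cov_prim n F hF
  obtain ⟨b, hb, hbw⟩ := cov_prim n' F' hF'
  rw [← hk] at haw
  rw [← hk'] at hbw
  have hspan : ∀ (m : ℕ) (L : Type) [Field L] [NumberField L], TC L m → ∀ x : 𝓞 L,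
      IntermediateField.adjoin ℚ {(x : L)} = ⊤ → Submodule.span ℚ (Set.range fun i : Fin m => (x : L) ^ (i : ℕ)) = ⊤ := by
    intro m L _ _ hL x hx
    have hdeg : (minpoly ℚ (x : L)).natDegree = m := by
      rw [(Field.primitive_element_iff_minpoly_natDegree_eq ℚ (x : L)).1 hx, hL.2]
    have hli : LinearIndependent ℚ (fun i : Fin m => (x : L) ^ (i : ℕ)) := by
      have := linearIndependent_pow (K := ℚ) (x : L)
      rw [hdeg] at this
      exact this
    exact hli.span_eq_top_of_card_eq_finrank' (by rw [Fintype.card_fin, hL.2])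
  obtain ⟨w, hw⟩ : ∃ w : Fin n × Fin n' → E, w = fun p => algebraMap F E ((a : F) ^ (p.1 : ℕ)) *
      algebraMap F' E ((b : F') ^ (p.2 : ℕ)) := ⟨_, rfl⟩
  have hwspan : Submodule.span ℚ (Set.range w) = ⊤ := by
    rw [hw]
    exact cpd_span hgen (fun i : Fin n => (a : F) ^ (i : ℕ)) (hspan n F hF a ha)
      (fun i : Fin n' => (b : F') ^ (i : ℕ)) (hspan n' F' hF' b hb)
  obtain ⟨s, hs1, hs2, hs3⟩ := exists_linearIndependent ℚ (Set.range w)
  have hsfin : s.Finite := (Set.finite_range w).subset hs1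
  have hft : Fintype s := hsfin.fintype
  choose p hp using fun x : s => hs1 x.2
  have hpinj : Function.Injective p := by
    intro x y hxy
    have h1 := hp x
    rw [hxy, hp y] at h1
    exact Subtype.ext h1.symm
  have hcard : Fintype.card s ≤ q := by
    have h1 := Fintype.card_le_of_injective p hpinj
    rwa [Fintype.card_prod, Fintype.card_fin, Fintype.card_fin, ← hq] at h1
  obtain ⟨c, hc⟩ : ∃ c : Module.Basis s ℚ E, ∀ i, c i = i := by
    refine ⟨Module.Basis.mk hs3 ?_, fun i => Module.Basis.mk_apply _ _ _⟩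
    rw [Subtype.range_coe, hs2, hwspan]
  have hX : 1 ≤ dd F * dd F' := one_le_mul_of_one_le_of_one_le (one_le_dd F) (one_le_dd F')
  have hF1 := one_le_dd F
  have hF1' := one_le_dd F'
  have hT1 : 1 ≤ k * dd F := one_le_mul_of_one_le_of_one_le hk1 hF1
  have hT1' : 1 ≤ k' * dd F' := one_le_mul_of_one_le_of_one_le hk1' hF1'
  have hR : ∀ (φ : E →+* ℂ) (i : s), ‖φ (c i)‖ ≤ (k * dd F) ^ n * (k' * dd F') ^ n' := by
    intro φ i
    rw [hc i, ← hp i, hw]
    simp only [map_mul, map_pow, norm_mul, norm_pow]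
    have h1 : ‖φ (algebraMap F E (a : F))‖ ≤ k * dd F := by
      have h2 := haw (InfinitePlace.mk (φ.comp (algebraMap F E)))
      rwa [InfinitePlace.apply] at h2
    have h1' : ‖φ (algebraMap F' E (b : F'))‖ ≤ k' * dd F' := by
      have h2 := hbw (InfinitePlace.mk (φ.comp (algebraMap F' E)))
      rwa [InfinitePlace.apply] at h2
    refine mul_le_mul ?_ ?_ (by positivity) (by positivity)
    · exact (pow_le_pow_left₀ (norm_nonneg _) h1 _).trans (pow_le_pow_right₀ hT1 (p i).1.2.le)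
    · exact (pow_le_pow_left₀ (norm_nonneg _) h1' _).trans (pow_le_pow_right₀ hT1' (p i).2.2.le)
  have hint : ∀ i, IsIntegral ℤ (c i) := by
    intro i
    rw [hc i, ← hp i, hw]
    refine IsIntegral.mul ?_ ?_
    · rw [map_pow]
      exact ((RingOfIntegers.isIntegral_coe a).map (algebraMap F E).toIntAlgHom).pow _
    · rw [map_pow]
      exact ((RingOfIntegers.isIntegral_coe b).map (algebraMap F' E).toIntAlgHom).pow _
  refine (cpd_disc c hint hR).trans ?_
  have hR1 : 1 ≤ (k * dd F) ^ n * (k' * dd F') ^ n' :=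
    one_le_mul_of_one_le_of_one_le (one_le_pow₀ hT1) (one_le_pow₀ hT1')
  have hRX : (k * dd F) ^ n * (k' * dd F') ^ n' ≤ (k ^ n * k' ^ n') * (dd F * dd F') ^ (n + n') := by
    rw [mul_pow, mul_pow, pow_add]
    have h1 : dd F ^ n ≤ (dd F * dd F') ^ n := pow_le_pow_left₀ (by linarith) (by nlinarith) _
    have h2 : dd F' ^ n' ≤ (dd F * dd F') ^ n' := pow_le_pow_left₀ (by linarith) (by nlinarith) _
    have h3 : dd F ^ n * dd F' ^ n' ≤ (dd F * dd F') ^ n * (dd F * dd F') ^ n' :=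
      mul_le_mul h1 h2 (by positivity) (by positivity)
    calc k ^ n * dd F ^ n * (k' ^ n' * dd F' ^ n') = (k ^ n * k' ^ n') * (dd F ^ n * dd F' ^ n') := by ring
      _ ≤ _ := mul_le_mul_of_nonneg_left h3 (by positivity)
  calc ((Fintype.card s).factorial * ((k * dd F) ^ n * (k' * dd F') ^ n') ^ Fintype.card s) ^ 2
      ≤ ((q.factorial : ℝ) * ((k ^ n * k' ^ n') * (dd F * dd F') ^ (n + n')) ^ q) ^ 2 := by
        refine pow_le_pow_left₀ (by positivity) (mul_le_mul ?_ ?_ (by positivity) (by positivity)) 2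
        · exact_mod_cast Nat.factorial_le hcard
        · exact (pow_le_pow_right₀ hR1 hcard).trans (pow_le_pow_left₀ (by positivity) hRX _)
    _ = ((q.factorial : ℝ) * (k ^ n * k' ^ n') ^ q) ^ 2 * (dd F * dd F') ^ ((n + n') * q * 2) := by
        rw [mul_pow _ ((dd F * dd F') ^ (n + n')) q, ← pow_mul, ← mul_assoc, mul_pow, ← pow_mul]

end H1.LS4
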