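import Pool.Agent.H1.LS4.Ics
import Pool.Agent.H1.LS4.Cva
import Pool.Agent.H1.LS4.Cmp
import Pool.Agent.H1.LS4.Bad
import Pool.Agent.H1.LS4.Lca
import Pool.Agent.H1.LS4.Lcb
import Pool.Agent.H1.LS4.Lqs
import Pool.Agent.H1.LS4.Cpf
import Pool.Agent.H1.LS4.Cpd
import Pool.Agent.H1.LS4.Nch
import Pool.Agent.H1.LS4.Ntr

/-!
# [H1 LS4 COR] The correlations (assembly, 120-180 lines)

Let `x`, `y` be pairs which are not conjugate; `QT 𝔪 x.χ`, `QT 𝔪 y.χ` from the fields of `AP`.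
CASE 1: `x.F ≠ y.F`. `cpf` gives `E` with `Cp K x.F y.F E`; `E` is totally complex of degree `9 n` (`tc_up`, `h.d9`), `E / x.F` and `E / y.F` are Galois
(`IsGalois.tower_top_of_isScalarTower`). `nch` for both, `rcml`: `ψ : RC E (md 𝔪 E)` with `ψ I = χ(N I) χ'(N' I)`, nontrivial by `ntr`. `cva (9 n)` with
`ics (9 n)`, `k = 1`, `L = [ψ]`; `cmp` with `k = 1`, `d = 9`, `G = 9`, `g l = lpc x.χ.χ l * lpc y.χ.χ l`, `B` from `bad K E`, local identity `lcb`. `dd E` is at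
most `C (x.D y.D)^A` by `cpd (3 n) (3 n)` (`h.gen`), `N(md 𝔪 E) = (N𝔪)^9`. As in Li1: `C₀^#B ≤ dd E^a`.
CASE 2: `x.F = y.F` (destructure both pairs and `subst`, so that `χ`, `χ'` are characters of the same field `F`; the `NumberField` instances are
propositionally equal). For each of the three `τ ∈ Gal(F/K)` let `ψ_τ : RC F (md 𝔪 F)` with `ψ_τ I = χ(I) χ'(gm τ I)` (`rtw`, `rcml`). It is nontrivial by `lca_non`: otherwise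
`χ'(gm τ I) = χ(I)` for all `I`, i.e. `x.Cj y` (definition of `Cj`; `gm` is the map in it). `L` = the list of the three `ψ_τ`
(`(Finset.univ : Finset (F ≃ₐ[K] F)).toList.map _`, length `3 = [F:K]`, `IsGalois.card_aut_eq_finrank`). `cva (3 n)` with `ics (3 n)`, `k = 3`; `cmp` with
`k = 3`, `d = 3`, `G = 9`, `B` from `bad K F`, local identity `lca3` (the sum over the list is the sum over `Finset.univ`: `Finset.sum_toList`/`List.map_map`). 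
The final constants: `C` = maximum, `A` = sum, `δ` = minimum of those of the two cases (`Y ≥ 1`, `x.D, y.D ≥ 1`: `one_le_dd`). `lq_sum` at the end.
-/

set_option autoImplicit false

open scoped NumberField Classical
open NumberField H63.MA H36.QA H57.LI

noncomputable section

namespace H1.LS4

private theorem cor_norm {F : Type} [Field F] [NumberField F] {𝔣 : Ideal (𝓞 F)} (χ : RC F 𝔣) (I : Ideal (𝓞 F)) :
    ‖χ.χ I‖ ≤ 1 := by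
  by_cases hI : I = ⊥
  · have h : χ.χ I = 0 := by
      rw [hI]
      exact map_zero χ.χ
    rw [h, norm_zero]
    exact zero_le_one
  by_cases h : IsCoprime I 𝔣
  · rw [χ.norm_one I hI h]
  · rw [χ.zero_of I h, norm_zero]
    exact zero_le_one

private theorem cor_md {K : Type} [Field K] [NumberField K] {𝔪 : Ideal (𝓞 K)} (h𝔪 : 𝔪 ≠ ⊥) (E : Type) [Field E]
    [NumberField E] [Algebra K E] {d : ℕ} (hd : Module.finrank K E = d) :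
    md 𝔪 E ≠ ⊥ ∧ Ideal.absNorm (md 𝔪 E) = Ideal.absNorm 𝔪 ^ d := by
  have h : Ideal.absNorm (md 𝔪 E) = Ideal.absNorm 𝔪 ^ d := by
    unfold md
    rw [Ideal.absNorm_algebraMap, ← IsFractionRing.finrank_eq (𝓞 K) K (𝓞 E) E, hd]
  refine ⟨fun h0 => ?_, h⟩
  rw [h0, Ideal.absNorm_bot] at h
  exact h𝔪 (Ideal.absNorm_eq_zero_iff.1 (eq_zero_of_pow_eq_zero h.symm))

/-- the common part of the two cases -/
private theorem cor_core {K : Type} [Field K] [NumberField K] {n : ℕ} (hn : 0 < n) (hK : TC K n) (𝔪 : Ideal (𝓞 K))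
    (h𝔪 : 𝔪 ≠ ⊥) (d k : ℕ) (hd : 0 < d) (hk : 1 ≤ k) : ∃ (C : ℝ) (A : ℕ) (δ : ℝ), 1 ≤ C ∧ 0 < δ ∧ δ ≤ 1 / 4 ∧
    ∀ (E : Type) [Field E] [NumberField E] [Algebra K E], Module.finrank K E = d →
      ∀ L : List (RC E (md 𝔪 E)), L.length = k → (∀ ψ ∈ L, ψ.Non) → ∀ g : Pl K → ℂ, (∀ l, ‖g l‖ ≤ 9) →
        (∀ l : Pl K, Unr K E l.asIdeal →
          g l = (L.map fun ψ => ∑ᶠ v ∈ {v : Pl E | Over v l ∧ nm v = nm l}, ψ.χ v.asIdeal).sum) →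
        ∀ Y : ℝ, 1 ≤ Y → ‖∑ s ∈ AF K Y, ∏ l ∈ s, g l‖ ≤ C * dd E ^ A * Y ^ (1 - δ) := by
  obtain ⟨C₁, A₁, δ, hC₁, hδ, hδ4, hcva⟩ := cva (n * d) (Nat.mul_pos hn hd) (ics (n * d) (Nat.mul_pos hn hd)) k hk
  obtain ⟨C₀, hC₀, hcmp⟩ := cmp K k d 9
  obtain ⟨a, ha⟩ := pow_unbounded_of_one_lt C₀ one_lt_two
  have hN1 : (1 : ℝ) ≤ Ideal.absNorm 𝔪 := by
    have h : Ideal.absNorm 𝔪 ≠ 0 := fun h => h𝔪 (Ideal.absNorm_eq_zero_iff.1 h)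
    exact_mod_cast Nat.one_le_iff_ne_zero.2 h
  refine ⟨C₀ * (C₁ * ((Ideal.absNorm 𝔪 : ℝ) ^ d) ^ A₁), a + A₁, δ, ?_, hδ, hδ4, ?_⟩
  · exact one_le_mul_of_one_le_of_one_le hC₀ (one_le_mul_of_one_le_of_one_le hC₁ (one_le_pow₀ (one_le_pow₀ hN1)))
  intro E _ _ _ hE L hL hLN g hg hid Y hY
  obtain ⟨B, hB1, hB⟩ := bad K E
  obtain ⟨hm0, hm1⟩ := cor_md h𝔪 E hE
  have hdd := one_le_dd E
  have hC0' : 0 ≤ C₀ := by linarith
  have hC1' : 0 ≤ C₁ := by linarith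
  have hdd0 : 0 ≤ dd E := by linarith
  have hNE : (0 : ℝ) ≤ Ideal.absNorm (md 𝔪 E) := Nat.cast_nonneg _
  have hD0 : 0 ≤ C₁ * (dd E * Ideal.absNorm (md 𝔪 E)) ^ A₁ := by positivity
  have h1 := hcmp E hE.le (L.map fun ψ => ψ.χ) (by rw [List.length_map, hL]) (by
      intro ψ hψ I
      obtain ⟨φ, -, rfl⟩ := List.mem_map.1 hψ
      exact cor_norm φ I) g hg B (by
      intro l hl
      rw [hid l (hB l hl), List.map_map]
      rfl) (C₁ * (dd E * Ideal.absNorm (md 𝔪 E)) ^ A₁) δ hD0 hδ hδ4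
    (fun M hM => hcva E (tc_up hK hE) (md 𝔪 E) hm0 L hL hLN M hM) Y hY
  refine h1.trans (mul_le_mul_of_nonneg_right ?_ (Real.rpow_nonneg (by linarith) _))
  have h2 : C₀ ^ B.card ≤ dd E ^ a := by
    calc C₀ ^ B.card ≤ ((2 : ℝ) ^ a) ^ B.card := pow_le_pow_left₀ hC0' ha.le _
      _ = ((2 : ℝ) ^ B.card) ^ a := by rw [← pow_mul, ← pow_mul, mul_comm]
      _ ≤ dd E ^ a := pow_le_pow_left₀ (by positivity) hB1 _
  rw [hm1]
  push_cast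
  calc C₀ * C₀ ^ B.card * (C₁ * (dd E * (Ideal.absNorm 𝔪 : ℝ) ^ d) ^ A₁) ≤
      C₀ * dd E ^ a * (C₁ * (dd E * (Ideal.absNorm 𝔪 : ℝ) ^ d) ^ A₁) := by
        refine mul_le_mul_of_nonneg_right (mul_le_mul_of_nonneg_left h2 hC0') (by positivity)
    _ = C₀ * (C₁ * ((Ideal.absNorm 𝔪 : ℝ) ^ d) ^ A₁) * dd E ^ (a + A₁) := by
        rw [mul_pow, pow_add]
        ring

/-- the case of two different fields -/
private theorem cor_diff {K Ω : Type} [Field K] [NumberField K] [Field Ω] [Algebra K Ω] {n : ℕ} (hn : 0 < n) (hK : TC K n)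
    (𝔪 : Ideal (𝓞 K)) (h𝔪 : 𝔪 ≠ ⊥) : ∃ (C : ℝ) (A : ℕ) (δ : ℝ), 1 ≤ C ∧ 0 < δ ∧ δ ≤ 1 / 4 ∧
    ∀ x y : AP K Ω 𝔪, x.F ≠ y.F → ∀ Y : ℝ, 1 ≤ Y →
      ‖∑ s ∈ AF K Y, ∏ l ∈ s, (lpc (K := K) x.χ.χ l.asIdeal * lpc (K := K) y.χ.χ l.asIdeal)‖ ≤
        C * (x.D * y.D) ^ A * Y ^ (1 - δ) := by
  obtain ⟨C₁, A₁, δ, hC₁, hδ, hδ4, hcore⟩ := cor_core hn hK 𝔪 h𝔪 9 1 (by norm_num) le_rfl
  obtain ⟨C₂, hC₂, A₂, hcpd⟩ := cpd (n * 3) (n * 3)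
  refine ⟨C₁ * C₂ ^ A₁, A₂ * A₁, δ, one_le_mul_of_one_le_of_one_le hC₁ (one_le_pow₀ hC₂), hδ, hδ4, ?_⟩
  intro x y hne Y hY
  obtain ⟨E, i1, i2, i3, i4, i5, h⟩ := cpf x.F y.F x.deg y.deg hne
  have t1 : IsScalarTower K x.F E := h.tow
  have t2 : IsScalarTower K y.F E := h.tow'
  have t3 : IsGalois K E := h.gal
  have g1 : IsGalois x.F E := IsGalois.tower_top_of_isGalois K x.F E
  have g2 : IsGalois y.F E := IsGalois.tower_top_of_isGalois K y.F E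
  obtain ⟨ψ₁, hψ₁⟩ := nch (K := K) (E := E) x.χ
  obtain ⟨ψ₂, hψ₂⟩ := nch (K := K) (E := E) y.χ
  obtain ⟨ψ, hψ⟩ := rcml ψ₁ ψ₂
  have hψ' : ∀ I : Ideal (𝓞 E), ψ.χ I = x.χ.χ (Ideal.relNorm (𝓞 x.F) I) * y.χ.χ (Ideal.relNorm (𝓞 y.F) I) := by
    intro I
    rw [hψ, hψ₁, hψ₂]
  have hnon : ψ.Non := ntr h x.deg x.χ y.χ ⟨x.quad, x.triv⟩ x.non ψ hψ'
  have hg : ∀ l : Pl K, ‖lpc (K := K) x.χ.χ l.asIdeal * lpc (K := K) y.χ.χ l.asIdeal‖ ≤ 9 := by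
    intro l
    rw [norm_mul]
    have h1 := lp_le x l
    have h2 := lp_le y l
    have h3 := norm_nonneg (lpc (K := K) x.χ.χ l.asIdeal)
    have h4 := norm_nonneg (lpc (K := K) y.χ.χ l.asIdeal)
    nlinarith
  have h1 := hcore E h.d9 [ψ] rfl (by
      intro φ hφ
      rw [List.mem_singleton.1 hφ]
      exact hnon) (fun l => lpc (K := K) x.χ.χ l.asIdeal * lpc (K := K) y.χ.χ l.asIdeal) hg (by
      intro l hl
      rw [List.map_cons, List.map_nil, List.sum_cons, List.sum_nil, add_zero]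
      exact lcb h x.deg y.deg x.χ.χ y.χ.χ ψ.χ hψ' l hl) Y hY
  have hD1 : (1 : ℝ) ≤ x.D := one_le_dd x.F
  have hD2 : (1 : ℝ) ≤ y.D := one_le_dd y.F
  have h2 : dd E ≤ C₂ * (x.D * y.D) ^ A₂ := hcpd x.F y.F E (tc_up hK x.deg) (tc_up hK y.deg) h.gen
  refine h1.trans (mul_le_mul_of_nonneg_right ?_ (Real.rpow_nonneg (by linarith) _))
  have hC1' : 0 ≤ C₁ := by linarith
  calc C₁ * dd E ^ A₁ ≤ C₁ * (C₂ * (x.D * y.D) ^ A₂) ^ A₁ :=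
        mul_le_mul_of_nonneg_left (pow_le_pow_left₀ (dd_pos E).le h2 _) hC1'
    _ = C₁ * C₂ ^ A₁ * (x.D * y.D) ^ (A₂ * A₁) := by
        rw [mul_pow, ← pow_mul]
        ring

/-- the case of one field -/
private theorem cor_same {K : Type} [Field K] [NumberField K] {n : ℕ} (hn : 0 < n) (hK : TC K n)
    (𝔪 : Ideal (𝓞 K)) (h𝔪 : 𝔪 ≠ ⊥) : ∃ (C : ℝ) (A : ℕ) (δ : ℝ), 1 ≤ C ∧ 0 < δ ∧ δ ≤ 1 / 4 ∧
    ∀ (F : Type) [Field F] [NumberField F] [Algebra K F] [IsGalois K F], Module.finrank K F = 3 →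
      ∀ χ χ' : RC F (md 𝔪 F), QT 𝔪 χ → QT 𝔪 χ' → (∀ l : Pl K, ‖lpc χ.χ l.asIdeal‖ ≤ 3) →
      (∀ l : Pl K, ‖lpc χ'.χ l.asIdeal‖ ≤ 3) →
      (∀ τ : F ≃ₐ[K] F, ¬ ∀ I : Ideal (𝓞 F), χ'.χ (gm τ I) = χ.χ I) → ∀ Y : ℝ, 1 ≤ Y →
      ‖∑ s ∈ AF K Y, ∏ l ∈ s, (lpc χ.χ l.asIdeal * lpc χ'.χ l.asIdeal)‖ ≤ C * dd F ^ A * Y ^ (1 - δ) := by
  obtain ⟨C₁, A₁, δ, hC₁, hδ, hδ4, hcore⟩ := cor_core hn hK 𝔪 h𝔪 3 3 (by norm_num) (by norm_num)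
  refine ⟨C₁, A₁, δ, hC₁, hδ, hδ4, ?_⟩
  intro F _ _ _ _ h3 χ χ' hχ hχ' hl1 hl2 hncj Y hY
  have hex : ∀ τ : F ≃ₐ[K] F, ∃ ψ : RC F (md 𝔪 F), ∀ I : Ideal (𝓞 F), ψ.χ I = χ.χ I * χ'.χ (gm τ I) := by
    intro τ
    obtain ⟨φ, hφ⟩ := rtw τ χ'
    obtain ⟨ψ, hψ⟩ := rcml χ φ
    exact ⟨ψ, fun I => by rw [hψ, hφ]⟩
  choose Ψ hΨ using hex
  have hcard : Fintype.card (F ≃ₐ[K] F) = 3 := by
    rw [← Nat.card_eq_fintype_card, IsGalois.card_aut_eq_finrank, h3]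
  have h1 := hcore F h3 ((Finset.univ : Finset (F ≃ₐ[K] F)).toList.map Ψ) (by
      rw [List.length_map, Finset.length_toList, Finset.card_univ, hcard]) (by
      intro φ hφ
      obtain ⟨τ, -, rfl⟩ := List.mem_map.1 hφ
      by_contra hn'
      exact hncj τ (lca_non χ χ' hχ hχ' τ (Ψ τ) (hΨ τ) hn'))
    (fun l => lpc χ.χ l.asIdeal * lpc χ'.χ l.asIdeal) (by
      intro l
      rw [norm_mul]
      have h1 := hl1 l
      have h2 := hl2 l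
      have h3 := norm_nonneg (lpc χ.χ l.asIdeal)
      have h4 := norm_nonneg (lpc χ'.χ l.asIdeal)
      nlinarith) (by
      intro l hl
      rw [List.map_map, Finset.sum_map_toList, lca3 h3 χ.χ χ'.χ l hl]
      refine Finset.sum_congr rfl fun τ _ => ?_
      rw [Function.comp_apply]
      refine finsum_mem_congr rfl fun v _ => ?_
      rw [hΨ]) Y hY
  exact h1

theorem corr {K Ω : Type} [Field K] [NumberField K] [Field Ω] [Algebra K Ω] {n : ℕ} (hn : 0 < n) (hK : TC K n)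
    (𝔪 : Ideal (𝓞 K)) (h𝔪 : 𝔪 ≠ ⊥) : CORR K Ω 𝔪 := by
  obtain ⟨C₁, A₁, δ₁, hC₁, hδ₁, hδ₁4, hdiff⟩ := cor_diff (Ω := Ω) hn hK 𝔪 h𝔪
  obtain ⟨C₂, A₂, δ₂, hC₂, hδ₂, hδ₂4, hsame⟩ := cor_same hn hK 𝔪 h𝔪
  refine ⟨max C₁ C₂, A₁ + A₂, min δ₁ δ₂, le_max_of_le_left hC₁, lt_min hδ₁ hδ₂, (min_le_left _ _).trans hδ₁4, ?_⟩
  intro x y hncj Y hY
  have hD1 : (1 : ℝ) ≤ x.D := one_le_dd x.F
  have hD2 : (1 : ℝ) ≤ y.D := one_le_dd y.F
  have hD : (1 : ℝ) ≤ x.D * y.D := one_le_mul_of_one_le_of_one_le hD1 hD2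
  have hY0 : (0 : ℝ) < Y := by linarith
  have hnorm : |∑ q ∈ IN K Y, x.lq q * y.lq q| =
      ‖∑ s ∈ AF K Y, ∏ l ∈ s, (lpc (K := K) x.χ.χ l.asIdeal * lpc (K := K) y.χ.χ l.asIdeal)‖ := by
    rw [← lq_sum x y Y hY, Complex.norm_real, Real.norm_eq_abs]
  rw [hnorm]
  have hfin : ∀ (C : ℝ) (A : ℕ) (δ : ℝ), 0 ≤ C → C ≤ max C₁ C₂ → A ≤ A₁ + A₂ → min δ₁ δ₂ ≤ δ →
      C * (x.D * y.D) ^ A * Y ^ (1 - δ) ≤ max C₁ C₂ * (x.D * y.D) ^ (A₁ + A₂) * Y ^ (1 - min δ₁ δ₂) := by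
    intro C A δ h0 hC hA hδ
    have hm : 0 ≤ max C₁ C₂ := h0.trans hC
    refine mul_le_mul (mul_le_mul hC (pow_le_pow_right₀ hD hA) (by positivity) hm)
      (Real.rpow_le_rpow_of_exponent_le hY (by linarith)) (Real.rpow_nonneg hY0.le _) (by positivity)
  by_cases hF : x.F = y.F
  · have key : ‖∑ s ∈ AF K Y, ∏ l ∈ s, (lpc (K := K) x.χ.χ l.asIdeal * lpc (K := K) y.χ.χ l.asIdeal)‖ ≤
        C₂ * x.D ^ A₂ * Y ^ (1 - δ₂) := by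
      have hlx := lp_le x
      have hly := lp_le y
      clear hfin hnorm hD hD1 hD2
      obtain ⟨F, nf, gal, deg, χ, quad, triv, non⟩ := x
      obtain ⟨F', nf', gal', deg', χ', quad', triv', non'⟩ := y
      change F = F' at hF
      subst hF
      exact hsame F deg χ χ' ⟨quad, triv⟩ ⟨quad', triv'⟩ hlx hly (fun τ h => hncj ⟨τ, h⟩) Y hY
    refine key.trans (le_trans ?_ (hfin C₂ A₂ δ₂ (by linarith) (le_max_right _ _) (by omega) (min_le_right _ _)))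
    refine mul_le_mul_of_nonneg_right (mul_le_mul_of_nonneg_left ?_ (by linarith)) (Real.rpow_nonneg hY0.le _)
    refine pow_le_pow_left₀ (by linarith) ?_ _
    nlinarith
  · exact (hdiff x y hF Y hY).trans
      (hfin C₁ A₁ δ₁ (by linarith) (le_max_left _ _) (by omega) (min_le_left _ _))

end H1.LS4
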