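import Pool.Agent.H57.TLS.Chs
import Pool.Agent.H57.TLS.Uni
import Pool.Agent.H57.TLS.Har

/-!
# LS4 (MP_b39724_nt, chapter I of T3): ray class character sums, uniform in the field: definitions (complete)

`F` is a totally complex number field of degree `n`, `lrk F` the number of infinite places different from the chosen one `w₀`
(so `lrk F + 1 = n / 2`).
`BxF t α`: `w α ≤ t w` for all infinite places; `bxf 𝔫 t`: the nonzero elements of `𝔫` in this box.
`rad y q`: the radii with `∏ (rad y q w) ^ 2 = exp q` which belong to the point `y` of the logarithmic space.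
`DU F`: a bounded fundamental domain of the unit lattice, `vDU F` its volume.
`Smp ι s`: the simplex of size `s`, `smp m` the volume of the standard simplex of dimension `m`.
`cls 𝔫 M`: the nonzero ideals `I` of norm at most `M` for which `I 𝔫` is principal.
-/

set_option autoImplicit false

open scoped NumberField Classical
open NumberField NumberField.Units NumberField.Units.dirichletUnitTheorem H63.MA H36.QA H57.TLS

noncomputable section

namespace H1.LS4

variable {F : Type} [Field F] [NumberField F]

/-- the absolute values of `α` are at most the radii `t` -/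
def BxF (t : InfinitePlace F → ℝ) (α : 𝓞 F) : Prop := ∀ w : InfinitePlace F, w (α : F) ≤ t w

theorem finite_bxF (t : InfinitePlace F → ℝ) : {α : 𝓞 F | BxF t α}.Finite := by
  classical
  refine (finite_bx (∑ w, |t w|)).subset ?_
  intro α h w
  exact (h w).trans ((le_abs_self _).trans
    (Finset.single_le_sum (f := fun w => |t w|) (fun w _ => abs_nonneg _) (Finset.mem_univ w)))

/-- the nonzero elements of `𝔫` in the box with radii `t` -/
def bxf (𝔫 : Ideal (𝓞 F)) (t : InfinitePlace F → ℝ) : Finset (𝓞 F) :=
  ((finite_bxF t).subset (fun _ h => h.2.2 : {α : 𝓞 F | α ∈ 𝔫 ∧ α ≠ 0 ∧ BxF t α} ⊆ _)).toFinset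

theorem mem_bxf {𝔫 : Ideal (𝓞 F)} {t : InfinitePlace F → ℝ} {α : 𝓞 F} :
    α ∈ bxf 𝔫 t ↔ α ∈ 𝔫 ∧ α ≠ 0 ∧ BxF t α := by
  unfold bxf
  rw [Set.Finite.mem_toFinset]
  rfl

/-- the dimension of the logarithmic space -/
def lrk (F : Type) [Field F] [NumberField F] : ℕ :=
  Fintype.card {w : InfinitePlace F // w ≠ w₀}

/-- the radii which belong to `y` and `q`; the product of their squares is `exp q` -/
def rad (y : logSpace F) (q : ℝ) (w : InfinitePlace F) : ℝ :=
  Real.exp ((q / (lrk F + 1) + (if h : w = w₀ then - ∑ v, y v else y ⟨w, h⟩)) / 2)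

/-- a bounded fundamental domain of the unit lattice -/
def DU (F : Type) [Field F] [NumberField F] : Set (logSpace F) :=
  ZSpan.fundamentalDomain ((basisUnitLattice F).ofZLatticeBasis ℝ (unitLattice F))

/-- the volume of the fundamental domain of the unit lattice -/
def vDU (F : Type) [Field F] [NumberField F] : ℝ := (MeasureTheory.volume (DU F)).toReal

/-- the simplex of size `s` -/
def Smp (ι : Type) [Fintype ι] (s : ℝ) : Set (ι → ℝ) := {z | (∀ i, 0 ≤ z i) ∧ ∑ i, z i ≤ s}

/-- the volume of the standard simplex of dimension `m` -/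
def smp (m : ℕ) : ℝ := (MeasureTheory.volume (Smp (Fin m) 1)).toReal

/-- the nonzero ideals `I` of norm at most `M` such that `I 𝔫` is principal -/
def cls (𝔫 : Ideal (𝓞 F)) (M : ℝ) : Finset (Ideal (𝓞 F)) :=
  (IN F M).filter fun I => (I * 𝔫).IsPrincipal

/-- the system `s` represents every ideal class exactly once -/
def Reps (F : Type) [Field F] [NumberField F] (h : ℕ) (s : Fin h → Ideal (𝓞 F)) : Prop :=
  0 < h ∧ (∀ j, s j ≠ ⊥) ∧ ∀ I : Ideal (𝓞 F), I ≠ ⊥ → ∃! j, (I * s j).IsPrincipal

end H1.LS4
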