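import Pool.Agent.H57.LI.Defs

/-!
# LS4, part B: fields and ideals (definitions, complete)

* `gm σ I`: the image of the ideal `I` under the isomorphism `σ : F ≃ₐ[K] F'` (the form used in `H57.LI.AP.Cj`).
* `QT 𝔪 χ`: `χ` has the values `±1` on the ideals prime to `𝔪` and is trivial on the ideals of `K`.
* `lpc χ l`: the complex form of `H57.LI.AP.lp`.
* `Unr K E l`: `l` is unramified in `E` (no square of a prime divides `l 𝓞_E`).
* `Cp K F F' E`: `E` is a compositum of `F` and `F'`, linearly disjoint over `K`, with Galois group the product.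
-/

set_option autoImplicit false

open scoped NumberField Classical
open NumberField H63.MA H36.QA H57.LI

noncomputable section

namespace H1.LS4

/-- the image of an ideal under an isomorphism over `K` -/
def gm {K F F' : Type} [Field K] [Field F] [Field F'] [Algebra K F] [Algebra K F'] (σ : F ≃ₐ[K] F') (I : Ideal (𝓞 F)) :
    Ideal (𝓞 F') :=
  I.map (RingOfIntegers.mapRingEquiv σ.toRingEquiv : 𝓞 F ≃+* 𝓞 F')

/-- the values are `±1`, and `1` on the ideals of `K` -/
structure QT {K F : Type} [Field K] [NumberField K] [Field F] [NumberField F] [Algebra K F] (𝔪 : Ideal (𝓞 K))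
    (χ : RC F (md 𝔪 F)) : Prop where
  quad : ∀ I, I ≠ ⊥ → IsCoprime I (md 𝔪 F) → χ.χ I = 1 ∨ χ.χ I = -1
  triv : ∀ J : Ideal (𝓞 K), J ≠ ⊥ → IsCoprime J 𝔪 → χ.χ (md J F) = 1

/-- the sum of `χ(P)` over the primes above `l` if there are three of them, and `0` otherwise -/
def lpc {K F : Type} [Field K] [NumberField K] [Field F] [NumberField F] [Algebra K F] (χ : Ideal (𝓞 F) →*₀ ℂ)
    (l : Ideal (𝓞 K)) : ℂ :=
  if (l.primesOver (𝓞 F)).ncard = 3 then ∑ᶠ P ∈ l.primesOver (𝓞 F), χ P else 0

/-- no square of a prime of `E` divides `l 𝓞_E` -/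
def Unr (K E : Type) [Field K] [Field E] [Algebra K E] (l : Ideal (𝓞 K)) : Prop :=
  ∀ P : Ideal (𝓞 E), P.IsPrime → ¬ (P ^ 2 ∣ md l E)

/-- `E` is a compositum of `F` and `F'` of degree `9` over `K`, Galois with the product of the Galois groups as Galois group -/
structure Cp (K F F' E : Type) [Field K] [Field F] [Field F'] [Field E] [Algebra K F] [Algebra K F'] [Algebra K E]
    [Algebra F E] [Algebra F' E] : Prop where
  tow : IsScalarTower K F E
  tow' : IsScalarTower K F' E
  gal : IsGalois K E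
  d9 : Module.finrank K E = 9
  gen : Subring.closure (Set.range (algebraMap F E) ∪ Set.range (algebraMap F' E)) = ⊤
  res : ∀ (τ : F ≃ₐ[K] F) (τ' : F' ≃ₐ[K] F'), ∃ σ : E ≃ₐ[K] E,
    (∀ z : F, σ (algebraMap F E z) = algebraMap F E (τ z)) ∧ ∀ z : F', σ (algebraMap F' E z) = algebraMap F' E (τ' z)
  inj : ∀ σ : E ≃ₐ[K] E, (∀ z : F, σ (algebraMap F E z) = algebraMap F E z) →
    (∀ z : F', σ (algebraMap F' E z) = algebraMap F' E z) → σ = 1

end H1.LS4
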