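import Pool.Agent.H1.LS4.Skc
import Pool.Agent.H1.LS4.Crb

/-!
# [H1 LS4 SBC] The points of a coset of an ideal in a box with arbitrary radii, uniformly in the field (80-130 lines)

Copy of `H57.TLS.box_count` (read H57/TLS/Box.lean) with radii `t w` and the covering set
`B = {y | ∀ w, ‖y.2 w‖ ≤ θ t w}` (the polydisc `PD F 0 (θ t)`) in place of a ball.
1. `skc` with `f = t`: `‖x_w - α_w‖^n PN t ≤ C₀ dd^A N𝔞 t_w^n ≤ θ^n PN t t_w^n`, so `‖x_w - α_w‖ ≤ θ t_w` (`PN t > 0`,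
`pow_le_pow_left` / `le_of_pow_le_pow_left₀`): every `x` is in `L + B`.
2. `S = PD F 0 t`; `crb_upper` with `S'' = PD F 0 ((1 + θ) t)`, `crb_lower` with `S' = PD F 0 ((1 - θ) t)` (triangle inequality at
each place). Volumes: `polydisc_volume` (H36/QA/Latt): `π^(n/2) ∏ r_w^2` for nonnegative radii; `PN F (c • t) = c^n PN F t`
(`2 * card places = n`, `box_card`). `volume D = N𝔞 (1/2)^(n/2) √dd` (`ideal_lattice`).
3. So `# (1/2)^(n/2) N𝔞 √dd` is between `π^(n/2) (1-θ)^n P` and `π^(n/2) (1+θ)^n P`, `P = PN F t`; `(1+θ)^n - 1 ≤ 2^n n θ`,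
`1 - (1-θ)^n ≤ n θ` (`H57.TLS.box_pow n 1 θ`). Multiply by `2^(n/2)`; `kpn n = (2π)^(n/2)`.
-/

set_option autoImplicit false

open scoped NumberField Classical
open NumberField NumberField.Units NumberField.Units.dirichletUnitTheorem H63.MA H36.QA H57.TLS MeasureTheory

noncomputable section

namespace H1.LS4

private theorem sbc_PN (n : ℕ) (F : Type) [Field F] [NumberField F] (hF : TC F n)
    (t : InfinitePlace F → ℝ) (c : ℝ) : H36.QA.PN F (fun w => c * t w) = c ^ n * H36.QA.PN F t := by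
  unfold H36.QA.PN
  rw [Finset.prod_congr rfl (fun w _ => mul_pow c (t w) 2), Finset.prod_mul_distrib, Finset.prod_const,
    Finset.card_univ, ← pow_mul, box_card n F hF]

private theorem sbc_vol (n : ℕ) (F : Type) [Field F] [NumberField F] (hF : TC F n)
    (t : InfinitePlace F → ℝ) (ht : ∀ w, 0 < t w) (c : ℝ) (hc : 0 ≤ c) :
    MeasurableSet (PD F 0 (fun w => c * t w)) ∧
      MeasureTheory.volume (PD F 0 (fun w => c * t w)) =
        ENNReal.ofReal (Real.pi ^ (n / 2) * (c ^ n * H36.QA.PN F t)) := by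
  obtain ⟨h1, h2⟩ := polydisc_volume n F hF 0 (fun w => c * t w) (fun w => mul_nonneg hc (ht w).le)
  refine ⟨h1, ?_⟩
  rw [h2, ← sbc_PN n F hF]
  rfl

private theorem sbc_mem (n : ℕ) (F : Type) [Field F] [NumberField F] (hF : TC F n)
    (t : InfinitePlace F → ℝ) (α : 𝓞 F) :
    mixedEmbedding F (α : F) ∈ PD F 0 t ↔ BxF t α := by
  have htc := hF.1
  constructor
  · intro h w
    have h1 := h ⟨w, IsTotallyComplex.isComplex w⟩
    have h2 : (mixedEmbedding F (α : F)).2 ⟨w, IsTotallyComplex.isComplex w⟩ -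
        (0 : mixedEmbedding.mixedSpace F).2 ⟨w, IsTotallyComplex.isComplex w⟩ =
        (mixedEmbedding F (α : F)).2 ⟨w, IsTotallyComplex.isComplex w⟩ := sub_zero _
    rw [h2, box_norm] at h1
    exact h1
  · intro h w
    have h2 : (mixedEmbedding F (α : F)).2 w - (0 : mixedEmbedding.mixedSpace F).2 w =
        (mixedEmbedding F (α : F)).2 w := sub_zero _
    rw [h2, box_norm]
    exact h w.1

private theorem sbc_z {F : Type} [Field F] [NumberField F] (x : mixedEmbedding.mixedSpace F)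
    (w : {w : InfinitePlace F // w.IsComplex}) :
    x.2 w - (0 : mixedEmbedding.mixedSpace F).2 w = x.2 w := sub_zero _

private theorem sbc_add {F : Type} [Field F] [NumberField F] (x y : mixedEmbedding.mixedSpace F)
    (w : {w : InfinitePlace F // w.IsComplex}) : (x + y).2 w = x.2 w + y.2 w := rfl

private theorem sbc_sub {F : Type} [Field F] [NumberField F] (x y : mixedEmbedding.mixedSpace F)
    (w : {w : InfinitePlace F // w.IsComplex}) : (x - y).2 w = x.2 w - y.2 w := rfl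

theorem sbc (n : ℕ) (hn : 0 < n) : ∃ C : ℝ, 1 ≤ C ∧ ∃ A : ℕ, ∀ (F : Type) [Field F] [NumberField F], TC F n →
    ∀ 𝔞 : Ideal (𝓞 F), 𝔞 ≠ ⊥ → ∀ t : InfinitePlace F → ℝ, (∀ w, 0 < t w) → ∀ θ : ℝ, 0 < θ → θ ≤ 1 →
      C * dd F ^ A * Ideal.absNorm 𝔞 ≤ θ ^ n * PN F t → ∀ v : 𝓞 F,
      |(({α : 𝓞 F | α - v ∈ 𝔞 ∧ BxF t α}.ncard : ℕ) : ℝ) * (Ideal.absNorm 𝔞 * Real.sqrt (dd F)) - kpn n * PN F t| ≤
        C * (θ * PN F t) := by
  obtain ⟨C₀, hC₀, A, hcov⟩ := skc n hn
  have hk := kpn_pos n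
  have hK : 0 ≤ kpn n * (n * 2 ^ n) := by positivity
  refine ⟨C₀ + kpn n * (n * 2 ^ n), by linarith, A, ?_⟩
  intro F _ _ hF 𝔞 h𝔞 t ht θ hθ hθ1 hbig v
  have htc := hF.1
  have hP : 0 < H36.QA.PN F t := Finset.prod_pos fun w _ => pow_pos (ht w) 2
  obtain ⟨P, hPd⟩ : ∃ P, P = H36.QA.PN F t := ⟨_, rfl⟩
  have hddA : 0 ≤ dd F ^ A := pow_nonneg (dd_pos F).le _
  obtain ⟨L, D, hLc, hD, hDvol, hmem, -⟩ := ideal_lattice n F hF 𝔞 h𝔞
  set B : Set (mixedEmbedding.mixedSpace F) := PD F 0 (fun w => θ * t w) with hB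
  have hRad : ∀ x : mixedEmbedding.mixedSpace F, ∃ l ∈ L, x - l ∈ B := by
    intro x
    obtain ⟨α, hα, hx⟩ := hcov F hF 𝔞 h𝔞 t ht x
    refine ⟨mixedEmbedding F (α : F), (hmem _).2 ⟨α, hα, rfl⟩, fun w => ?_⟩
    rw [sbc_z, sbc_sub]
    have h1 := hx w
    have h0 : 0 ≤ dd F ^ A * Ideal.absNorm 𝔞 := mul_nonneg hddA (Nat.cast_nonneg _)
    have h2 : C₀ * dd F ^ A * Ideal.absNorm 𝔞 ≤ θ ^ n * H36.QA.PN F t := by
      refine le_trans ?_ hbig
      have h3 : 0 ≤ kpn n * (n * 2 ^ n) * (dd F ^ A * Ideal.absNorm 𝔞) := mul_nonneg hK h0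
      linarith
    have h4 : 0 ≤ t w.1 ^ n := (pow_pos (ht w.1) n).le
    have h5 := h1.trans (mul_le_mul_of_nonneg_right h2 h4)
    have h6 : ‖x.2 w - (mixedEmbedding F (α : F)).2 w‖ ^ n * H36.QA.PN F t ≤
        (θ * t w.1) ^ n * H36.QA.PN F t := by
      rw [mul_pow]
      linarith
    have h7 := le_of_mul_le_mul_right h6 hP
    exact le_of_pow_le_pow_left₀ hn.ne' (mul_nonneg hθ.le (ht w.1).le) h7
  set T : Set (𝓞 F) := {α : 𝓞 F | α - v ∈ 𝔞 ∧ BxF t α} with hT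
  have hTfin : T.Finite := (finite_bxF t).subset fun _ h => h.2
  set S : Set (mixedEmbedding.mixedSpace F) := PD F 0 t with hS
  have hinj : Function.Injective (fun α : 𝓞 F => mixedEmbedding F (α : F)) := by
    intro a b hab
    exact RingOfIntegers.ext (mixedEmbedding_injective F hab)
  have hset : {x : mixedEmbedding.mixedSpace F | x - mixedEmbedding F (v : F) ∈ L ∧ x ∈ S} =
      (fun α : 𝓞 F => mixedEmbedding F (α : F)) '' T := by
    ext x
    constructor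
    · rintro ⟨h1, h2⟩
      obtain ⟨β, hβ, hx⟩ := (hmem _).1 h1
      have hx' : x = mixedEmbedding F ((β + v : 𝓞 F) : F) := by
        have h3 : ((β + v : 𝓞 F) : F) = (β : F) + (v : F) := map_add _ _ _
        rw [h3, map_add, hx, sub_add_cancel]
      refine ⟨β + v, ⟨?_, ?_⟩, hx'.symm⟩
      · rw [add_sub_cancel_right]
        exact hβ
      · rw [hx'] at h2
        exact (sbc_mem n F hF t _).1 h2
    · rintro ⟨α, ⟨h1, h2⟩, rfl⟩
      refine ⟨?_, (sbc_mem n F hF t α).2 h2⟩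
      refine (hmem _).2 ⟨α - v, h1, ?_⟩
      have h3 : ((α - v : 𝓞 F) : F) = (α : F) - (v : F) := map_sub _ _ _
      rw [h3, map_sub]
  have hfin : {x : mixedEmbedding.mixedSpace F | x - mixedEmbedding F (v : F) ∈ L ∧ x ∈ S}.Finite := by
    rw [hset]
    exact hTfin.image _
  have hcard : {x : mixedEmbedding.mixedSpace F | x - mixedEmbedding F (v : F) ∈ L ∧ x ∈ S}.ncard =
      T.ncard := by
    rw [hset, Set.ncard_image_of_injective _ hinj]
  have hDfin : MeasureTheory.volume D ≠ ⊤ := by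
    rw [hDvol]
    exact ENNReal.ofReal_ne_top
  have hNa : 0 ≤ (Ideal.absNorm 𝔞 : ℝ) * (1 / 2) ^ (n / 2) * Real.sqrt (dd F) := by positivity
  have h22 : ((1 : ℝ) / 2) ^ (n / 2) * 2 ^ (n / 2) = 1 := by
    rw [← mul_pow]
    norm_num
  have hkp : Real.pi ^ (n / 2) * 2 ^ (n / 2) = kpn n := by
    unfold kpn
    rw [← mul_pow, mul_comm Real.pi 2]
  have hcast : ((T.ncard : ℕ) : ENNReal) = ENNReal.ofReal (T.ncard : ℝ) := by
    rw [ENNReal.ofReal_natCast]
  -- lower bound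
  have hlow : kpn n * ((1 - θ) ^ n * P) ≤ (T.ncard : ℝ) * (Ideal.absNorm 𝔞 * Real.sqrt (dd F)) := by
    obtain ⟨hm, hv⟩ := sbc_vol n F hF t ht (1 - θ) (by linarith)
    have h1 := crb_lower MeasureTheory.volume L D hD B hRad (mixedEmbedding F (v : F)) S
      (PD F 0 (fun w => (1 - θ) * t w)) hm (fun x hx y hy w => by
        have h2 := hx w
        have h3 := hy w
        rw [sbc_z] at h2 h3
        rw [sbc_z, sbc_sub]
        refine (norm_sub_le _ _).trans ?_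
        linarith) hfin
    rw [hv, hDvol, hcard, hcast, ← ENNReal.ofReal_mul (Nat.cast_nonneg _), ← hPd] at h1
    have h2 := (ENNReal.ofReal_le_ofReal_iff (mul_nonneg (Nat.cast_nonneg _) hNa)).1 h1
    have h3 := mul_le_mul_of_nonneg_right h2 (by positivity : (0 : ℝ) ≤ 2 ^ (n / 2))
    calc kpn n * ((1 - θ) ^ n * P) = Real.pi ^ (n / 2) * ((1 - θ) ^ n * P) * 2 ^ (n / 2) := by
          rw [← hkp]
          ring
      _ ≤ _ := h3
      _ = (T.ncard : ℝ) * (Ideal.absNorm 𝔞 * Real.sqrt (dd F)) *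
          ((1 / 2) ^ (n / 2) * 2 ^ (n / 2)) := by ring
      _ = _ := by rw [h22, mul_one]
  -- upper bound
  have hupp : (T.ncard : ℝ) * (Ideal.absNorm 𝔞 * Real.sqrt (dd F)) ≤ kpn n * ((1 + θ) ^ n * P) := by
    obtain ⟨hm, hv⟩ := sbc_vol n F hF t ht (1 + θ) (by linarith)
    have h1 := crb_upper MeasureTheory.volume L D hD B hRad (mixedEmbedding F (v : F)) S
      (PD F 0 (fun w => (1 + θ) * t w)) hm (fun x hx y hy w => by
        have h2 := hx w
        have h3 := hy w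
        rw [sbc_z] at h2 h3
        rw [sbc_z, sbc_add]
        refine (norm_add_le _ _).trans ?_
        linarith) hfin.toFinset (fun x hx => hfin.mem_toFinset.1 hx)
    rw [hv, hDvol, ← Set.ncard_eq_toFinset_card _ hfin, hcard, hcast,
      ← ENNReal.ofReal_mul (Nat.cast_nonneg _), ← hPd] at h1
    have h2 := (ENNReal.ofReal_le_ofReal_iff (by
      have : 0 ≤ 1 + θ := by linarith
      have := Real.pi_pos
      have : 0 ≤ P := by rw [hPd]; exact hP.le
      positivity)).1 h1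
    have h3 := mul_le_mul_of_nonneg_right h2 (by positivity : (0 : ℝ) ≤ 2 ^ (n / 2))
    calc (T.ncard : ℝ) * (Ideal.absNorm 𝔞 * Real.sqrt (dd F))
        = (T.ncard : ℝ) * (Ideal.absNorm 𝔞 * Real.sqrt (dd F)) *
          ((1 / 2) ^ (n / 2) * 2 ^ (n / 2)) := by rw [h22, mul_one]
      _ = (T.ncard : ℝ) * ((Ideal.absNorm 𝔞 : ℝ) * (1 / 2) ^ (n / 2) * Real.sqrt (dd F)) *
          2 ^ (n / 2) := by ring
      _ ≤ _ := h3
      _ = kpn n * ((1 + θ) ^ n * P) := by
          rw [← hkp]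
          ring
  obtain ⟨hp1, hp2⟩ := box_pow n 1 θ hθ hθ1
  rw [one_pow, one_pow, one_mul] at hp1 hp2
  have hP0 : 0 < P := by rw [hPd]; exact hP
  have hkP : 0 ≤ kpn n * P := by positivity
  have hp1' := mul_le_mul_of_nonneg_left hp1 hkP
  have hp2' := mul_le_mul_of_nonneg_left hp2 hkP
  have hfinal : kpn n * P * (n * 2 ^ n * θ) ≤ (C₀ + kpn n * (n * 2 ^ n)) * (θ * P) := by
    have h1 : 0 ≤ C₀ * (θ * P) := by positivity
    nlinarith
  rw [← hPd, abs_le]
  constructor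
  · rw [mul_sub] at hp2'
    linarith
  · rw [mul_sub] at hp1'
    linarith

end H1.LS4
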