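import Pool.Agent.H1.LS4.Un2
import Pool.Agent.H1.LS4.Sbc

/-!
# [H1 LS4 HRB] Class number times volume of the unit lattice (70-110 lines)

Claim: `h vol(DU F) ≤ C dd^A w_F`. Let `M = exp q₀ := C₁ dd^A₁ 2^n` with `C₁, A₁` from `sbc` (enlarged: `C₁ ≥ (kpn n)⁻¹ 4`...). For each
class `j` take `q = q₀ + log N(s j)`, so `PN F (rad y q) = M N(s j)` (`rad_prod`). `sbc` with `𝔞 = s j`, `v = 0`, `t = rad y q`, `θ` a
small constant (`θ = min 1 (kpn n / (2 C₁))`, and `M` is chosen with `C₁ dd^A₁ ≤ θ^n M`): the number of `α ∈ s j` (with `0`) in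
the box is at least `kpn n M / (2 √dd)`; without `0` at least `kpn n M / (4 √dd)` (`M ≥ 4 dd / kpn n`). Integrate over
`DU F` (`un2` with `g = 1`; take the real part, or norms: `∫ (card : ℂ)` is real), sum over the classes:
`h vDU (kpn n M / (4 √dd)) ≤ w_F ∑_j ∑_{I ∈ cls (s j) M} smp (q₀ - log N I)^(lrk F) ≤ w_F smp(lrk F) (log M)^(lrk F) #IN F M`
(every `I` is in exactly one `cls (s j) M`; `q - log N(s j) - log N I = log M - log N I ≤ log M`; `N I ≥ 1`). And
`#IN F M ≤ M ∑_{N I ≤ M} 1/N I ≤ M C₂ (log M)^n` (`H57.TLS.har`, `M ≥ 2`). So `h vDU ≤ w_F C₃ √dd (log M)^(2n)` and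
`log M ≤ C₄ dd` (`Real.log_le_sub_one_of_pos` / `Real.add_one_le_exp`; `M` is `C dd^A₁`). `lrk F + 1 = n / 2` depends only on `n`
(`lrk_succ`), so `smp (lrk F) = smp (n / 2 - 1)` is a constant.
-/

set_option autoImplicit false

open scoped NumberField Classical
open NumberField NumberField.Units NumberField.Units.dirichletUnitTheorem H63.MA H36.QA H57.TLS MeasureTheory

noncomputable section

namespace H1.LS4

/-- each class contributes at most once -/
private theorem hrb_cls (F : Type) [Field F] [NumberField F] {h : ℕ} {s : Fin h → Ideal (𝓞 F)} (hs : Reps F h s)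
    {M : ℝ} (hM : 0 ≤ M) : ∑ j, (((cls (s j) M).card : ℕ) : ℝ) ≤ (((IN F M).card : ℕ) : ℝ) := by
  have h1 : ∀ j, (((cls (s j) M).card : ℕ) : ℝ) = ∑ I ∈ IN F M, if (I * s j).IsPrincipal then (1 : ℝ) else 0 := by
    intro j
    unfold cls
    rw [Finset.card_filter]
    push_cast
    rfl
  rw [Finset.sum_congr rfl fun j _ => h1 j, Finset.sum_comm]
  have h2 : ∀ I ∈ IN F M, (∑ j, if (I * s j).IsPrincipal then (1 : ℝ) else 0) ≤ 1 := by
    intro I hI
    have hI0 : I ≠ ⊥ := ((mem_IN hM).1 hI).2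
    obtain ⟨j₀, hj₀, huniq⟩ := hs.2.2 I hI0
    have h3 : (∑ j, if (I * s j).IsPrincipal then (1 : ℝ) else 0) ≤ ∑ j, if j = j₀ then (1 : ℝ) else 0 := by
      apply Finset.sum_le_sum
      intro j _
      by_cases hj : (I * s j).IsPrincipal
      · rw [if_pos hj, if_pos (huniq j hj)]
      · rw [if_neg hj]
        split_ifs <;> norm_num
    refine h3.trans (le_of_eq ?_)
    rw [Finset.sum_ite_eq' Finset.univ j₀ (fun _ => (1 : ℝ)), if_pos (Finset.mem_univ _)]
  refine (Finset.sum_le_sum h2).trans (le_of_eq ?_)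
  rw [Finset.sum_const, nsmul_eq_mul, mul_one]

/-- the number of the ideals of bounded norm -/
private theorem hrb_IN (F : Type) [Field F] [NumberField F] {M : ℝ} (hM : 0 ≤ M) :
    (((IN F M).card : ℕ) : ℝ) ≤ M * ∑ 𝔫 ∈ IN F M, (1 : ℝ) / Ideal.absNorm 𝔫 := by
  rw [Finset.mul_sum, ← mul_one ((((IN F M).card : ℕ) : ℝ)), ← nsmul_eq_mul, ← Finset.sum_const]
  apply Finset.sum_le_sum
  intro I hI
  obtain ⟨h1, h2⟩ := (mem_IN hM).1 hI
  have h3 : (0 : ℝ) < Ideal.absNorm I := by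
    have : 0 < Ideal.absNorm I := Nat.pos_of_ne_zero fun h0 => h2 (Ideal.absNorm_eq_zero_iff.1 h0)
    exact_mod_cast this
  rw [mul_one_div, le_div_iff₀ h3, one_mul]
  exact h1

/-- the lower bound for the number of points of the box -/
private theorem hrb_low {n : ℕ} {F : Type} [Field F] [NumberField F] {𝔞 : Ideal (𝓞 F)} (h𝔞 : 𝔞 ≠ ⊥)
    {t : InfinitePlace F → ℝ} {C₁ θ M : ℝ} (hθ : C₁ * θ ≤ kpn n / 2) (hM0 : 0 < M)
    (hPN : PN F t = M * Ideal.absNorm 𝔞) (hMd : 4 * dd F ≤ kpn n * M)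
    (h : |(({α : 𝓞 F | α - 0 ∈ 𝔞 ∧ BxF t α}.ncard : ℕ) : ℝ) * (Ideal.absNorm 𝔞 * Real.sqrt (dd F)) - kpn n * PN F t| ≤
        C₁ * (θ * PN F t)) :
    kpn n * M / (4 * Real.sqrt (dd F)) ≤ (((bxf 𝔞 t).card : ℕ) : ℝ) := by
  have hdd : 1 ≤ dd F := one_le_dd F
  have hN : (0 : ℝ) < Ideal.absNorm 𝔞 := by
    have : 0 < Ideal.absNorm 𝔞 := Nat.pos_of_ne_zero fun h0 => h𝔞 (Ideal.absNorm_eq_zero_iff.1 h0)
    exact_mod_cast this
  have hs1 : 1 ≤ Real.sqrt (dd F) := Real.one_le_sqrt.2 hdd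
  have hs2 : Real.sqrt (dd F) ≤ dd F := by
    have h2 := Real.mul_self_sqrt (le_trans zero_le_one hdd)
    nlinarith
  have hcard : (({α : 𝓞 F | α - 0 ∈ 𝔞 ∧ BxF t α}.ncard : ℕ) : ℝ) ≤ (((bxf 𝔞 t).card : ℕ) : ℝ) + 1 := by
    have h1 : {α : 𝓞 F | α - 0 ∈ 𝔞 ∧ BxF t α} ⊆ ((insert 0 (bxf 𝔞 t) : Finset (𝓞 F)) : Set (𝓞 F)) := by
      rintro α ⟨h1, h2⟩
      rw [sub_zero] at h1
      rw [Finset.mem_coe, Finset.mem_insert]
      by_cases h3 : α = 0
      · exact Or.inl h3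
      · exact Or.inr (mem_bxf.2 ⟨h1, h3, h2⟩)
    have h2 := Set.ncard_le_ncard h1 (Finset.finite_toSet _)
    rw [Set.ncard_coe_finset] at h2
    have h3 := h2.trans (Finset.card_insert_le 0 (bxf 𝔞 t))
    exact_mod_cast h3
  rw [hPN] at h
  have h1 := (abs_le.1 h).1
  set c := (({α : 𝓞 F | α - 0 ∈ 𝔞 ∧ BxF t α}.ncard : ℕ) : ℝ) with hc
  set b := (((bxf 𝔞 t).card : ℕ) : ℝ) with hb
  set N := (Ideal.absNorm 𝔞 : ℝ) with hNN
  set r := Real.sqrt (dd F) with hr
  have hMN : 0 < M * N := mul_pos hM0 hN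
  have h2 : kpn n / 2 * (M * N) ≤ c * (N * r) := by
    have h3 : C₁ * (θ * (M * N)) ≤ kpn n / 2 * (M * N) := by
      have := mul_le_mul_of_nonneg_right hθ hMN.le
      nlinarith
    nlinarith
  have h3 : kpn n / 2 * M ≤ c * r := by
    have h4 : N * (kpn n / 2 * M) ≤ N * (c * r) := by nlinarith
    exact le_of_mul_le_mul_left h4 hN
  have h4 : kpn n / 2 * M ≤ (b + 1) * r := h3.trans (mul_le_mul_of_nonneg_right hcard (by linarith))
  have hr0 : 0 < r := by linarith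
  rw [div_le_iff₀ (by positivity)]
  nlinarith

theorem hrb (n : ℕ) (hn : 0 < n) : ∃ C : ℝ, 1 ≤ C ∧ ∃ A : ℕ, ∀ (F : Type) [Field F] [NumberField F], TC F n →
    ∀ (h : ℕ) (s : Fin h → Ideal (𝓞 F)), Reps F h s → (h : ℝ) * vDU F ≤ C * dd F ^ A * torsionOrder F := by
  obtain ⟨C₁, hC₁, A₁, hsbc⟩ := sbc n hn
  obtain ⟨C₂, hC₂, hhar⟩ := har n hn
  have hk : 0 < kpn n := kpn_pos n
  obtain ⟨θ, hθ⟩ : ∃ θ : ℝ, θ = min 1 (kpn n / (2 * C₁)) := ⟨_, rfl⟩
  have hC₁0 : 0 < C₁ := by linarith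
  have hθ0 : 0 < θ := by
    rw [hθ]
    exact lt_min one_pos (by positivity)
  have hθ1 : θ ≤ 1 := by
    rw [hθ]
    exact min_le_left _ _
  have hθ2 : C₁ * θ ≤ kpn n / 2 := by
    have h1 : θ ≤ kpn n / (2 * C₁) := by
      rw [hθ]
      exact min_le_right _ _
    have h2 := mul_le_mul_of_nonneg_left h1 hC₁0.le
    have h3 : C₁ * (kpn n / (2 * C₁)) = kpn n / 2 := by field_simp
    linarith
  obtain ⟨K, hK⟩ : ∃ K : ℝ, K = 2 + C₁ / θ ^ n + 4 / kpn n := ⟨_, rfl⟩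
  have hKa : 0 < C₁ / θ ^ n := by positivity
  have hKb : 0 < 4 / kpn n := by positivity
  have hK2 : 2 ≤ K := by linarith
  have hK0 : 0 < K := by linarith
  have hKθ : C₁ ≤ θ ^ n * K := by
    have h1 : θ ^ n * (C₁ / θ ^ n) = C₁ := by
      have : θ ^ n ≠ 0 := (pow_pos hθ0 n).ne'
      field_simp
    have h2 : θ ^ n * (C₁ / θ ^ n) ≤ θ ^ n * K := mul_le_mul_of_nonneg_left (by linarith) (pow_pos hθ0 n).le
    linarith
  have hKk : 4 ≤ kpn n * K := by
    have h1 : kpn n * (4 / kpn n) = 4 := by field_simp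
    have h2 : kpn n * (4 / kpn n) ≤ kpn n * K := mul_le_mul_of_nonneg_left (by linarith) hk.le
    linarith
  obtain ⟨C₄, hC₄⟩ : ∃ C₄ : ℝ, C₄ = K + A₁ + 1 := ⟨_, rfl⟩
  have hC₄0 : 0 < C₄ := by
    rw [hC₄]
    positivity
  obtain ⟨r, hr⟩ : ∃ r : ℕ, r = n / 2 - 1 := ⟨_, rfl⟩
  have hsm : 0 < smp r := smp_pos r
  obtain ⟨C₅, hC₅⟩ : ∃ C₅ : ℝ, C₅ = smp r * C₂ * C₄ ^ (r + n) * (4 / kpn n) := ⟨_, rfl⟩
  have hC₅0 : 0 < C₅ := by
    rw [hC₅]
    positivity
  refine ⟨1 + C₅, by linarith, r + n + 1, ?_⟩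
  intro F _ _ hF h s hs
  have hlr : lrk F = r := by
    have := lrk_succ hF
    omega
  have hdd : 1 ≤ dd F := one_le_dd F
  have hdd0 : 0 < dd F := by linarith
  obtain ⟨M, hM⟩ : ∃ M : ℝ, M = K * dd F ^ (A₁ + 1) := ⟨_, rfl⟩
  have hpA : 1 ≤ dd F ^ A₁ := one_le_pow₀ hdd
  have hpA1 : dd F ^ (A₁ + 1) = dd F ^ A₁ * dd F := pow_succ _ _
  have hpge : dd F ^ A₁ ≤ dd F ^ (A₁ + 1) := by
    rw [hpA1]
    nlinarith
  have hpge' : dd F ≤ dd F ^ (A₁ + 1) := by
    rw [hpA1]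
    nlinarith
  have hM2 : 2 ≤ M := by
    rw [hM]
    nlinarith
  have hM0 : 0 < M := by linarith
  have hMθ : C₁ * dd F ^ A₁ ≤ θ ^ n * M := by
    rw [hM]
    calc C₁ * dd F ^ A₁ ≤ (θ ^ n * K) * dd F ^ (A₁ + 1) :=
          mul_le_mul hKθ hpge (by positivity) (by positivity)
      _ = θ ^ n * (K * dd F ^ (A₁ + 1)) := by ring
  have hMd : 4 * dd F ≤ kpn n * M := by
    rw [hM]
    calc 4 * dd F ≤ (kpn n * K) * dd F ^ (A₁ + 1) := mul_le_mul hKk hpge' (by positivity) (by positivity)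
      _ = kpn n * (K * dd F ^ (A₁ + 1)) := by ring
  have hlogM0 : 0 ≤ Real.log M := Real.log_nonneg (by linarith)
  have hlogM : Real.log M ≤ C₄ * dd F := by
    have h1 : Real.log M = Real.log K + ((A₁ + 1 : ℕ) : ℝ) * Real.log (dd F) := by
      rw [hM, Real.log_mul hK0.ne' (pow_pos hdd0 _).ne', Real.log_pow]
    have h2 : Real.log K ≤ K := (Real.log_le_sub_one_of_pos hK0).trans (by linarith)
    have h3 : Real.log (dd F) ≤ dd F := (Real.log_le_sub_one_of_pos hdd0).trans (by linarith)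
    have h4 : ((A₁ + 1 : ℕ) : ℝ) * Real.log (dd F) ≤ ((A₁ + 1 : ℕ) : ℝ) * dd F :=
      mul_le_mul_of_nonneg_left h3 (Nat.cast_nonneg _)
    rw [h1, hC₄]
    push_cast at h4 ⊢
    nlinarith
  -- one class
  have hone : ∀ j : Fin h, vDU F * (kpn n * M / (4 * Real.sqrt (dd F))) ≤
      torsionOrder F * (smp r * Real.log M ^ r) * (((cls (s j) M).card : ℕ) : ℝ) := by
    intro j
    have hsj : s j ≠ ⊥ := hs.2.1 j
    have hN : (0 : ℝ) < Ideal.absNorm (s j) := by
      have : 0 < Ideal.absNorm (s j) := Nat.pos_of_ne_zero fun h0 => hsj (Ideal.absNorm_eq_zero_iff.1 h0)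
      exact_mod_cast this
    obtain ⟨q, hq⟩ : ∃ q : ℝ, q = Real.log M + Real.log (Ideal.absNorm (s j)) := ⟨_, rfl⟩
    have hexp : Real.exp q = M * Ideal.absNorm (s j) := by
      rw [hq, Real.exp_add, Real.exp_log hM0, Real.exp_log hN]
    have hlow : ∀ y : logSpace F, kpn n * M / (4 * Real.sqrt (dd F)) ≤ (((bxf (s j) (rad y q)).card : ℕ) : ℝ) := by
      intro y
      have hPN : PN F (rad y q) = M * Ideal.absNorm (s j) := by rw [rad_prod hF, hexp]
      refine hrb_low hsj hθ2 hM0 hPN hMd ?_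
      refine hsbc F hF (s j) hsj (rad y q) (fun w => rad_pos y q w) θ hθ0 hθ1 ?_ 0
      rw [hPN]
      calc C₁ * dd F ^ A₁ * Ideal.absNorm (s j) ≤ (θ ^ n * M) * Ideal.absNorm (s j) :=
            mul_le_mul_of_nonneg_right hMθ hN.le
        _ = θ ^ n * (M * Ideal.absNorm (s j)) := by ring
    have h1 := un2 hF (s j) hsj q (fun _ => (1 : ℂ))
    have h2 := un2_int hF (s j) hsj q (fun _ => (1 : ℂ))
    have hfun : (fun y : logSpace F => ∑ α ∈ bxf (s j) (rad y q), (1 : ℂ)) =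
        fun y => ((((bxf (s j) (rad y q)).card : ℕ) : ℝ) : ℂ) := by
      funext y
      rw [Finset.sum_const, nsmul_eq_mul, mul_one]
      push_cast
      rfl
    have h3 : IntegrableOn (fun y : logSpace F => (((bxf (s j) (rad y q)).card : ℕ) : ℝ)) (DU F) := by
      have h4 : IntegrableOn (fun y : logSpace F => ((((bxf (s j) (rad y q)).card : ℕ) : ℝ) : ℂ)) (DU F) := by
        rw [← hfun]
        exact h2
      have h5 := h4.re
      refine h5.congr (Filter.Eventually.of_forall fun y => ?_)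
      simp
    have h4 : ∫ y in DU F, (((bxf (s j) (rad y q)).card : ℕ) : ℝ) =
        torsionOrder F * ∑ I ∈ cls (s j) M,
          (smp (lrk F) * (q - Real.log (Ideal.absNorm (s j)) - Real.log (Ideal.absNorm I)) ^ lrk F : ℝ) := by
      apply Complex.ofReal_injective
      rw [← integral_complex_ofReal]
      have h5 : Real.exp q / Ideal.absNorm (s j) = M := by
        rw [hexp]
        field_simp
      rw [h5] at h1
      have h6 : ∫ y in DU F, ((((bxf (s j) (rad y q)).card : ℕ) : ℝ) : ℂ) =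
          ∫ y in DU F, ∑ α ∈ bxf (s j) (rad y q), (1 : ℂ) := by
        rw [hfun]
      rw [h6]
      refine h1.trans ?_
      push_cast
      congr 1
      refine Finset.sum_congr rfl fun I _ => ?_
      rw [one_mul]
    have h5 : vDU F * (kpn n * M / (4 * Real.sqrt (dd F))) ≤ ∫ y in DU F, (((bxf (s j) (rad y q)).card : ℕ) : ℝ) := by
      have h6 : ∫ _ in DU F, (kpn n * M / (4 * Real.sqrt (dd F))) = vDU F * (kpn n * M / (4 * Real.sqrt (dd F))) := by
        rw [setIntegral_const, smul_eq_mul]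
        rfl
      rw [← h6]
      refine setIntegral_mono (integrableOn_const DU_fin) h3 fun y => hlow y
    refine h5.trans ?_
    rw [h4, mul_assoc]
    refine mul_le_mul_of_nonneg_left ?_ (Nat.cast_nonneg _)
    have h7 : ∀ I ∈ cls (s j) M,
        (smp (lrk F) * (q - Real.log (Ideal.absNorm (s j)) - Real.log (Ideal.absNorm I)) ^ lrk F : ℝ) ≤
        smp r * Real.log M ^ r := by
      intro I hI
      unfold cls at hI
      rw [Finset.mem_filter, mem_IN hM0.le] at hI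
      have hNI : (1 : ℝ) ≤ Ideal.absNorm I := by
        have : 1 ≤ Ideal.absNorm I := Nat.pos_of_ne_zero fun h0 => hI.1.2 (Ideal.absNorm_eq_zero_iff.1 h0)
        exact_mod_cast this
      have hl1 : 0 ≤ Real.log (Ideal.absNorm I) := Real.log_nonneg hNI
      have hl2 : Real.log (Ideal.absNorm I) ≤ Real.log M := Real.log_le_log (by linarith) hI.1.1
      rw [hlr]
      refine mul_le_mul_of_nonneg_left (pow_le_pow_left₀ ?_ ?_ r) hsm.le
      · rw [hq]
        linarith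
      · rw [hq]
        linarith
    refine (Finset.sum_le_sum h7).trans (le_of_eq ?_)
    rw [Finset.sum_const, nsmul_eq_mul]
    ring
  -- sum over the classes
  have hsum : (h : ℝ) * (vDU F * (kpn n * M / (4 * Real.sqrt (dd F)))) ≤
      torsionOrder F * (smp r * Real.log M ^ r) * (M * (C₂ * Real.log M ^ n)) := by
    have h1 : (h : ℝ) * (vDU F * (kpn n * M / (4 * Real.sqrt (dd F)))) =
        ∑ _j : Fin h, vDU F * (kpn n * M / (4 * Real.sqrt (dd F))) := by
      rw [Finset.sum_const, Finset.card_univ, Fintype.card_fin, nsmul_eq_mul]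
    rw [h1]
    refine (Finset.sum_le_sum fun j _ => hone j).trans ?_
    rw [← Finset.mul_sum]
    refine mul_le_mul_of_nonneg_left ?_ (by positivity)
    refine (hrb_cls F hs hM0.le).trans ((hrb_IN F hM0.le).trans ?_)
    exact mul_le_mul_of_nonneg_left (hhar F hF.2 M hM2) hM0.le
  have hs1 : 1 ≤ Real.sqrt (dd F) := Real.one_le_sqrt.2 hdd
  have hs0 : 0 < Real.sqrt (dd F) := by linarith
  have hs2 : Real.sqrt (dd F) ≤ dd F := by
    have h2 := Real.mul_self_sqrt hdd0.le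
    nlinarith
  have hw : (0 : ℝ) ≤ torsionOrder F := Nat.cast_nonneg _
  have hfin1 : (h : ℝ) * vDU F ≤
      torsionOrder F * (smp r * C₂ * (4 / kpn n)) * Real.log M ^ (r + n) * Real.sqrt (dd F) := by
    have h1 : (h : ℝ) * (vDU F * (kpn n * M / (4 * Real.sqrt (dd F)))) =
        ((h : ℝ) * vDU F) * (kpn n * M / (4 * Real.sqrt (dd F))) := by ring
    rw [h1, ← le_div_iff₀ (by positivity)] at hsum
    refine hsum.trans (le_of_eq ?_)
    rw [pow_add]
    field_simp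
  refine hfin1.trans ?_
  have h8 : Real.log M ^ (r + n) ≤ (C₄ * dd F) ^ (r + n) := pow_le_pow_left₀ hlogM0 hlogM _
  calc torsionOrder F * (smp r * C₂ * (4 / kpn n)) * Real.log M ^ (r + n) * Real.sqrt (dd F)
      ≤ torsionOrder F * (smp r * C₂ * (4 / kpn n)) * (C₄ * dd F) ^ (r + n) * dd F := by
        refine mul_le_mul ?_ hs2 hs0.le (by positivity)
        exact mul_le_mul_of_nonneg_left h8 (by positivity)
    _ = C₅ * dd F ^ (r + n + 1) * torsionOrder F := by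
        rw [hC₅, mul_pow, pow_succ]
        ring
    _ ≤ (1 + C₅) * dd F ^ (r + n + 1) * torsionOrder F := by
        refine mul_le_mul_of_nonneg_right (mul_le_mul_of_nonneg_right (by linarith) (by positivity)) hw

end H1.LS4
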