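import Pool.Agent.H1.LS4.Odf

/-!
# [H1 LS4 HYP] The hyperbola method (100-150 lines, elementary)

`∑_{m n ≤ x} a(m) b(n) = ∑_{m ≤ √x} a(m) B(x/m) + ∑_{n ≤ √x} b(n) A(x/n) - A(√x) B(√x)`, `A = psum a`, `B = psum b`
(Mathlib: there may be a hyperbola lemma, search `sum_divisorsAntidiagonal`, `Nat.divisors`, `sum_Ioc_sum_divisors`; otherwise: the pairs
`(m, n)` with `m n ≤ x` have `m ≤ √x` or `n ≤ √x`). First two terms: `‖B(x/m)‖ ≤ D (x/m)^(1-δ)` (`x/m ≥ 1`), and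
`∑_{m ≤ √x} ‖a m‖ m^(-1+δ) ≤ (√x)^δ ∑_{m ≤ √x} ‖a m‖/m ≤ x^(δ/2) G (1 + log x)^k`; third term: `D^2 x^(1-δ)`. Together
`≤ (2 D G (1 + log x)^k x^(-δ/6) + D^2) x^(1-δ/3)`, and `(1 + log x)^k ≤ C x^(δ/6)` (`C` depends on `k`, `δ`; `Real.isLittleO_log_rpow_atTop`
or `1 + log x ≤ y⁻¹ x^y · const`: `Real.log_le_rpow_div`). `psum (dcv a b) x = ∑_{m n ≤ x} a(m) b(n)`.
Harmonic sums: `∑_{m ≤ x} ‖dcv a b m‖ / m ≤ ∑_{m, n ≤ x} ‖a m‖ ‖b n‖ / (m n) ≤ (G (1 + log x)^k)^2`.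
`Gd_mono`: `1 ≤ x^..`, `1 ≤ 1 + log x`.
-/

set_option autoImplicit false

open scoped NumberField Classical
open NumberField H63.MA H36.QA

noncomputable section

namespace H1.LS4

theorem Gd_mono {a : ℕ → ℂ} {D D' G G' δ δ' : ℝ} {k k' : ℕ} (h : Gd a D G k δ) (hD0 : 0 ≤ D) (hG0 : 0 ≤ G) (hD : D ≤ D')
    (hG : G ≤ G') (hk : k ≤ k') (hδ : δ' ≤ δ) : Gd a D' G' k' δ' := by
  refine ⟨fun x hx => ?_, fun x hx => ?_⟩
  · refine (h.1 x hx).trans ?_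
    have h1 : x ^ (1 - δ) ≤ x ^ (1 - δ') := Real.rpow_le_rpow_of_exponent_le hx (by linarith)
    exact mul_le_mul hD h1 (Real.rpow_nonneg (by linarith) _) (by linarith)
  · refine (h.2 x hx).trans ?_
    have h1 : (1 : ℝ) ≤ 1 + Real.log x := by
      have := Real.log_nonneg hx
      linarith
    exact mul_le_mul hG (pow_le_pow_right₀ h1 hk) (pow_nonneg (by linarith) _) (by linarith)

private theorem sqrt_le_self_aux {x : ℝ} (hx : 1 ≤ x) : Real.sqrt x ≤ x := by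
  rw [Real.sqrt_le_left (by linarith)]
  nlinarith

/-- the divisor sum as a sum over pairs -/
private theorem ds_pairs {R : Type} [AddCommMonoid R] (F : ℕ → ℕ → R) (N : ℕ) :
    ∑ m ∈ Finset.Icc 1 N, ∑ d ∈ m.divisors, F d (m / d) =
      ∑ p ∈ ((Finset.Icc 1 N) ×ˢ (Finset.Icc 1 N)).filter (fun p => p.1 * p.2 ≤ N), F p.1 p.2 := by
  have h1 : ∀ m ∈ Finset.Icc 1 N, ∑ d ∈ m.divisors, F d (m / d) =
      ∑ p ∈ ((Finset.Icc 1 N) ×ˢ (Finset.Icc 1 N)).filter (fun p => p.1 * p.2 = m), F p.1 p.2 := by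
    intro m hm
    rw [Finset.mem_Icc] at hm
    rw [← Nat.sum_divisorsAntidiagonal (f := F)]
    refine Finset.sum_congr ?_ (fun _ _ => rfl)
    ext ⟨n1, n2⟩
    simp only [Nat.mem_divisorsAntidiagonal, Finset.mem_filter, Finset.mem_product, Finset.mem_Icc]
    constructor
    · rintro ⟨h, hne⟩
      have p1 : 0 < n1 := Nat.pos_of_ne_zero (by rintro rfl; simp at h; omega)
      have p2 : 0 < n2 := Nat.pos_of_ne_zero (by rintro rfl; simp at h; omega)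
      refine ⟨⟨⟨p1, ?_⟩, ⟨p2, ?_⟩⟩, h⟩
      · exact ((Nat.le_mul_of_pos_right n1 p2).trans h.le).trans hm.2
      · exact ((Nat.le_mul_of_pos_left n2 p1).trans h.le).trans hm.2
    · rintro ⟨_, h⟩
      exact ⟨h, by omega⟩
  rw [Finset.sum_congr rfl h1]
  simp_rw [Finset.sum_filter]
  rw [Finset.sum_comm]
  refine Finset.sum_congr rfl (fun p hp => ?_)
  rw [Finset.mem_product, Finset.mem_Icc, Finset.mem_Icc] at hp
  rw [Finset.sum_ite_eq]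
  have h3 : 1 ≤ p.1 * p.2 := Nat.mul_pos hp.1.1 hp.2.1
  by_cases h4 : p.1 * p.2 ≤ N
  · rw [if_pos (Finset.mem_Icc.mpr ⟨h3, h4⟩), if_pos h4]
  · rw [if_neg (fun h => h4 (Finset.mem_Icc.mp h).2), if_neg h4]

/-- the part of the sum over the pairs with `m ≤ √x` -/
private theorem half_sum (a b : ℕ → ℂ) (x : ℝ) (hx : 1 ≤ x) :
    ∑ p ∈ (((Finset.Icc 1 ⌊x⌋₊) ×ˢ (Finset.Icc 1 ⌊x⌋₊)).filter (fun p => p.1 * p.2 ≤ ⌊x⌋₊)).filter
        (fun p => p.1 ≤ ⌊Real.sqrt x⌋₊), a p.1 * b p.2 =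
      ∑ m ∈ Finset.Icc 1 ⌊Real.sqrt x⌋₊, a m * psum b (x / m) := by
  have hx0 : 0 ≤ x := by linarith
  have hs : ⌊Real.sqrt x⌋₊ ≤ ⌊x⌋₊ := by
    apply Nat.floor_le_floor
    exact sqrt_le_self_aux hx
  unfold psum
  simp_rw [Finset.mul_sum]
  rw [Finset.sum_sigma']
  refine Finset.sum_bij' (fun p _ => ⟨p.1, p.2⟩) (fun p _ => (p.1, p.2)) ?_ ?_ ?_ ?_ ?_
  · rintro ⟨m, n⟩ h
    simp only [Finset.mem_filter, Finset.mem_product, Finset.mem_Icc, Finset.mem_sigma] at h ⊢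
    obtain ⟨⟨⟨⟨hm1, hm2⟩, ⟨hn1, hn2⟩⟩, hmn⟩, hms⟩ := h
    refine ⟨⟨hm1, hms⟩, hn1, ?_⟩
    rw [Nat.le_floor_iff (by positivity)]
    have hm0 : (0 : ℝ) < m := by exact_mod_cast hm1
    rw [le_div_iff₀ hm0]
    have h5 : ((m * n : ℕ) : ℝ) ≤ x := (Nat.le_floor_iff hx0).mp hmn
    push_cast at h5
    linarith [mul_comm (m : ℝ) n]
  · rintro ⟨m, n⟩ h
    simp only [Finset.mem_filter, Finset.mem_product, Finset.mem_Icc, Finset.mem_sigma] at h ⊢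
    obtain ⟨⟨hm1, hms⟩, hn1, hn2⟩ := h
    have hm0 : (0 : ℝ) < m := by exact_mod_cast hm1
    rw [Nat.le_floor_iff (by positivity), le_div_iff₀ hm0] at hn2
    have hmn : m * n ≤ ⌊x⌋₊ := by
      rw [Nat.le_floor_iff hx0]
      push_cast
      linarith [mul_comm (m : ℝ) n]
    refine ⟨⟨⟨⟨hm1, hms.trans hs⟩, ⟨hn1, ?_⟩⟩, hmn⟩, hms⟩
    exact (Nat.le_mul_of_pos_left n hm1).trans hmn
  · rintro ⟨m, n⟩ _
    rfl
  · rintro ⟨m, n⟩ _
    rfl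
  · rintro ⟨m, n⟩ _
    rfl

/-- the hyperbola identity -/
private theorem hyp_id (a b : ℕ → ℂ) (x : ℝ) (hx : 1 ≤ x) :
    psum (dcv a b) x = ∑ m ∈ Finset.Icc 1 ⌊Real.sqrt x⌋₊, a m * psum b (x / m) +
      ∑ m ∈ Finset.Icc 1 ⌊Real.sqrt x⌋₊, b m * psum a (x / m) - psum a (Real.sqrt x) * psum b (Real.sqrt x) := by
  have hx0 : 0 ≤ x := by linarith
  have hs : ⌊Real.sqrt x⌋₊ ≤ ⌊x⌋₊ := by
    apply Nat.floor_le_floor
    exact sqrt_le_self_aux hx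
  have hsq : Real.sqrt x * Real.sqrt x = x := Real.mul_self_sqrt hx0
  have e0 : psum (dcv a b) x = ∑ p ∈ ((Finset.Icc 1 ⌊x⌋₊) ×ˢ (Finset.Icc 1 ⌊x⌋₊)).filter (fun p => p.1 * p.2 ≤ ⌊x⌋₊),
      a p.1 * b p.2 := by
    unfold psum dcv
    exact ds_pairs (fun d e => a d * b e) ⌊x⌋₊
  rw [e0, ← half_sum a b x hx, ← half_sum b a x hx]
  set P := ((Finset.Icc 1 ⌊x⌋₊) ×ˢ (Finset.Icc 1 ⌊x⌋₊)).filter (fun p => p.1 * p.2 ≤ ⌊x⌋₊) with hP
  have e1 : ∑ p ∈ P.filter (fun p => p.1 ≤ ⌊Real.sqrt x⌋₊), b p.1 * a p.2 =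
      ∑ p ∈ P.filter (fun p => p.2 ≤ ⌊Real.sqrt x⌋₊), a p.1 * b p.2 := by
    refine Finset.sum_bij' (fun p _ => (p.2, p.1)) (fun p _ => (p.2, p.1)) ?_ ?_ ?_ ?_ ?_
    · rintro ⟨m, n⟩ h
      simp only [hP, Finset.mem_filter, Finset.mem_product, Finset.mem_Icc] at h ⊢
      exact ⟨⟨⟨h.1.1.2, h.1.1.1⟩, by rw [mul_comm]; exact h.1.2⟩, h.2⟩
    · rintro ⟨m, n⟩ h
      simp only [hP, Finset.mem_filter, Finset.mem_product, Finset.mem_Icc] at h ⊢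
      exact ⟨⟨⟨h.1.1.2, h.1.1.1⟩, by rw [mul_comm]; exact h.1.2⟩, h.2⟩
    · rintro ⟨m, n⟩ _
      rfl
    · rintro ⟨m, n⟩ _
      rfl
    · rintro ⟨m, n⟩ _
      exact mul_comm _ _
  have e2 : psum a (Real.sqrt x) * psum b (Real.sqrt x) =
      ∑ p ∈ P.filter (fun p => p.1 ≤ ⌊Real.sqrt x⌋₊ ∧ p.2 ≤ ⌊Real.sqrt x⌋₊), a p.1 * b p.2 := by
    unfold psum
    rw [Finset.sum_mul_sum, ← Finset.sum_product']
    refine Finset.sum_congr ?_ (fun _ _ => rfl)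
    ext ⟨m, n⟩
    simp only [hP, Finset.mem_filter, Finset.mem_product, Finset.mem_Icc]
    constructor
    · rintro ⟨⟨h1, h2⟩, ⟨h3, h4⟩⟩
      refine ⟨⟨⟨⟨h1, h2.trans hs⟩, ⟨h3, h4.trans hs⟩⟩, ?_⟩, h2, h4⟩
      rw [Nat.le_floor_iff hx0]
      have h5 : (m : ℝ) ≤ Real.sqrt x := (Nat.le_floor_iff (Real.sqrt_nonneg x)).mp h2
      have h6 : (n : ℝ) ≤ Real.sqrt x := (Nat.le_floor_iff (Real.sqrt_nonneg x)).mp h4
      push_cast
      calc (m : ℝ) * n ≤ Real.sqrt x * Real.sqrt x :=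
            mul_le_mul h5 h6 (Nat.cast_nonneg n) (Real.sqrt_nonneg x)
        _ = x := hsq
    · rintro ⟨⟨⟨⟨h1, _⟩, ⟨h3, _⟩⟩, _⟩, h2, h4⟩
      exact ⟨⟨h1, h2⟩, ⟨h3, h4⟩⟩
  rw [e1, e2]
  have e3 : P.filter (fun p => p.1 ≤ ⌊Real.sqrt x⌋₊) ∪ P.filter (fun p => p.2 ≤ ⌊Real.sqrt x⌋₊) = P := by
    ext ⟨m, n⟩
    simp only [Finset.mem_union, Finset.mem_filter]
    constructor
    · rintro (h | h)
      · exact h.1
      · exact h.1
    · intro h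
      by_cases h1 : m ≤ ⌊Real.sqrt x⌋₊
      · exact Or.inl ⟨h, h1⟩
      by_cases h2 : n ≤ ⌊Real.sqrt x⌋₊
      · exact Or.inr ⟨h, h2⟩
      exfalso
      simp only [hP, Finset.mem_filter, Finset.mem_product, Finset.mem_Icc] at h
      have h5 : Real.sqrt x < m := by
        rw [not_le, Nat.floor_lt (Real.sqrt_nonneg x)] at h1
        exact h1
      have h6 : Real.sqrt x < n := by
        rw [not_le, Nat.floor_lt (Real.sqrt_nonneg x)] at h2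
        exact h2
      have h7 : ((m * n : ℕ) : ℝ) ≤ x := (Nat.le_floor_iff hx0).mp h.2
      push_cast at h7
      have h8 : Real.sqrt x * Real.sqrt x < m * n := mul_lt_mul'' h5 h6 (Real.sqrt_nonneg x) (Real.sqrt_nonneg x)
      linarith
  have e4 : P.filter (fun p => p.1 ≤ ⌊Real.sqrt x⌋₊) ∩ P.filter (fun p => p.2 ≤ ⌊Real.sqrt x⌋₊) =
      P.filter (fun p => p.1 ≤ ⌊Real.sqrt x⌋₊ ∧ p.2 ≤ ⌊Real.sqrt x⌋₊) := by
    rw [← Finset.filter_and]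
  have e5 := Finset.sum_union_inter (s₁ := P.filter (fun p => p.1 ≤ ⌊Real.sqrt x⌋₊))
    (s₂ := P.filter (fun p => p.2 ≤ ⌊Real.sqrt x⌋₊)) (f := fun p : ℕ × ℕ => a p.1 * b p.2)
  rw [e3, e4] at e5
  rw [← e5]
  ring

/-- bound of one half of the hyperbola -/
private theorem half_bound (a b : ℕ → ℂ) (D G δ : ℝ) (k : ℕ) (hδ : 0 < δ) (hδ1 : δ ≤ 1) (hD : 1 ≤ D) (hG : 1 ≤ G)
    (ha : Gd a D G k δ) (hb : Gd b D G k δ) (x : ℝ) (hx : 1 ≤ x) :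
    ‖∑ m ∈ Finset.Icc 1 ⌊Real.sqrt x⌋₊, a m * psum b (x / m)‖ ≤
      D * G * (1 + Real.log x) ^ k * x ^ (1 - δ / 2) := by
  have hx0 : 0 < x := by linarith
  have hs1 : 1 ≤ Real.sqrt x := by
    rw [Real.one_le_sqrt]
    exact hx
  have hsx : Real.sqrt x ≤ x := sqrt_le_self_aux hx
  have hlog : Real.log (Real.sqrt x) ≤ Real.log x := Real.log_le_log (by linarith) hsx
  have hlog0 : 0 ≤ Real.log (Real.sqrt x) := Real.log_nonneg hs1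
  have h1 : ∀ m ∈ Finset.Icc 1 ⌊Real.sqrt x⌋₊, ‖a m * psum b (x / m)‖ ≤ (D * x ^ (1 - δ / 2)) * (‖a m‖ / m) := by
    intro m hm
    rw [Finset.mem_Icc] at hm
    have hm0 : (1 : ℝ) ≤ m := by exact_mod_cast hm.1
    have hm1 : (0 : ℝ) < m := by linarith
    have hms : (m : ℝ) ≤ Real.sqrt x := (Nat.le_floor_iff (Real.sqrt_nonneg x)).mp hm.2
    have hxm : 1 ≤ x / m := by
      rw [le_div_iff₀ hm1]
      linarith
    have h2 := hb.1 (x / m) hxm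
    have h3 : (x / m) ^ (1 - δ) ≤ x ^ (1 - δ / 2) / m := by
      rw [Real.div_rpow hx0.le hm1.le]
      have h4 : (m : ℝ) ^ (1 - δ) = m / m ^ δ := by
        rw [Real.rpow_sub hm1, Real.rpow_one]
      have h5 : (m : ℝ) ^ δ ≤ x ^ (δ / 2) := by
        calc (m : ℝ) ^ δ ≤ (Real.sqrt x) ^ δ := Real.rpow_le_rpow hm1.le hms hδ.le
          _ = x ^ (δ / 2) := by
            rw [Real.sqrt_eq_rpow, ← Real.rpow_mul hx0.le]
            congr 1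
            ring
      have h6 : x ^ (1 - δ / 2) = x ^ (1 - δ) * x ^ (δ / 2) := by
        rw [← Real.rpow_add hx0]
        congr 1
        ring
      rw [h4, h6, div_div_eq_mul_div]
      apply div_le_div_of_nonneg_right _ hm1.le
      exact mul_le_mul_of_nonneg_left h5 (Real.rpow_nonneg hx0.le _)
    rw [norm_mul]
    calc ‖a m‖ * ‖psum b (x / m)‖ ≤ ‖a m‖ * (D * (x ^ (1 - δ / 2) / m)) := by
          apply mul_le_mul_of_nonneg_left _ (norm_nonneg _)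
          exact h2.trans (mul_le_mul_of_nonneg_left h3 (by linarith))
      _ = (D * x ^ (1 - δ / 2)) * (‖a m‖ / m) := by ring
  calc ‖∑ m ∈ Finset.Icc 1 ⌊Real.sqrt x⌋₊, a m * psum b (x / m)‖
      ≤ ∑ m ∈ Finset.Icc 1 ⌊Real.sqrt x⌋₊, ‖a m * psum b (x / m)‖ := norm_sum_le _ _
    _ ≤ ∑ m ∈ Finset.Icc 1 ⌊Real.sqrt x⌋₊, (D * x ^ (1 - δ / 2)) * (‖a m‖ / m) := Finset.sum_le_sum h1
    _ = (D * x ^ (1 - δ / 2)) * ∑ m ∈ Finset.Icc 1 ⌊Real.sqrt x⌋₊, ‖a m‖ / m := by rw [Finset.mul_sum]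
    _ ≤ (D * x ^ (1 - δ / 2)) * (G * (1 + Real.log (Real.sqrt x)) ^ k) := by
        apply mul_le_mul_of_nonneg_left (ha.2 _ hs1)
        exact mul_nonneg (by linarith) (Real.rpow_nonneg hx0.le _)
    _ ≤ (D * x ^ (1 - δ / 2)) * (G * (1 + Real.log x) ^ k) := by
        apply mul_le_mul_of_nonneg_left _ (mul_nonneg (by linarith) (Real.rpow_nonneg hx0.le _))
        apply mul_le_mul_of_nonneg_left _ (by linarith)
        exact pow_le_pow_left₀ (by linarith) (by linarith) _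
    _ = D * G * (1 + Real.log x) ^ k * x ^ (1 - δ / 2) := by ring

/-- powers of logarithms are small -/
private theorem log_pow_small (k : ℕ) (η : ℝ) (hη : 0 < η) :
    ∃ C : ℝ, 1 ≤ C ∧ ∀ x : ℝ, 1 ≤ x → (1 + Real.log x) ^ k ≤ C * x ^ η := by
  set y : ℝ := η / (k + 1) with hy
  have hk : (0 : ℝ) < k + 1 := by positivity
  have hy0 : 0 < y := div_pos hη hk
  refine ⟨(1 + 1 / y) ^ k, one_le_pow₀ (by have : 0 < 1 / y := by positivity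
                                           linarith), fun x hx => ?_⟩
  have hx0 : 0 < x := by linarith
  have hl : 0 ≤ Real.log x := Real.log_nonneg hx
  have h1 : Real.log x ≤ x ^ y / y := Real.log_le_rpow_div hx0.le hy0
  have h2 : (1 : ℝ) ≤ x ^ y := Real.one_le_rpow hx hy0.le
  have h3 : 1 + Real.log x ≤ (1 + 1 / y) * x ^ y := by
    calc 1 + Real.log x ≤ x ^ y + x ^ y / y := add_le_add h2 h1
      _ = (1 + 1 / y) * x ^ y := by ring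
  calc (1 + Real.log x) ^ k ≤ ((1 + 1 / y) * x ^ y) ^ k := pow_le_pow_left₀ (by linarith) h3 k
    _ = (1 + 1 / y) ^ k * (x ^ y) ^ k := mul_pow _ _ _
    _ ≤ (1 + 1 / y) ^ k * x ^ η := by
        apply mul_le_mul_of_nonneg_left _ (pow_nonneg (by positivity) _)
        rw [← Real.rpow_natCast, ← Real.rpow_mul hx0.le]
        apply Real.rpow_le_rpow_of_exponent_le hx
        rw [hy, div_mul_eq_mul_div, div_le_iff₀ hk]
        nlinarith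

/-- the harmonic sums of a convolution -/
private theorem harm (a b : ℕ → ℂ) (x : ℝ) :
    ∑ m ∈ Finset.Icc 1 ⌊x⌋₊, ‖dcv a b m‖ / m ≤
      (∑ m ∈ Finset.Icc 1 ⌊x⌋₊, ‖a m‖ / m) * ∑ m ∈ Finset.Icc 1 ⌊x⌋₊, ‖b m‖ / m := by
  calc ∑ m ∈ Finset.Icc 1 ⌊x⌋₊, ‖dcv a b m‖ / m
      ≤ ∑ m ∈ Finset.Icc 1 ⌊x⌋₊, ∑ d ∈ m.divisors, (‖a d‖ / d) * (‖b (m / d)‖ / ((m / d : ℕ) : ℝ)) := by
        refine Finset.sum_le_sum (fun m hm => ?_)
        rw [Finset.mem_Icc] at hm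
        have hm0 : (0 : ℝ) < m := by exact_mod_cast hm.1
        rw [div_le_iff₀ hm0]
        unfold dcv
        refine (norm_sum_le _ _).trans ?_
        rw [Finset.sum_mul]
        refine Finset.sum_le_sum (fun d hd => ?_)
        have hdm : d ∣ m := Nat.dvd_of_mem_divisors hd
        have hd0 : 0 < d := Nat.pos_of_mem_divisors hd
        have hq0 : 0 < m / d := Nat.div_pos (Nat.le_of_dvd hm.1 hdm) hd0
        have hd1 : (0 : ℝ) < d := by exact_mod_cast hd0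
        have hq1 : (0 : ℝ) < ((m / d : ℕ) : ℝ) := by exact_mod_cast hq0
        have hmq : (m : ℝ) = d * ((m / d : ℕ) : ℝ) := by
          rw [← Nat.cast_mul, Nat.mul_div_cancel' hdm]
        rw [norm_mul, hmq]
        apply le_of_eq
        field_simp
    _ = ∑ p ∈ ((Finset.Icc 1 ⌊x⌋₊) ×ˢ (Finset.Icc 1 ⌊x⌋₊)).filter (fun p => p.1 * p.2 ≤ ⌊x⌋₊),
          (‖a p.1‖ / p.1) * (‖b p.2‖ / (p.2 : ℝ)) :=
        ds_pairs (fun d e => (‖a d‖ / d) * (‖b e‖ / (e : ℝ))) ⌊x⌋₊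
    _ ≤ ∑ p ∈ (Finset.Icc 1 ⌊x⌋₊) ×ˢ (Finset.Icc 1 ⌊x⌋₊), (‖a p.1‖ / p.1) * (‖b p.2‖ / (p.2 : ℝ)) := by
        apply Finset.sum_le_sum_of_subset_of_nonneg (Finset.filter_subset _ _)
        intro p _ _
        positivity
    _ = (∑ m ∈ Finset.Icc 1 ⌊x⌋₊, ‖a m‖ / m) * ∑ m ∈ Finset.Icc 1 ⌊x⌋₊, ‖b m‖ / m := by
        rw [Finset.sum_product, Finset.sum_mul_sum]

theorem hyp (k : ℕ) (δ : ℝ) (hδ : 0 < δ) (hδ1 : δ ≤ 1) : ∃ C : ℝ, 1 ≤ C ∧ ∀ (a b : ℕ → ℂ) (D G : ℝ), 1 ≤ D → 1 ≤ G →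
    Gd a D G k δ → Gd b D G k δ → Gd (dcv a b) (C * (D ^ 2 * G ^ 2)) (G ^ 2) (2 * k) (δ / 3) := by
  obtain ⟨C, hC, hCx⟩ := log_pow_small k (δ / 6) (by linarith)
  refine ⟨2 * C + 1, by linarith, fun a b D G hD hG ha hb => ⟨fun x hx => ?_, fun x hx => ?_⟩⟩
  · have hx0 : 0 < x := by linarith
    have hs1 : 1 ≤ Real.sqrt x := by
      rw [Real.one_le_sqrt]
      exact hx
    rw [hyp_id a b x hx]
    have b1 := half_bound a b D G δ k hδ hδ1 hD hG ha hb x hx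
    have b2 := half_bound b a D G δ k hδ hδ1 hD hG hb ha x hx
    have b3 : ‖psum a (Real.sqrt x) * psum b (Real.sqrt x)‖ ≤ D ^ 2 * x ^ (1 - δ) := by
      rw [norm_mul]
      have c1 := ha.1 _ hs1
      have c2 := hb.1 _ hs1
      have c3 : (Real.sqrt x) ^ (1 - δ) * (Real.sqrt x) ^ (1 - δ) = x ^ (1 - δ) := by
        rw [← Real.mul_rpow (Real.sqrt_nonneg x) (Real.sqrt_nonneg x), Real.mul_self_sqrt hx0.le]
      calc ‖psum a (Real.sqrt x)‖ * ‖psum b (Real.sqrt x)‖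
          ≤ (D * (Real.sqrt x) ^ (1 - δ)) * (D * (Real.sqrt x) ^ (1 - δ)) :=
            mul_le_mul c1 c2 (norm_nonneg _) (mul_nonneg (by linarith) (Real.rpow_nonneg (Real.sqrt_nonneg x) _))
        _ = D ^ 2 * ((Real.sqrt x) ^ (1 - δ) * (Real.sqrt x) ^ (1 - δ)) := by ring
        _ = D ^ 2 * x ^ (1 - δ) := by rw [c3]
    have hl : (1 + Real.log x) ^ k * x ^ (1 - δ / 2) ≤ C * x ^ (1 - δ / 3) := by
      calc (1 + Real.log x) ^ k * x ^ (1 - δ / 2) ≤ (C * x ^ (δ / 6)) * x ^ (1 - δ / 2) :=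
            mul_le_mul_of_nonneg_right (hCx x hx) (Real.rpow_nonneg hx0.le _)
        _ = C * x ^ (1 - δ / 3) := by
            rw [mul_assoc, ← Real.rpow_add hx0]
            congr 2
            ring
    have hx3 : x ^ (1 - δ) ≤ x ^ (1 - δ / 3) := Real.rpow_le_rpow_of_exponent_le hx (by linarith)
    have hX : 0 ≤ x ^ (1 - δ / 3) := Real.rpow_nonneg hx0.le _
    have hDG : D * G ≤ D ^ 2 * G ^ 2 := by
      have : 1 ≤ D * G := one_le_mul_of_one_le_of_one_le hD hG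
      nlinarith
    have hDD : D ^ 2 ≤ D ^ 2 * G ^ 2 := by
      have : 1 ≤ G ^ 2 := one_le_pow₀ hG
      nlinarith [sq_nonneg D]
    have hb1 : D * G * (1 + Real.log x) ^ k * x ^ (1 - δ / 2) ≤ D ^ 2 * G ^ 2 * (C * x ^ (1 - δ / 3)) := by
      rw [mul_assoc (D * G)]
      exact mul_le_mul hDG hl (by
        have := Real.log_nonneg hx
        positivity) (by positivity)
    have hb3 : D ^ 2 * x ^ (1 - δ) ≤ D ^ 2 * G ^ 2 * x ^ (1 - δ / 3) :=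
      mul_le_mul hDD hx3 (Real.rpow_nonneg hx0.le _) (by positivity)
    refine (norm_sub_le _ _).trans ?_
    have b12 := (norm_add_le (∑ m ∈ Finset.Icc 1 ⌊Real.sqrt x⌋₊, a m * psum b (x / m))
      (∑ m ∈ Finset.Icc 1 ⌊Real.sqrt x⌋₊, b m * psum a (x / m)))
    calc _ ≤ (D ^ 2 * G ^ 2 * (C * x ^ (1 - δ / 3)) + D ^ 2 * G ^ 2 * (C * x ^ (1 - δ / 3))) +
          D ^ 2 * G ^ 2 * x ^ (1 - δ / 3) := by linarith
      _ = (2 * C + 1) * (D ^ 2 * G ^ 2) * x ^ (1 - δ / 3) := by ring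
  · refine (harm a b x).trans ?_
    have c1 := ha.2 x hx
    have c2 := hb.2 x hx
    have h0 : 0 ≤ ∑ m ∈ Finset.Icc 1 ⌊x⌋₊, ‖b m‖ / m :=
      Finset.sum_nonneg (fun m _ => div_nonneg (norm_nonneg _) (Nat.cast_nonneg m))
    have hl := Real.log_nonneg hx
    calc (∑ m ∈ Finset.Icc 1 ⌊x⌋₊, ‖a m‖ / m) * ∑ m ∈ Finset.Icc 1 ⌊x⌋₊, ‖b m‖ / m
        ≤ (G * (1 + Real.log x) ^ k) * (G * (1 + Real.log x) ^ k) :=
          mul_le_mul c1 c2 h0 (by positivity)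
      _ = G ^ 2 * (1 + Real.log x) ^ (2 * k) := by ring

end H1.LS4
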