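import Pool.Agent.H1.LS4.Asm
import Pool.Agent.H1.LS4.Dvb
import Pool.Agent.H1.LS4.Fdf
import Pool.Agent.H57.LI.Defs

/-!
# [H1 LS4 ICS] The sharp sum of a ray class character (unsmoothing, 100-150 lines)

Let `m = n / 2 - 1`, `W(M) = ∑_{I ∈ IN F M} χ(I) (log (M / N I))^m`; by `asm` `‖W(M)‖ ≤ D M^(1 - 1/n)` for all `M ≥ 1`,
`D = C (dd N𝔣)^A`. For `M ≥ 1` and `h := M^(-1/(2 n (m+1)))`, `0 < h ≤ 1`:
`∑_{j ≤ m} (-1)^(m-j) C(m,j) W(M e^(j h)) = ∑_{I, N I ≤ M e^(m h)} χ(I) fdf (log (M / N I)) h m`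
(`log (M e^(j h) / N I) = x_I + j h`, `x_I = log (M / N I)`; `I ∈ IN F (M e^(j h))` iff `0 ≤ x_I + j h`, `I ≠ ⊥`: use `tpw`), and by
`fdf_eq`, `fdf_le` the right side is `m! h^m ∑_{I ∈ IN F M} χ(I) + E`, `‖E‖ ≤ 2^m (m h)^m #{I : M < N I ≤ M e^(m h)}`. So
`‖∑_{I ∈ IN F M} χ(I)‖ ≤ (h^(-m) 2^m D (e^m M)^(1-1/n) + 2^m m^m #{M < N I ≤ M e^(m h)}) / m!`. Here `h^(-m) ≤ M^(1/(2n))`, and
`M e^(m h) ≤ M + C_m h M` (`e^x - 1 ≤ e^m x` for `0 ≤ x ≤ m`), split into at most `C_m` intervals of length `≤ M` or enlarge: `dvs` needs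
`H ≤ M`; use it `⌈e^m⌉` times, or take `H = e^m m h M` only if this is `≤ M`, and for the remaining bounded range of `M`
(`h ≥ 1/(m e^m)`, i.e. `M ≤ (m e^m)^(2n(m+1))`) the claim is trivial: `#IN F M ≤ ∑_{k ≤ M} C k ≤ C' M^2` is bounded by a constant
depending on `n` (`dvb` with `ε = 1`). With `ε = 1/(4 n (m+1))` the count is at most `C (h M + 1) M^ε ≤ C M^(1 - 1/(4 n (m+1)))`. Take
`δ = 1/(4 n (m+1))` (`≤ 1/4`; `1 - 1/(2n) ≤ 1 - δ`). For `m = 0` (`n = 2`) `W` is already the sharp sum. `A` and `C` from `asm`, enlarged.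
-/

set_option autoImplicit false

open scoped NumberField Classical
open NumberField H63.MA H36.QA H57.TLS

noncomputable section

namespace H1.LS4

private theorem ics_norm {F : Type} [Field F] [NumberField F] {𝔣 : Ideal (𝓞 F)} (χ : RC F 𝔣)
    {I : Ideal (𝓞 F)} (hI : I ≠ ⊥) : ‖χ.χ I‖ ≤ 1 := by
  by_cases h : IsCoprime I 𝔣
  · rw [χ.norm_one I hI h]
  · rw [χ.zero_of I h, norm_zero]
    exact zero_le_one

private theorem ics_pos {F : Type} [Field F] [NumberField F] {I : Ideal (𝓞 F)} (hI : I ≠ ⊥) :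
    (1 : ℝ) ≤ Ideal.absNorm I := by
  have h : Ideal.absNorm I ≠ 0 := fun h => hI (Ideal.absNorm_eq_zero_iff.1 h)
  exact_mod_cast Nat.one_le_iff_ne_zero.2 h

/-- ideals with norm in `(M, M + K H]` -/
private theorem ics_cnt (n : ℕ) (hn : 0 < n) (ε : ℝ) (hε : 0 < ε) (K : ℕ) : ∃ C : ℝ, 1 ≤ C ∧
    ∀ (F : Type) [Field F] [NumberField F], Module.finrank ℚ F = n → ∀ M H : ℝ, 1 ≤ M → 0 ≤ H → H ≤ M →
      ∀ T : Finset (Ideal (𝓞 F)),
      (∀ I ∈ T, I ≠ ⊥ ∧ M < (Ideal.absNorm I : ℝ) ∧ (Ideal.absNorm I : ℝ) ≤ M + K * H) →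
      (T.card : ℝ) ≤ C * (H + 1) * M ^ ε := by
  obtain ⟨C, hC, hd⟩ := dvs n hn ε hε
  induction K with
  | zero =>
    refine ⟨1, le_rfl, fun F _ _ hF M H hM hH hHM T hT => ?_⟩
    have hT0 : T = ∅ := by
      rw [Finset.eq_empty_iff_forall_notMem]
      intro I hI
      obtain ⟨-, h1, h2⟩ := hT I hI
      simp only [Nat.cast_zero, zero_mul, add_zero] at h2
      linarith
    rw [hT0]
    simp only [Finset.card_empty, Nat.cast_zero]
    positivity
  | succ K ih =>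
    obtain ⟨C', hC', h'⟩ := ih
    refine ⟨C' + C * (1 + K) ^ ε, ?_, fun F _ _ hF M H hM hH hHM T hT => ?_⟩
    · have : 0 ≤ C * (1 + (K : ℝ)) ^ ε := by positivity
      linarith
    have hM0 : (0 : ℝ) < M := by linarith
    have hKH : 0 ≤ (K : ℝ) * H := by positivity
    have h1 := h' F hF M H hM hH hHM (T.filter fun I => (Ideal.absNorm I : ℝ) ≤ M + K * H)
      (fun I hI => by
        obtain ⟨hI1, hI2⟩ := Finset.mem_filter.1 hI
        exact ⟨(hT I hI1).1, (hT I hI1).2.1, hI2⟩)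
    have h2 := hd F hF (M + K * H) H (by linarith) hH (by linarith)
      (T.filter fun I => ¬ (Ideal.absNorm I : ℝ) ≤ M + K * H)
      (fun I hI => by
        obtain ⟨hI1, hI2⟩ := Finset.mem_filter.1 hI
        refine ⟨(hT I hI1).1, not_le.1 hI2, (hT I hI1).2.2.trans (le_of_eq ?_)⟩
        push_cast
        ring)
    have h3 : (M + K * H) ^ ε ≤ (1 + (K : ℝ)) ^ ε * M ^ ε := by
      rw [← Real.mul_rpow (by positivity) hM0.le]
      refine Real.rpow_le_rpow (by positivity) ?_ hε.le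
      have : (K : ℝ) * H ≤ K * M := mul_le_mul_of_nonneg_left hHM (by positivity)
      linarith
    have h4 : (T.card : ℝ) = ((T.filter fun I => (Ideal.absNorm I : ℝ) ≤ M + K * H).card : ℝ) +
        ((T.filter fun I => ¬ (Ideal.absNorm I : ℝ) ≤ M + K * H).card : ℝ) := by
      exact_mod_cast (Finset.card_filter_add_card_filter_not (s := T)
        (fun I => (Ideal.absNorm I : ℝ) ≤ M + K * H)).symm
    have h5 : C * (H + 1) * (M + K * H) ^ ε ≤ C * (H + 1) * ((1 + (K : ℝ)) ^ ε * M ^ ε) :=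
      mul_le_mul_of_nonneg_left h3 (by positivity)
    rw [h4]
    calc _ ≤ C' * (H + 1) * M ^ ε + C * (H + 1) * ((1 + (K : ℝ)) ^ ε * M ^ ε) :=
          add_le_add h1 (h2.trans h5)
      _ = (C' + C * (1 + (K : ℝ)) ^ ε) * (H + 1) * M ^ ε := by ring

/-- the `m`-th difference of the weighted sums -/
private theorem ics_diff {F : Type} [Field F] [NumberField F] {𝔣 : Ideal (𝓞 F)} (χ : RC F 𝔣) (m : ℕ) {M h : ℝ}
    (hM : 1 ≤ M) (hh : 0 ≤ h) :
    ∑ j ∈ Finset.range (m + 1), (((-1 : ℝ) ^ (m - j) * (m.choose j : ℝ) : ℝ) : ℂ) *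
      ∑ I ∈ IN F (M * Real.exp (j * h)), χ.χ I *
        ((Real.log (M * Real.exp (j * h) / Ideal.absNorm I) ^ m : ℝ) : ℂ) =
    ∑ I ∈ IN F (M * Real.exp (m * h)), χ.χ I *
      ((fdf (Real.log (M / Ideal.absNorm I)) h m : ℝ) : ℂ) := by
  have hM0 : (0 : ℝ) < M := by linarith
  have hj : ∀ j ∈ Finset.range (m + 1), ∑ I ∈ IN F (M * Real.exp (j * h)), χ.χ I *
        ((Real.log (M * Real.exp (j * h) / Ideal.absNorm I) ^ m : ℝ) : ℂ) =
      ∑ I ∈ IN F (M * Real.exp (m * h)), χ.χ I *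
        ((tpw m (Real.log (M / Ideal.absNorm I) + j * h) : ℝ) : ℂ) := by
    intro j hj
    have hjm : (j : ℝ) ≤ m := by exact_mod_cast Nat.lt_succ_iff.1 (Finset.mem_range.1 hj)
    have hpos : ∀ t : ℝ, 0 < M * Real.exp t := fun t => mul_pos hM0 (Real.exp_pos t)
    have hlog : ∀ I : Ideal (𝓞 F), I ≠ ⊥ → Real.log (M * Real.exp (j * h) / Ideal.absNorm I) =
        Real.log (M / Ideal.absNorm I) + j * h := by
      intro I hI
      have h1 : (0 : ℝ) < Ideal.absNorm I := lt_of_lt_of_le one_pos (ics_pos hI)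
      rw [Real.log_div (hpos _).ne' h1.ne', Real.log_div hM0.ne' h1.ne',
        Real.log_mul hM0.ne' (Real.exp_pos _).ne', Real.log_exp]
      ring
    have hsub : IN F (M * Real.exp (j * h)) ⊆ IN F (M * Real.exp (m * h)) := by
      intro I hI
      rw [mem_IN (hpos _).le] at hI ⊢
      refine ⟨hI.1.trans ?_, hI.2⟩
      exact mul_le_mul_of_nonneg_left (Real.exp_le_exp.2 (mul_le_mul_of_nonneg_right hjm hh)) hM0.le
    rw [← Finset.sum_subset hsub]
    · refine Finset.sum_congr rfl fun I hI => ?_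
      rw [mem_IN (hpos _).le] at hI
      have h1 := ics_pos hI.2
      rw [← hlog I hI.2, tpw, if_pos]
      exact Real.log_nonneg ((one_le_div (by linarith)).2 hI.1)
    · intro I hI hI'
      rw [mem_IN (hpos _).le] at hI hI'
      have h1 := ics_pos hI.2
      have h2 : M * Real.exp (j * h) < Ideal.absNorm I := by
        by_contra h3
        exact hI' ⟨not_lt.1 h3, hI.2⟩
      rw [← hlog I hI.2, tpw, if_neg, Complex.ofReal_zero, mul_zero]
      refine not_le.2 (Real.log_neg (div_pos (hpos _) (by linarith)) ?_)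
      rw [div_lt_one (by linarith)]
      exact h2
  rw [Finset.sum_congr rfl fun j hj' => by rw [hj j hj']]
  simp only [Finset.mul_sum]
  rw [Finset.sum_comm]
  refine Finset.sum_congr rfl fun I _ => ?_
  unfold fdf
  rw [Complex.ofReal_sum, Finset.mul_sum]
  refine Finset.sum_congr rfl fun j _ => ?_
  push_cast
  ring

theorem ics (n : ℕ) (hn : 0 < n) : H57.LI.ICS n := by
  obtain ⟨m, hm⟩ : ∃ m : ℕ, m = n / 2 - 1 := ⟨_, rfl⟩
  obtain ⟨C₁, hC₁, A, hasm⟩ := asm n hn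
  rw [← hm] at hasm
  have hn1 : (1 : ℝ) ≤ n := by exact_mod_cast hn
  have hn0 : (0 : ℝ) < n := by linarith
  have hm0 : (0 : ℝ) ≤ m := Nat.cast_nonneg m
  obtain ⟨δ, hδ⟩ : ∃ δ : ℝ, δ = 1 / (4 * n * (m + 1)) := ⟨_, rfl⟩
  have hδ0 : 0 < δ := by
    rw [hδ]
    positivity
  have hδn : δ ≤ 1 / (4 * n) := by
    rw [hδ]
    refine one_div_le_one_div_of_le (by positivity) ?_
    nlinarith
  have hδ4 : δ ≤ 1 / 4 := by
    refine hδn.trans (one_div_le_one_div_of_le (by norm_num) ?_)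
    linarith
  have hδm : 2 * δ * m ≤ 1 / (2 * n) := by
    rw [hδ]
    rw [show 2 * (1 / (4 * (n : ℝ) * (m + 1))) * m = (m / (m + 1)) * (1 / (2 * n)) by
      field_simp
      ring]
    have h1 : (m : ℝ) / (m + 1) ≤ 1 := by
      rw [div_le_one (by positivity)]
      linarith
    have h2 : (0 : ℝ) ≤ 1 / (2 * n) := by positivity
    nlinarith
  obtain ⟨K, hK⟩ : ∃ K : ℕ, K = ⌈(m : ℝ) * Real.exp m⌉₊ := ⟨_, rfl⟩
  have hKle : (m : ℝ) * Real.exp m ≤ K := by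
    rw [hK]
    exact Nat.le_ceil _
  obtain ⟨C₂, hC₂, hcnt⟩ := ics_cnt n hn δ hδ0 K
  refine ⟨2 ^ m * Real.exp m * C₁ + 2 ^ m * (m : ℝ) ^ m * (C₂ * 2), A, δ, ?_, hδ0, hδ4, ?_⟩
  · have h1 : (1 : ℝ) ≤ 2 ^ m := one_le_pow₀ (by norm_num)
    have h2 : (1 : ℝ) ≤ Real.exp m := Real.one_le_exp hm0
    have h3 : (1 : ℝ) ≤ 2 ^ m * Real.exp m * C₁ :=
      one_le_mul_of_one_le_of_one_le (one_le_mul_of_one_le_of_one_le h1 h2) hC₁
    have h4 : (0 : ℝ) ≤ 2 ^ m * (m : ℝ) ^ m * (C₂ * 2) := by positivity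
    linarith
  intro F _ _ hF 𝔣 h𝔣 χ hχ M hM
  have hM0 : (0 : ℝ) < M := by linarith
  have hD1 : (1 : ℝ) ≤ (dd F * Ideal.absNorm 𝔣) ^ A :=
    one_le_pow₀ (one_le_mul_of_one_le_of_one_le (one_le_dd F) (ics_pos h𝔣))
  obtain ⟨h, hh⟩ : ∃ h : ℝ, h = M ^ (-(2 * δ)) := ⟨_, rfl⟩
  have hh0 : 0 < h := by
    rw [hh]
    exact Real.rpow_pos_of_pos hM0 _
  have hh1 : h ≤ 1 := by
    rw [hh]
    exact Real.rpow_le_one_of_one_le_of_nonpos hM (by linarith)
  have hhM : h * M = M ^ (1 - 2 * δ) := by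
    rw [hh]
    nth_rw 2 [← Real.rpow_one M]
    rw [← Real.rpow_add hM0]
    congr 1
    ring
  have hhM1 : 1 ≤ h * M := by
    rw [hhM]
    exact Real.one_le_rpow hM (by linarith)
  have hhMle : h * M ≤ M := by nlinarith
  -- the weighted sums
  obtain ⟨D, hD⟩ : ∃ D : ℝ, D = C₁ * (dd F * Ideal.absNorm 𝔣) ^ A := ⟨_, rfl⟩
  have hD0 : 0 ≤ D := by
    rw [hD]
    positivity
  have hexpm : (1 : ℝ) ≤ Real.exp m := Real.one_le_exp hm0
  have hn1' : 0 ≤ 1 - 1 / (n : ℝ) := by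
    have : 1 / (n : ℝ) ≤ 1 := (div_le_one hn0).2 hn1
    linarith
  have hn2' : 1 - 1 / (n : ℝ) ≤ 1 := by
    have : 0 ≤ 1 / (n : ℝ) := by positivity
    linarith
  have hWj : ∀ j ∈ Finset.range (m + 1), ‖∑ I ∈ IN F (M * Real.exp (j * h)), χ.χ I *
      ((Real.log (M * Real.exp (j * h) / Ideal.absNorm I) ^ m : ℝ) : ℂ)‖ ≤
      D * (Real.exp m * M ^ (1 - 1 / (n : ℝ))) := by
    intro j hj
    have hjm : (j : ℝ) ≤ m := by exact_mod_cast Nat.lt_succ_iff.1 (Finset.mem_range.1 hj)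
    have hj0 : (0 : ℝ) ≤ j := Nat.cast_nonneg j
    have hjh : (j : ℝ) * h ≤ m := by nlinarith
    have h1 : 1 ≤ M * Real.exp (j * h) :=
      one_le_mul_of_one_le_of_one_le hM (Real.one_le_exp (by positivity))
    refine (hasm F hF 𝔣 h𝔣 χ hχ _ h1).trans ?_
    rw [← hD]
    refine mul_le_mul_of_nonneg_left ?_ hD0
    rw [Real.mul_rpow hM0.le (Real.exp_pos _).le, mul_comm]
    refine mul_le_mul_of_nonneg_right ?_ (by positivity)
    calc Real.exp (j * h) ^ (1 - 1 / (n : ℝ)) ≤ Real.exp m ^ (1 - 1 / (n : ℝ)) :=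
          Real.rpow_le_rpow (Real.exp_pos _).le (Real.exp_le_exp.2 hjh) hn1'
      _ ≤ Real.exp m ^ (1 : ℝ) := Real.rpow_le_rpow_of_exponent_le hexpm hn2'
      _ = Real.exp m := Real.rpow_one _
  have hL : ‖∑ j ∈ Finset.range (m + 1), (((-1 : ℝ) ^ (m - j) * (m.choose j : ℝ) : ℝ) : ℂ) *
      ∑ I ∈ IN F (M * Real.exp (j * h)), χ.χ I *
        ((Real.log (M * Real.exp (j * h) / Ideal.absNorm I) ^ m : ℝ) : ℂ)‖ ≤
      2 ^ m * (D * (Real.exp m * M ^ (1 - 1 / (n : ℝ)))) := by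
    refine (norm_sum_le _ _).trans ?_
    have h1 : ((2 : ℝ) ^ m) = ∑ j ∈ Finset.range (m + 1), (m.choose j : ℝ) := by
      exact_mod_cast (Nat.sum_range_choose m).symm
    rw [h1, Finset.sum_mul]
    refine Finset.sum_le_sum fun j hj => ?_
    rw [norm_mul]
    have h2 : ‖(((-1 : ℝ) ^ (m - j) * (m.choose j : ℝ) : ℝ) : ℂ)‖ = (m.choose j : ℝ) := by
      rw [Complex.norm_real, norm_mul, norm_pow, norm_neg, norm_one, one_pow, one_mul,
        Real.norm_of_nonneg (Nat.cast_nonneg _)]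
    rw [h2]
    exact mul_le_mul_of_nonneg_left (hWj j hj) (Nat.cast_nonneg _)
  rw [ics_diff χ m hM hh0.le] at hL
  -- the range of the sum
  have hposm : 0 < M * Real.exp (m * h) := mul_pos hM0 (Real.exp_pos _)
  have hsub : IN F M ⊆ IN F (M * Real.exp (m * h)) := by
    intro I hI
    rw [mem_IN hM0.le] at hI
    rw [mem_IN hposm.le]
    refine ⟨hI.1.trans ?_, hI.2⟩
    have h1 : 1 ≤ Real.exp (m * h) := Real.one_le_exp (by positivity)
    nlinarith
  rw [← Finset.sum_sdiff hsub] at hL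
  have hmain : ∑ I ∈ IN F M, χ.χ I * ((fdf (Real.log (M / Ideal.absNorm I)) h m : ℝ) : ℂ) =
      (((m.factorial : ℝ) * h ^ m : ℝ) : ℂ) * ∑ I ∈ IN F M, χ.χ I := by
    rw [Finset.mul_sum]
    refine Finset.sum_congr rfl fun I hI => ?_
    rw [mem_IN hM0.le] at hI
    have h1 := ics_pos hI.2
    rw [fdf_eq m _ h (Real.log_nonneg ((one_le_div (by linarith)).2 hI.1)) hh0.le, mul_comm]
  have hE : ‖∑ I ∈ IN F (M * Real.exp (m * h)) \ IN F M, χ.χ I *
      ((fdf (Real.log (M / Ideal.absNorm I)) h m : ℝ) : ℂ)‖ ≤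
      (2 ^ m * (m : ℝ) ^ m * (C₂ * (h * M + 1) * M ^ δ)) * h ^ m := by
    have h1 : ∀ I ∈ IN F (M * Real.exp (m * h)) \ IN F M,
        ‖χ.χ I * ((fdf (Real.log (M / Ideal.absNorm I)) h m : ℝ) : ℂ)‖ ≤
          2 ^ m * ((m : ℝ) * h) ^ m := by
      intro I hI
      obtain ⟨hI1, hI2⟩ := Finset.mem_sdiff.1 hI
      rw [mem_IN hposm.le] at hI1
      rw [mem_IN hM0.le] at hI2
      have h2 := ics_pos hI1.2
      have h3 : M < Ideal.absNorm I := by
        by_contra h4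
        exact hI2 ⟨not_lt.1 h4, hI1.2⟩
      have h4 : Real.log (M / Ideal.absNorm I) < 0 := by
        refine Real.log_neg (div_pos hM0 (by linarith)) ?_
        rw [div_lt_one (by linarith)]
        exact h3
      rw [norm_mul, Complex.norm_real, Real.norm_eq_abs]
      calc ‖χ.χ I‖ * |fdf (Real.log (M / Ideal.absNorm I)) h m| ≤
          1 * (2 ^ m * ((m : ℝ) * h) ^ m) := mul_le_mul (ics_norm χ hI1.2)
            (fdf_le m _ h h4 hh0.le) (abs_nonneg _) zero_le_one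
        _ = 2 ^ m * ((m : ℝ) * h) ^ m := one_mul _
    refine (norm_sum_le_of_le _ h1).trans ?_
    rw [Finset.sum_const, nsmul_eq_mul]
    have h5 := hcnt F hF.2 M (h * M) hM (by positivity) hhMle
      (IN F (M * Real.exp (m * h)) \ IN F M) (fun I hI => by
        obtain ⟨hI1, hI2⟩ := Finset.mem_sdiff.1 hI
        rw [mem_IN hposm.le] at hI1
        rw [mem_IN hM0.le] at hI2
        refine ⟨hI1.2, ?_, hI1.1.trans ?_⟩
        · by_contra h4
          exact hI2 ⟨not_lt.1 h4, hI1.2⟩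
        · have e1 : Real.exp (m * h) * (1 - m * h) ≤ 1 := by
            have e2 := Real.add_one_le_exp (-(m * h))
            have e3 : Real.exp (m * h) * Real.exp (-(m * h)) = 1 := by
              rw [← Real.exp_add, add_neg_cancel, Real.exp_zero]
            have e4 := mul_le_mul_of_nonneg_left e2 (Real.exp_pos (m * h)).le
            rw [e3] at e4
            linarith
          have e5 : Real.exp (m * h) ≤ Real.exp m := Real.exp_le_exp.2 (by nlinarith)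
          have e6 : (m * h) * Real.exp (m * h) ≤ K * h := by
            have e7 : (m * h) * Real.exp (m * h) ≤ (m * h) * Real.exp m :=
              mul_le_mul_of_nonneg_left e5 (by positivity)
            nlinarith
          nlinarith)
    rw [mul_pow]
    calc _ ≤ (C₂ * (h * M + 1) * M ^ δ) * (2 ^ m * ((m : ℝ) ^ m * h ^ m)) :=
          mul_le_mul_of_nonneg_right h5 (by positivity)
      _ = _ := by ring
  rw [hmain] at hL
  have hhm : 0 < h ^ m := pow_pos hh0 m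
  obtain ⟨S, hS⟩ : ∃ S : ℂ, S = ∑ I ∈ IN F M, χ.χ I := ⟨_, rfl⟩
  rw [← hS] at hL ⊢
  have h1 : (h ^ m) * ‖S‖ ≤ 2 ^ m * (D * (Real.exp m * M ^ (1 - 1 / (n : ℝ)))) +
      (2 ^ m * (m : ℝ) ^ m * (C₂ * (h * M + 1) * M ^ δ)) * h ^ m := by
    have h2 : ‖(((m.factorial : ℝ) * h ^ m : ℝ) : ℂ) * S‖ ≤
        2 ^ m * (D * (Real.exp m * M ^ (1 - 1 / (n : ℝ)))) +
        (2 ^ m * (m : ℝ) ^ m * (C₂ * (h * M + 1) * M ^ δ)) * h ^ m := by
      have h3 := norm_sub_le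
        (∑ I ∈ IN F (M * Real.exp (m * h)) \ IN F M, χ.χ I *
          ((fdf (Real.log (M / Ideal.absNorm I)) h m : ℝ) : ℂ) +
          (((m.factorial : ℝ) * h ^ m : ℝ) : ℂ) * S)
        (∑ I ∈ IN F (M * Real.exp (m * h)) \ IN F M, χ.χ I *
          ((fdf (Real.log (M / Ideal.absNorm I)) h m : ℝ) : ℂ))
      rw [add_sub_cancel_left] at h3
      exact h3.trans (add_le_add hL hE)
    refine le_trans ?_ h2
    rw [norm_mul, Complex.norm_real, Real.norm_of_nonneg (by positivity)]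
    refine mul_le_mul_of_nonneg_right ?_ (norm_nonneg _)
    have h4 : (1 : ℝ) ≤ m.factorial := by exact_mod_cast Nat.factorial_pos m
    nlinarith
  -- the powers of `M`
  have hhi : (h ^ m)⁻¹ ≤ M ^ (1 / (2 * (n : ℝ))) := by
    rw [hh, ← Real.rpow_natCast, ← Real.rpow_mul hM0.le, ← Real.rpow_neg hM0.le]
    refine Real.rpow_le_rpow_of_exponent_le hM ?_
    linarith
  have h5 : ‖S‖ ≤ 2 ^ m * (D * (Real.exp m * M ^ (1 - 1 / (n : ℝ)))) * (h ^ m)⁻¹ +
      2 ^ m * (m : ℝ) ^ m * (C₂ * (h * M + 1) * M ^ δ) := by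
    have h6 : ‖S‖ = (h ^ m * ‖S‖) * (h ^ m)⁻¹ := by
      field_simp
    rw [h6]
    refine (mul_le_mul_of_nonneg_right h1 (by positivity)).trans (le_of_eq ?_)
    field_simp
  have h6 : 2 ^ m * (D * (Real.exp m * M ^ (1 - 1 / (n : ℝ)))) * (h ^ m)⁻¹ ≤
      2 ^ m * (D * (Real.exp m * M ^ (1 - δ))) := by
    calc _ ≤ 2 ^ m * (D * (Real.exp m * M ^ (1 - 1 / (n : ℝ)))) * M ^ (1 / (2 * (n : ℝ))) :=
          mul_le_mul_of_nonneg_left hhi (by positivity)
      _ = 2 ^ m * (D * (Real.exp m * (M ^ (1 - 1 / (n : ℝ)) * M ^ (1 / (2 * (n : ℝ)))))) := by ring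
      _ = 2 ^ m * (D * (Real.exp m * M ^ (1 - 1 / (n : ℝ) + 1 / (2 * (n : ℝ))))) := by
          rw [← Real.rpow_add hM0]
      _ ≤ _ := by
          refine mul_le_mul_of_nonneg_left (mul_le_mul_of_nonneg_left
            (mul_le_mul_of_nonneg_left ?_ (Real.exp_pos _).le) hD0) (by positivity)
          refine Real.rpow_le_rpow_of_exponent_le hM ?_
          have e1 : 1 / (n : ℝ) = 2 * (1 / (2 * n)) := by
            field_simp
          have e2 : 1 / (4 * (n : ℝ)) ≤ 1 / (2 * n) :=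
            one_div_le_one_div_of_le (by positivity) (by linarith)
          linarith
  have h7 : C₂ * (h * M + 1) * M ^ δ ≤ C₂ * 2 * M ^ (1 - δ) := by
    have e1 : (h * M + 1) * M ^ δ ≤ 2 * M ^ (1 - δ) := by
      calc (h * M + 1) * M ^ δ ≤ (2 * (h * M)) * M ^ δ :=
            mul_le_mul_of_nonneg_right (by linarith) (by positivity)
        _ = 2 * (M ^ (1 - 2 * δ) * M ^ δ) := by
            rw [hhM]
            ring
        _ = 2 * M ^ (1 - δ) := by
            rw [← Real.rpow_add hM0]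
            congr 2
            ring
    calc C₂ * (h * M + 1) * M ^ δ = C₂ * ((h * M + 1) * M ^ δ) := by ring
      _ ≤ C₂ * (2 * M ^ (1 - δ)) := mul_le_mul_of_nonneg_left e1 (by linarith)
      _ = _ := by ring
  have h8 : 2 ^ m * (m : ℝ) ^ m * (C₂ * (h * M + 1) * M ^ δ) ≤
      2 ^ m * (m : ℝ) ^ m * (C₂ * 2 * M ^ (1 - δ)) :=
    mul_le_mul_of_nonneg_left h7 (by positivity)
  have h9 : 2 ^ m * (m : ℝ) ^ m * (C₂ * 2 * M ^ (1 - δ)) ≤
      2 ^ m * (m : ℝ) ^ m * (C₂ * 2 * M ^ (1 - δ)) * (dd F * Ideal.absNorm 𝔣) ^ A :=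
    le_mul_of_one_le_right (by positivity) hD1
  calc ‖S‖ ≤ _ := h5
    _ ≤ 2 ^ m * (D * (Real.exp m * M ^ (1 - δ))) +
        2 ^ m * (m : ℝ) ^ m * (C₂ * 2 * M ^ (1 - δ)) * (dd F * Ideal.absNorm 𝔣) ^ A :=
          add_le_add h6 (h8.trans h9)
    _ = _ := by
        rw [hD]
        ring

end H1.LS4
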