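import Pool.Agent.H63.MA.AFin
import Pool.Agent.H63.MA.RayC
import Pool.Agent.H36.QA.ADefs

/-!
# LS4, part B: the operators of the comparison (definitions, complete)

Functions `f : ℝ → ℂ` of a real variable `M` (a cut-off).
* `e1`: the indicator function of `[1, ∞)`; `V1 f`: `f` vanishes below `1`.
* `opr J c N f = ∏_{j ∈ J} (1 + c_j τ_{N_j}) f`, where `τ_N f (M) = f (M / N)`, written as a sum over the subsets of `J`.
* `cnv S ψ f (M) = ∑ ψ(I) f (M / N I)` over the nonzero ideals `I` of norm at most `M` which are not divisible by a prime of `S`.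
* `cvs S L = cnv S ψ_1 (cnv S ψ_2 (... e1))` for `L = [ψ_1, ψ_2, ...]`: the sum of `ψ_1(I_1) ψ_2(I_2) ...` over the tuples with
  `∏ N I_j ≤ M`.
* `psum a x`: partial sums of a sequence, `dcv a b`: Dirichlet convolution, `Gd a D G k δ`: bounds of the partial sums.
-/

set_option autoImplicit false

open scoped NumberField Classical
open NumberField H63.MA

noncomputable section

namespace H1.LS4

/-- the indicator function of `[1, ∞)` -/
def e1 (M : ℝ) : ℂ := if 1 ≤ M then 1 else 0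

/-- the function vanishes below `1` -/
def V1 (f : ℝ → ℂ) : Prop := ∀ M, M < 1 → f M = 0

/-- the operator `∏_{j ∈ J} (1 + c_j τ_{N_j})` -/
def opr {ι : Type} (J : Finset ι) (c : ι → ℂ) (N : ι → ℕ) (f : ℝ → ℂ) (M : ℝ) : ℂ :=
  ∑ T ∈ J.powerset, (∏ j ∈ T, c j) * f (M / ∏ j ∈ T, (N j : ℝ))

/-- the sum of `ψ(I) f (M / N I)` over the ideals `I` of norm at most `M` not divisible by a prime of `S` -/
def cnv {E : Type} [Field E] [NumberField E] (S : Finset (Pl E)) (ψ : Ideal (𝓞 E) →*₀ ℂ) (f : ℝ → ℂ) (M : ℝ) : ℂ :=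
  ∑ I ∈ (IN E M).filter (fun I => ∀ v ∈ S, ¬ v.asIdeal ∣ I), ψ I * f (M / Ideal.absNorm I)

/-- the iterated sum -/
def cvs {E : Type} [Field E] [NumberField E] (S : Finset (Pl E)) : List (Ideal (𝓞 E) →*₀ ℂ) → ℝ → ℂ
  | [] => e1
  | ψ :: L => cnv S ψ (cvs S L)

/-- the partial sums of a sequence -/
def psum (a : ℕ → ℂ) (x : ℝ) : ℂ := ∑ m ∈ Finset.Icc 1 ⌊x⌋₊, a m

/-- the Dirichlet convolution -/
def dcv (a b : ℕ → ℂ) (m : ℕ) : ℂ := ∑ d ∈ m.divisors, a d * b (m / d)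

/-- the partial sums are at most `D x^(1 - δ)` and the harmonic sums of the absolute values are at most `G (1 + log x)^k` -/
def Gd (a : ℕ → ℂ) (D G : ℝ) (k : ℕ) (δ : ℝ) : Prop :=
  (∀ x : ℝ, 1 ≤ x → ‖psum a x‖ ≤ D * x ^ (1 - δ)) ∧
    ∀ x : ℝ, 1 ≤ x → ∑ m ∈ Finset.Icc 1 ⌊x⌋₊, ‖a m‖ / m ≤ G * (1 + Real.log x) ^ k

end H1.LS4
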