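import Pool.Agent.H1.LS4.Odf

/-!
# [H1 LS4 OPA] The operators `opr` (80-130 lines, elementary)

`opr J c N f M = ∑_{T ⊆ J} (∏_T c) f (M / ∏_T N)`.
* `opr_insert`: subsets of `insert j J` without / with `j` (`Finset.sum_powerset_insert`), `M / (N_j P) = (M / N_j) / P`.
* `opr_union`: induction over `J` with `opr_insert` (or the bijection `T ↔ (T ∩ J, T ∩ J')`).
* `opr_image`: `Finset.powerset_image`-type bijection, or induction.
* `opr_congr`: all arguments `M / ∏ N` are at most `M` (`0 ≤ M`, `∏ N ≥ 1`).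
* `opr_bd`: each term is at most `G^#T D (M / ∏ N)^σ ≤ G^#T D M^σ` if `M / ∏ N ≥ 1` and `0` otherwise (`V1`); `∑_T G^#T = (1+G)^#J`
(`Finset.sum_pow_card..`/`Finset.prod_add`: `∏_{j ∈ J} (1 + G)`).
* `opr_good`: the term `T = ∅` is `f M`. The terms `T = {j}` with `N j = q` have sum `(∑ c_j) f (M / q) = 0`. For every other `T ≠ ∅` the
product `∏_T N ≥ q^2` (either `#T ≥ 2`, each factor `≥ q`, or `T = {j}` with `N j = q^k`, `k ≥ 2`), so the term is at most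
`∏_T ‖c‖ D M^σ q^(-2σ)`; their sum is at most `(1 + G)^#J D M^σ q^(-2σ)`.
-/

set_option autoImplicit false

open scoped NumberField Classical
open NumberField H63.MA H36.QA

noncomputable section

namespace H1.LS4

variable {ι ι' : Type}

theorem opr_empty (c : ι → ℂ) (N : ι → ℕ) (f : ℝ → ℂ) (M : ℝ) : opr ∅ c N f M = f M := by
  simp [opr]

theorem opr_insert {j : ι} {J : Finset ι} (hj : j ∉ J) (c : ι → ℂ) (N : ι → ℕ) (f : ℝ → ℂ) (M : ℝ) :
    opr (insert j J) c N f M = opr J c N f M + c j * opr J c N f (M / N j) := by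
  unfold opr
  rw [Finset.sum_powerset_insert hj]
  congr 1
  rw [Finset.mul_sum]
  refine Finset.sum_congr rfl fun T hT => ?_
  have h1 : j ∉ T := fun h => hj (Finset.mem_powerset.1 hT h)
  rw [Finset.prod_insert h1, Finset.prod_insert h1, div_mul_eq_div_div, mul_assoc]

theorem opr_union {J J' : Finset ι} (h : Disjoint J J') (c : ι → ℂ) (N : ι → ℕ) (f : ℝ → ℂ) :
    opr (J ∪ J') c N f = opr J c N (opr J' c N f) := by
  induction J using Finset.induction_on with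
  | empty =>
    rw [Finset.empty_union]
    funext M
    rw [opr_empty]
  | insert j J hj ih =>
    have h1 : Disjoint J J' := Finset.disjoint_of_subset_left (Finset.subset_insert j J) h
    have h2 : j ∉ J ∪ J' := by
      rw [Finset.mem_union]
      rintro (h3 | h3)
      · exact hj h3
      · exact Finset.disjoint_left.1 h (Finset.mem_insert_self j J) h3
    funext M
    rw [Finset.insert_union, opr_insert h2, ih h1, opr_insert hj]

theorem opr_image (e : ι' → ι) (he : Function.Injective e) (J : Finset ι') (c : ι → ℂ) (N : ι → ℕ) (f : ℝ → ℂ) :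
    opr (J.image e) c N f = opr J (fun j => c (e j)) (fun j => N (e j)) f := by
  induction J using Finset.induction_on with
  | empty =>
    rw [Finset.image_empty]
    funext M
    rw [opr_empty, opr_empty]
  | insert j J hj ih =>
    have h1 : e j ∉ J.image e := by
      rw [Finset.mem_image]
      rintro ⟨k, hk, hk'⟩
      exact hj (he hk' ▸ hk)
    funext M
    rw [Finset.image_insert, opr_insert h1, ih, opr_insert hj]

private theorem op_one_le {J T : Finset ι} {N : ι → ℕ} (hN : ∀ j ∈ J, 1 ≤ N j) (hT : T ∈ J.powerset) :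
    (1 : ℝ) ≤ ∏ j ∈ T, (N j : ℝ) := by
  have h1 : 0 < ∏ j ∈ T, N j := Finset.prod_pos fun j hj => hN j (Finset.mem_powerset.1 hT hj)
  have h2 : (1 : ℕ) ≤ ∏ j ∈ T, N j := h1
  have h3 : ((1 : ℕ) : ℝ) ≤ ((∏ j ∈ T, N j : ℕ) : ℝ) := Nat.cast_le.2 h2
  rwa [Nat.cast_one, Nat.cast_prod] at h3

theorem opr_congr {J : Finset ι} {c : ι → ℂ} {N : ι → ℕ} (hN : ∀ j ∈ J, 1 ≤ N j) {f f' : ℝ → ℂ} {M : ℝ} (hM : 0 ≤ M)
    (h : ∀ M' : ℝ, M' ≤ M → f M' = f' M') : opr J c N f M = opr J c N f' M := by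
  unfold opr
  refine Finset.sum_congr rfl fun T hT => ?_
  rw [h _ (div_le_self hM (op_one_le hN hT))]

theorem opr_v1 {J : Finset ι} {c : ι → ℂ} {N : ι → ℕ} (hN : ∀ j ∈ J, 1 ≤ N j) {f : ℝ → ℂ} (hf : V1 f) :
    V1 (opr J c N f) := by
  intro M hM
  unfold opr
  refine Finset.sum_eq_zero fun T hT => ?_
  have h1 := op_one_le hN hT
  rw [hf _ ((div_lt_one (lt_of_lt_of_le one_pos h1)).2 (lt_of_lt_of_le hM h1)), mul_zero]

private theorem op_norm {J T : Finset ι} {c : ι → ℂ} {G : ℝ} (hc : ∀ j ∈ J, ‖c j‖ ≤ G) (hT : T ∈ J.powerset) :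
    ‖∏ j ∈ T, c j‖ ≤ G ^ T.card := by
  rw [norm_prod]
  refine (Finset.prod_le_prod (fun j _ => norm_nonneg _) fun j hj => hc j (Finset.mem_powerset.1 hT hj)).trans ?_
  rw [Finset.prod_const]

private theorem op_sum (J : Finset ι) (G : ℝ) : ∑ T ∈ J.powerset, G ^ T.card = (1 + G) ^ J.card := by
  have h1 := Finset.sum_pow_mul_eq_add_pow G 1 J
  simp only [one_pow, mul_one] at h1
  rw [h1, add_comm]

/-- the bound of one term -/
private theorem op_term {J T : Finset ι} {c : ι → ℂ} {N : ι → ℕ} {f : ℝ → ℂ} (hf : V1 f) {G D σ : ℝ}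
    (hG : 0 ≤ G) (hc : ∀ j ∈ J, ‖c j‖ ≤ G) (hD : 0 ≤ D) (hσ : 0 ≤ σ) (hb : ∀ M : ℝ, 1 ≤ M → ‖f M‖ ≤ D * M ^ σ)
    (hT : T ∈ J.powerset) {M : ℝ} (hM : 1 ≤ M) {R : ℝ} (hR : 1 ≤ R) (hRP : R ≤ ∏ j ∈ T, (N j : ℝ)) :
    ‖(∏ j ∈ T, c j) * f (M / ∏ j ∈ T, (N j : ℝ))‖ ≤ G ^ T.card * (D * (M / R) ^ σ) := by
  have hR0 : 0 < R := lt_of_lt_of_le one_pos hR
  have hM0 : 0 ≤ M := zero_le_one.trans hM
  have hP0 : 0 < ∏ j ∈ T, (N j : ℝ) := lt_of_lt_of_le hR0 hRP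
  rw [norm_mul]
  refine mul_le_mul (op_norm hc hT) ?_ (norm_nonneg _) (pow_nonneg hG _)
  have h0 : 0 ≤ D * (M / R) ^ σ := mul_nonneg hD (Real.rpow_nonneg (div_nonneg hM0 hR0.le) _)
  by_cases h : 1 ≤ M / ∏ j ∈ T, (N j : ℝ)
  · refine (hb _ h).trans (mul_le_mul_of_nonneg_left ?_ hD)
    exact Real.rpow_le_rpow (zero_le_one.trans h) (div_le_div_of_nonneg_left hM0 hR0 hRP) hσ
  · rw [hf _ (not_le.1 h), norm_zero]
    exact h0

theorem opr_bd {J : Finset ι} {c : ι → ℂ} {N : ι → ℕ} (hN : ∀ j ∈ J, 1 ≤ N j) {f : ℝ → ℂ} (hf : V1 f) {G D σ : ℝ}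
    (hG : 0 ≤ G) (hc : ∀ j ∈ J, ‖c j‖ ≤ G) (hD : 0 ≤ D) (hσ : 0 ≤ σ) (hb : ∀ M : ℝ, 1 ≤ M → ‖f M‖ ≤ D * M ^ σ) :
    ∀ M : ℝ, 1 ≤ M → ‖opr J c N f M‖ ≤ (1 + G) ^ J.card * D * M ^ σ := by
  intro M hM
  unfold opr
  refine (norm_sum_le _ _).trans ?_
  rw [mul_assoc, ← op_sum, Finset.sum_mul]
  refine Finset.sum_le_sum fun T hT => ?_
  have h1 := op_term (N := N) hf hG hc hD hσ hb hT hM le_rfl (op_one_le hN hT)
  rwa [div_one] at h1

theorem opr_good {J : Finset ι} {c : ι → ℂ} {N : ι → ℕ} {q : ℕ} (hq : 2 ≤ q) (hN : ∀ j ∈ J, ∃ k : ℕ, 1 ≤ k ∧ N j = q ^ k)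
    {f : ℝ → ℂ} (hf : V1 f) {G D σ : ℝ} (hG : 0 ≤ G) (hc : ∀ j ∈ J, ‖c j‖ ≤ G) (hD : 0 ≤ D) (hσ : 0 ≤ σ)
    (hb : ∀ M : ℝ, 1 ≤ M → ‖f M‖ ≤ D * M ^ σ) (h0 : ∑ j ∈ J.filter (fun j => N j = q), c j = 0) :
    ∀ M : ℝ, 1 ≤ M → ‖opr J c N f M‖ ≤ (1 + (1 + G) ^ J.card * (q : ℝ) ^ (-(2 * σ))) * D * M ^ σ := by
  intro M hM
  have hM0 : 0 ≤ M := zero_le_one.trans hM
  have hq0 : (0 : ℝ) < q := by exact_mod_cast lt_of_lt_of_le two_pos hq
  have hq1 : (1 : ℝ) ≤ q := by exact_mod_cast (one_le_two.trans hq)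
  have hNq : ∀ j ∈ J, q ≤ N j := by
    intro j hj
    obtain ⟨k, hk, hk'⟩ := hN j hj
    rw [hk']
    exact Nat.le_self_pow (by omega) q
  -- the subsets of one element with `N j = q`
  obtain ⟨P1, hP1⟩ : ∃ P1 : Finset (Finset ι), P1 = (J.filter fun j => N j = q).image fun j => ({j} : Finset ι) :=
    ⟨_, rfl⟩
  obtain ⟨t, ht⟩ : ∃ t : Finset ι → ℂ, ∀ T, t T = (∏ j ∈ T, c j) * f (M / ∏ j ∈ T, (N j : ℝ)) := ⟨_, fun _ => rfl⟩
  have hsum1 : ∑ T ∈ P1, t T = 0 := by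
    rw [hP1, Finset.sum_image (fun x _ y _ h => Finset.singleton_injective h)]
    have h1 : ∀ j ∈ J.filter fun j => N j = q, t {j} = c j * f (M / q) := by
      intro j hj
      rw [ht, Finset.prod_singleton, Finset.prod_singleton, (Finset.mem_filter.1 hj).2]
    rw [Finset.sum_congr rfl h1, ← Finset.sum_mul, h0, zero_mul]
  have hsub : P1 ⊆ J.powerset := by
    intro T hT
    rw [hP1, Finset.mem_image] at hT
    obtain ⟨j, hj, rfl⟩ := hT
    rw [Finset.mem_powerset, Finset.singleton_subset_iff]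
    exact (Finset.mem_filter.1 hj).1
  have hemp : ∅ ∉ P1 := by
    rw [hP1, Finset.mem_image]
    rintro ⟨j, -, hj⟩
    exact Finset.singleton_ne_empty j hj
  have hsub2 : insert ∅ P1 ⊆ J.powerset := by
    intro T hT
    rcases Finset.mem_insert.1 hT with rfl | h
    · exact Finset.empty_mem_powerset J
    · exact hsub h
  have hdec : opr J c N f M = f M + ∑ T ∈ J.powerset \ insert ∅ P1, t T := by
    have h1 : opr J c N f M = ∑ T ∈ J.powerset, t T := by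
      unfold opr
      exact Finset.sum_congr rfl fun T _ => (ht T).symm
    rw [h1, ← Finset.sum_sdiff hsub2, Finset.sum_insert hemp, hsum1, ht ∅, Finset.prod_empty, Finset.prod_empty,
      div_one, one_mul, add_zero, add_comm]
  have hbig : ∀ T ∈ J.powerset \ insert ∅ P1, (q : ℝ) ^ 2 ≤ ∏ j ∈ T, (N j : ℝ) := by
    intro T hT
    rw [Finset.mem_sdiff, Finset.mem_insert, not_or, Finset.mem_powerset] at hT
    obtain ⟨hTJ, hTe, hTP⟩ := hT
    have h2 : q ^ 2 ≤ ∏ j ∈ T, N j := by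
      by_cases hc1 : T.card = 1
      · obtain ⟨j, rfl⟩ := Finset.card_eq_one.1 hc1
        have hjJ : j ∈ J := hTJ (Finset.mem_singleton_self j)
        obtain ⟨k, hk, hk'⟩ := hN j hjJ
        rw [Finset.prod_singleton, hk']
        have hk2 : k ≠ 1 := by
          rintro rfl
          apply hTP
          rw [hP1, Finset.mem_image]
          exact ⟨j, Finset.mem_filter.2 ⟨hjJ, by rw [hk', pow_one]⟩, rfl⟩
        exact Nat.pow_le_pow_right (by omega) (by omega)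
      · have hc2 : 2 ≤ T.card := by
          have h3 : T.card ≠ 0 := fun h => hTe (Finset.card_eq_zero.1 h)
          omega
        calc q ^ 2 ≤ q ^ T.card := Nat.pow_le_pow_right (by omega) hc2
          _ = ∏ _j ∈ T, q := by rw [Finset.prod_const]
          _ ≤ ∏ j ∈ T, N j := Finset.prod_le_prod' fun j hj => hNq j (hTJ hj)
    have h3 : ((q ^ 2 : ℕ) : ℝ) ≤ ((∏ j ∈ T, N j : ℕ) : ℝ) := Nat.cast_le.2 h2
    rwa [Nat.cast_pow, Nat.cast_prod] at h3
  have hq2 : (1 : ℝ) ≤ (q : ℝ) ^ 2 := one_le_pow₀ hq1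
  have hpow : (M / (q : ℝ) ^ 2) ^ σ = M ^ σ * (q : ℝ) ^ (-(2 * σ)) := by
    rw [Real.div_rpow hM0 (sq_nonneg _), ← Real.rpow_natCast, ← Real.rpow_mul hq0.le, Real.rpow_neg hq0.le,
      div_eq_mul_inv, Nat.cast_ofNat]
  rw [hdec]
  refine (norm_add_le _ _).trans ?_
  have hA : ‖f M‖ ≤ D * M ^ σ := hb M hM
  have hB : ‖∑ T ∈ J.powerset \ insert ∅ P1, t T‖ ≤ (1 + G) ^ J.card * (D * (M / (q : ℝ) ^ 2) ^ σ) := by
    refine (norm_sum_le _ _).trans ?_
    rw [← op_sum, Finset.sum_mul]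
    refine (Finset.sum_le_sum fun T hT => ?_).trans
      (Finset.sum_le_sum_of_subset_of_nonneg Finset.sdiff_subset fun T _ _ => ?_)
    · rw [ht]
      exact op_term hf hG hc hD hσ hb (Finset.mem_sdiff.1 hT).1 hM hq2 (hbig T hT)
    · exact mul_nonneg (pow_nonneg hG _)
        (mul_nonneg hD (Real.rpow_nonneg (div_nonneg hM0 (sq_nonneg _)) _))
  rw [hpow] at hB
  calc ‖f M‖ + ‖∑ T ∈ J.powerset \ insert ∅ P1, t T‖
      ≤ D * M ^ σ + (1 + G) ^ J.card * (D * (M ^ σ * (q : ℝ) ^ (-(2 * σ)))) := add_le_add hA hB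
    _ = (1 + (1 + G) ^ J.card * (q : ℝ) ^ (-(2 * σ))) * D * M ^ σ := by ring

end H1.LS4
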