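import Pool.Agent.H1.LS4.OpA

/-!
# [H1 LS4 OPB] The sums over ideals and the operators (80-120 lines)

* `cnv_v1`: `IN E M` is empty for `M < 1`.
* `cnv_rem`: the ideals `I` of norm at most `M`, not divisible by the primes of `S`, are those which are not divisible by `v` and the
`v J`, `J` not divisible by the primes of `S` (`v ∉ S`: a prime `u ≠ v` divides `v J` iff it divides `J`), `N J ≤ M / N v`;
`ψ(v J) = ψ(v) ψ(J)`, `M / N(vJ) = (M / N v) / N J`.
* `cnv_opr`: induction over `S` with `cnv_rem` and `opr_insert`.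
* `cnv_triv`: an ideal `I ≠ ⊤`, `I ≠ ⊥` with `N I ≤ M` has a prime divisor `v`, `N v ≤ N I ≤ M`, so `v ∈ S`; only `I = ⊤` remains,
`ψ ⊤ = 1` (`map_one`, `Ideal.one_eq_top`), `N ⊤ = 1`.
* `cnv_comm`: both sides are `∑_I ∑_T ψ(I) c_T f (M / (N I ∏_T N))`, `I` over `N I ≤ M` on the left, over `N I ≤ M / ∏_T N` on the right;
the additional terms on the left have argument `< 1`, where `f` vanishes.
-/

set_option autoImplicit false

open scoped NumberField Classical
open NumberField H63.MA H36.QA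

noncomputable section

namespace H1.LS4

variable {E : Type} [Field E] [NumberField E]

private theorem in_lt {y : ℝ} (hy : y < 1) : IN E y = ∅ := by
  rw [Finset.eq_empty_iff_forall_notMem]
  intro I hI
  unfold IN at hI
  rw [Finset.mem_filter, Set.Finite.mem_toFinset, Nat.floor_eq_zero.2 hy] at hI
  obtain ⟨h1, h2⟩ := hI
  have h3 : Ideal.absNorm I ≤ 0 := h1
  exact h2 (Ideal.absNorm_eq_zero_iff.1 (Nat.le_zero.1 h3))

private theorem div_lt {M P : ℝ} (hM : M < 1) (hP : 1 ≤ P) : M / P < 1 := by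
  rw [div_lt_one (by linarith)]
  linarith

private theorem asq {v w : Pl E} (h : v.asIdeal ∣ w.asIdeal) : v = w := by
  apply IsDedekindDomain.HeightOneSpectrum.ext
  exact ((w.isMaximal.eq_of_le v.isPrime.ne_top (Ideal.le_of_dvd h))).symm

private theorem nm_one (v : Pl E) : (1 : ℝ) ≤ nm v := by
  exact_mod_cast (one_lt_nm v).le

theorem cnv_v1 (S : Finset (Pl E)) (ψ : Ideal (𝓞 E) →*₀ ℂ) (f : ℝ → ℂ) : V1 (cnv S ψ f) := by
  intro M hM
  unfold cnv
  rw [in_lt hM, Finset.filter_empty, Finset.sum_empty]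

theorem cnv_rem {S : Finset (Pl E)} {v : Pl E} (hv : v ∉ S) (ψ : Ideal (𝓞 E) →*₀ ℂ) (f : ℝ → ℂ) (M : ℝ) :
    cnv (insert v S) ψ f M = cnv S ψ f M - ψ v.asIdeal * cnv S ψ f (M / nm v) := by
  rcases lt_or_ge M 1 with hM | hM
  · rw [cnv_v1 _ _ _ M hM, cnv_v1 _ _ _ M hM, cnv_v1 _ _ _ _ (div_lt hM (nm_one v)), mul_zero, sub_zero]
  have hy : 0 ≤ M := by linarith
  have hnm : (0 : ℝ) < (nm v : ℝ) := by linarith [nm_one v]
  have hy' : 0 ≤ M / (nm v : ℝ) := by positivity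
  have h1 : cnv S ψ f M = cnv (insert v S) ψ f M +
      ∑ I ∈ (IN E M).filter (fun I => (∀ w ∈ S, ¬ w.asIdeal ∣ I) ∧ v.asIdeal ∣ I),
        ψ I * f (M / Ideal.absNorm I) := by
    unfold cnv
    rw [← Finset.sum_union]
    · refine Finset.sum_congr ?_ fun _ _ => rfl
      ext I
      simp only [Finset.mem_filter, Finset.mem_union, Finset.mem_insert, forall_eq_or_imp]
      tauto
    · rw [Finset.disjoint_filter]
      intro I _ h h'
      exact h v (Finset.mem_insert_self v S) h'.2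
  have h2 : ∑ I ∈ (IN E M).filter (fun I => (∀ w ∈ S, ¬ w.asIdeal ∣ I) ∧ v.asIdeal ∣ I),
      ψ I * f (M / Ideal.absNorm I) = ψ v.asIdeal * cnv S ψ f (M / nm v) := by
    unfold cnv
    rw [Finset.mul_sum]
    symm
    apply Finset.sum_bij (fun J _ => v.asIdeal * J)
    · intro J hJ
      rw [Finset.mem_filter, mem_IN hy'] at hJ
      rw [Finset.mem_filter, mem_IN hy]
      obtain ⟨⟨hJ1, hJ2⟩, hJ3⟩ := hJ
      refine ⟨⟨?_, ?_⟩, ?_, dvd_mul_right _ _⟩
      · rw [map_mul, Nat.cast_mul]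
        have := (le_div_iff₀ hnm).1 hJ1
        change (nm v : ℝ) * _ ≤ M
        linarith
      · rw [Ne, Ideal.mul_eq_bot, not_or]
        exact ⟨v.ne_bot, hJ2⟩
      · intro w hw hwI
        rcases w.prime.dvd_or_dvd hwI with h | h
        · exact hv (asq h ▸ hw)
        · exact hJ3 w hw h
    · intro J _ J' _ h
      exact mul_left_cancel₀ (by rw [Ne, Ideal.zero_eq_bot]; exact v.ne_bot) h
    · intro I hI
      rw [Finset.mem_filter, mem_IN hy] at hI
      obtain ⟨⟨h1, h2⟩, h3, J, hJ⟩ := hI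
      refine ⟨J, ?_, hJ.symm⟩
      rw [Finset.mem_filter, mem_IN hy']
      refine ⟨⟨?_, ?_⟩, ?_⟩
      · rw [le_div_iff₀ hnm]
        rw [hJ, map_mul, Nat.cast_mul] at h1
        change (nm v : ℝ) * _ ≤ M at h1
        linarith
      · rintro rfl
        rw [Ideal.mul_bot] at hJ
        exact h2 hJ
      · intro w hw hwJ
        exact h3 w hw (by rw [hJ]; exact hwJ.mul_left _)
    · intro J hJ
      rw [map_mul, map_mul, Nat.cast_mul, div_div]
      change _ = ψ v.asIdeal * ψ J * f (M / ((nm v : ℝ) * _))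
      ring
  rw [h1, h2]
  ring

theorem cnv_opr (S : Finset (Pl E)) (ψ : Ideal (𝓞 E) →*₀ ℂ) (f : ℝ → ℂ) :
    cnv S ψ f = opr S (fun v => -ψ v.asIdeal) nm (cnv ∅ ψ f) := by
  induction S using Finset.induction_on with
  | empty =>
    funext M
    rw [opr_empty]
  | insert v S hv ih =>
    funext M
    rw [cnv_rem hv, opr_insert hv, ← ih]
    ring

theorem cnv_triv {S : Finset (Pl E)} {M : ℝ} (hS : ∀ v : Pl E, (nm v : ℝ) ≤ M → v ∈ S) (hM : 1 ≤ M)
    (ψ : Ideal (𝓞 E) →*₀ ℂ) (f : ℝ → ℂ) : cnv S ψ f M = f M := by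
  have hM0 : 0 ≤ M := by linarith
  have h1 : (IN E M).filter (fun I => ∀ v ∈ S, ¬ v.asIdeal ∣ I) = {⊤} := by
    ext I
    rw [Finset.mem_filter, mem_IN hM0, Finset.mem_singleton]
    constructor
    · rintro ⟨⟨h1, h2⟩, h3⟩
      by_contra h4
      obtain ⟨P, hP, hIP⟩ := Ideal.exists_le_maximal I h4
      have hP0 : P ≠ ⊥ := fun h => h2 (le_bot_iff.1 (h ▸ hIP))
      let v : Pl E := ⟨P, hP.isPrime, hP0⟩
      have h5 : nm v ≤ Ideal.absNorm I := by
        refine Nat.le_of_dvd ?_ (Ideal.absNorm_dvd_absNorm_of_le hIP)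
        exact Nat.pos_of_ne_zero fun h => h2 (Ideal.absNorm_eq_zero_iff.1 h)
      have h6 : (nm v : ℝ) ≤ Ideal.absNorm I := by exact_mod_cast h5
      exact h3 v (hS v (h6.trans h1)) (Ideal.dvd_iff_le.2 hIP)
    · rintro rfl
      refine ⟨⟨?_, top_ne_bot⟩, fun v _ h => ?_⟩
      · rw [Ideal.absNorm_top, Nat.cast_one]
        exact hM
      · exact v.isPrime.ne_top (top_le_iff.1 (Ideal.dvd_iff_le.1 h))
  unfold cnv
  rw [h1, Finset.sum_singleton, Ideal.absNorm_top, Nat.cast_one, div_one, ← Ideal.one_eq_top, map_one,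
    one_mul]

private theorem cnv_shift (S : Finset (Pl E)) (ψ : Ideal (𝓞 E) →*₀ ℂ) {f : ℝ → ℂ} (hf : V1 f) (M : ℝ)
    {P : ℝ} (hP : 1 ≤ P) :
    ∑ I ∈ (IN E M).filter (fun I => ∀ v ∈ S, ¬ v.asIdeal ∣ I), ψ I * f (M / Ideal.absNorm I / P) =
      cnv S ψ f (M / P) := by
  rcases lt_or_ge M 1 with hM | hM
  · rw [cnv_v1 _ _ _ _ (div_lt hM hP), in_lt hM, Finset.filter_empty, Finset.sum_empty]
  have hM0 : 0 ≤ M := by linarith
  have hP0 : 0 < P := by linarith
  have hMP : 0 ≤ M / P := by positivity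
  unfold cnv
  symm
  have h1 : ∀ I : Ideal (𝓞 E), M / P / Ideal.absNorm I = M / Ideal.absNorm I / P := by
    intro I
    rw [div_div, div_div, mul_comm]
  simp only [h1]
  refine Finset.sum_subset ?_ fun I hI hI' => ?_
  · intro I hI
    rw [Finset.mem_filter, mem_IN hMP] at hI
    rw [Finset.mem_filter, mem_IN hM0]
    exact ⟨⟨hI.1.1.trans (div_le_self hM0 hP), hI.1.2⟩, hI.2⟩
  · rw [Finset.mem_filter, mem_IN hM0] at hI
    rw [Finset.mem_filter, mem_IN hMP] at hI'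
    have h2 : M / P < Ideal.absNorm I := by
      by_contra h
      exact hI' ⟨⟨not_lt.1 h, hI.1.2⟩, hI.2⟩
    have h3 : (0 : ℝ) < Ideal.absNorm I := hMP.trans_lt h2
    have h4 : M / Ideal.absNorm I / P < 1 := by
      rw [← h1 I, div_lt_one h3]
      exact h2
    rw [hf _ h4, mul_zero]

theorem cnv_comm {ι : Type} {J : Finset ι} {c : ι → ℂ} {N : ι → ℕ} (hN : ∀ j ∈ J, 1 ≤ N j) {f : ℝ → ℂ} (hf : V1 f)
    (S : Finset (Pl E)) (ψ : Ideal (𝓞 E) →*₀ ℂ) : cnv S ψ (opr J c N f) = opr J c N (cnv S ψ f) := by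
  funext M
  have h1 : cnv S ψ (opr J c N f) M = ∑ T ∈ J.powerset, (∏ j ∈ T, c j) *
      ∑ I ∈ (IN E M).filter (fun I => ∀ v ∈ S, ¬ v.asIdeal ∣ I),
        ψ I * f (M / Ideal.absNorm I / ∏ j ∈ T, (N j : ℝ)) := by
    unfold cnv opr
    simp only [Finset.mul_sum]
    rw [Finset.sum_comm]
    refine Finset.sum_congr rfl fun T _ => Finset.sum_congr rfl fun I _ => ?_
    ring
  rw [h1]
  unfold opr
  refine Finset.sum_congr rfl fun T hT => ?_
  have hP : (1 : ℝ) ≤ ∏ j ∈ T, (N j : ℝ) := by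
    have h2 : ∏ j ∈ T, (1 : ℝ) ≤ ∏ j ∈ T, (N j : ℝ) := by
      refine Finset.prod_le_prod (fun _ _ => zero_le_one) fun j hj => ?_
      exact_mod_cast hN j (Finset.mem_powerset.1 hT hj)
    rwa [Finset.prod_const_one] at h2
  rw [cnv_shift S ψ hf M hP]

end H1.LS4
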