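import Pool.Agent.H1.LS4.OpB

/-!
# [H1 LS4 OPC] Several characters; the sum over squarefree ideals as an operator (60-100 lines)

* `cvs_v1`: `e1` and `cnv_v1`.
* `cvs_opr`: induction over `L`. For `ψ :: L`: `cvs S (ψ :: L) = cnv S ψ (cvs S L) = opr S (-ψ) nm (cnv ∅ ψ (opr (Fin L.length × S) .. (cvs ∅ L)))
= opr S (-ψ) nm (opr (Fin L.length × S) .. (cvs ∅ (ψ :: L)))` (`cnv_opr`, `cnv_comm`, `cvs_v1`), and `Fin (L.length + 1) × S` is the
disjoint union of `{0} × S` and the image of `Fin L.length × S` under `(i, v) ↦ (i.succ, v)` (`opr_union`, `opr_image`; `nm v ≥ 1`).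
* `cvs_triv`: induction with `cnv_triv` (for `M' < 1` both sides vanish; for `1 ≤ M' ≤ M` all arguments are `M'`).
* `e1_opr`: the subsets `T` of `P` with `nr T ≤ M` are exactly the elements of `AF K M` (`mem_AF`; `nr T ≤ M` implies `nm l ≤ M` for `l ∈ T`, as
all norms are `≥ 1`); `e1 (M / nr T) = 1` iff `nr T ≤ M`.
-/

set_option autoImplicit false

open scoped NumberField Classical
open NumberField H63.MA H36.QA

noncomputable section

namespace H1.LS4

variable {E : Type} [Field E] [NumberField E]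

private theorem opc_e1 : V1 e1 := fun _ hM => if_neg (not_le.2 hM)

private theorem opc_nm {K : Type} [Field K] [NumberField K] (v : Pl K) : 1 ≤ nm v := (one_lt_nm v).le

/-- splitting the index set -/
private theorem opc_split {ι ι₁ ι₂ : Type} {J : Finset ι} {J₁ : Finset ι₁} {J₂ : Finset ι₂}
    {e₁ : ι₁ → ι} {e₂ : ι₂ → ι} (h1 : Function.Injective e₁) (h2 : Function.Injective e₂)
    (hd : ∀ x y, e₁ x ≠ e₂ y)
    (hJ : ∀ j, j ∈ J ↔ (∃ x ∈ J₁, e₁ x = j) ∨ ∃ y ∈ J₂, e₂ y = j)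
    (c : ι → ℂ) (N : ι → ℕ) (f : ℝ → ℂ) :
    opr J c N f = opr J₁ (fun x => c (e₁ x)) (fun x => N (e₁ x))
      (opr J₂ (fun x => c (e₂ x)) (fun x => N (e₂ x)) f) := by
  have h3 : J = J₁.image e₁ ∪ J₂.image e₂ := by
    ext j
    rw [hJ, Finset.mem_union, Finset.mem_image, Finset.mem_image]
  have h4 : Disjoint (J₁.image e₁) (J₂.image e₂) := by
    rw [Finset.disjoint_left]
    intro j h5 h6
    obtain ⟨x, -, hx⟩ := Finset.mem_image.1 h5
    obtain ⟨y, -, hy⟩ := Finset.mem_image.1 h6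
    exact hd x y (hx.trans hy.symm)
  rw [h3, opr_union h4, opr_image e₁ h1, opr_image e₂ h2]

theorem cvs_v1 (S : Finset (Pl E)) (L : List (Ideal (𝓞 E) →*₀ ℂ)) : V1 (cvs S L) := by
  cases L with
  | nil => exact opc_e1
  | cons ψ L => exact cnv_v1 S ψ (cvs S L)

theorem cvs_opr (S : Finset (Pl E)) (L : List (Ideal (𝓞 E) →*₀ ℂ)) :
    cvs S L = opr ((Finset.univ : Finset (Fin L.length)) ×ˢ S) (fun x => -(L.get x.1) x.2.asIdeal) (fun x => nm x.2)
      (cvs ∅ L) := by
  induction L with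
  | nil =>
    funext M
    have h1 : ((Finset.univ : Finset (Fin ([] : List (Ideal (𝓞 E) →*₀ ℂ)).length)) ×ˢ S) = ∅ := by
      rw [Finset.eq_empty_iff_forall_notMem]
      rintro ⟨i, v⟩ -
      exact Fin.elim0 i
    rw [h1, opr_empty]
    rfl
  | cons ψ L ih =>
    have h1 : cvs S (ψ :: L) = opr S (fun v => -ψ v.asIdeal) nm (cnv ∅ ψ (cvs S L)) :=
      cnv_opr S ψ (cvs S L)
    have h2 : cnv ∅ ψ (cvs S L) =
        opr ((Finset.univ : Finset (Fin L.length)) ×ˢ S) (fun x => -(L.get x.1) x.2.asIdeal)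
          (fun x => nm x.2) (cvs ∅ (ψ :: L)) := by
      rw [ih]
      exact cnv_comm (fun j _ => opc_nm j.2) (cvs_v1 ∅ L) ∅ ψ
    have h3 := opc_split (J := (Finset.univ : Finset (Fin (ψ :: L).length)) ×ˢ S) (J₁ := S)
      (J₂ := (Finset.univ : Finset (Fin L.length)) ×ˢ S)
      (e₁ := fun v => ((⟨0, Nat.succ_pos _⟩ : Fin (ψ :: L).length), v))
      (e₂ := fun x => ((Fin.succ x.1 : Fin (L.length + 1)), x.2))
      (fun v w h => congrArg Prod.snd h)
      (by
        intro x y h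
        have h11 := congrArg Prod.fst h
        have h12 := congrArg Prod.snd h
        exact Prod.ext (Fin.succ_injective _ h11) h12)
      (by
        rintro v x h
        have h10 : (0 : ℕ) = x.1.val + 1 := congrArg (fun z => Fin.val (Prod.fst z)) h
        omega)
      (by
        rintro ⟨i, v⟩
        rw [Finset.mem_product]
        constructor
        · rintro ⟨-, hv⟩
          obtain ⟨i, hi⟩ := i
          cases i with
          | zero => exact Or.inl ⟨v, hv, rfl⟩
          | succ i =>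
            exact Or.inr ⟨(⟨i, Nat.lt_of_succ_lt_succ hi⟩, v),
              Finset.mem_product.2 ⟨Finset.mem_univ _, hv⟩, rfl⟩
        · rintro (⟨w, hw, h⟩ | ⟨x, hx, h⟩)
          · have h4 : w = v := congrArg Prod.snd h
            rw [← h4]
            exact ⟨Finset.mem_univ _, hw⟩
          · have h4 : x.2 = v := congrArg Prod.snd h
            rw [← h4]
            exact ⟨Finset.mem_univ _, (Finset.mem_product.1 hx).2⟩)
      (fun x => -((ψ :: L).get x.1) x.2.asIdeal) (fun x => nm x.2) (cvs ∅ (ψ :: L))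
    rw [h3, h1, h2]
    rfl

theorem cvs_triv {S : Finset (Pl E)} {M : ℝ} (hS : ∀ v : Pl E, (nm v : ℝ) ≤ M → v ∈ S) (L : List (Ideal (𝓞 E) →*₀ ℂ)) :
    ∀ M' : ℝ, M' ≤ M → cvs S L M' = e1 M' := by
  induction L with
  | nil => exact fun M' _ => rfl
  | cons ψ L ih =>
    intro M' hM'
    by_cases h : M' < 1
    · rw [cvs_v1 S (ψ :: L) M' h, opc_e1 M' h]
    · have h1 : cvs S (ψ :: L) M' = cvs S L M' :=
        cnv_triv (fun v hv => hS v (hv.trans hM')) (not_lt.1 h) ψ (cvs S L)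
      rw [h1, ih M' hM']

theorem e1_opr {K : Type} [Field K] [NumberField K] (g : Pl K → ℂ) {M : ℝ} (hM : 1 ≤ M) {P : Finset (Pl K)}
    (hP : ∀ l : Pl K, l ∈ P ↔ (nm l : ℝ) ≤ M) : opr P g nm e1 M = ∑ s ∈ AF K M, ∏ l ∈ s, g l := by
  unfold opr
  have hsub : AF K M ⊆ P.powerset := by
    intro T hT
    rw [mem_AF] at hT
    rw [Finset.mem_powerset]
    intro l hl
    rw [hP]
    refine le_trans ?_ hT
    have h1 : nr T = (nm l : ℝ) * nr (T.erase l) := (Finset.mul_prod_erase T _ hl).symm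
    rw [h1]
    exact le_mul_of_one_le_right (Nat.cast_nonneg _) (one_le_nr _)
  rw [← Finset.sum_subset hsub]
  · refine Finset.sum_congr rfl fun T hT => ?_
    rw [mem_AF] at hT
    have h1 : (1 : ℝ) ≤ M / ∏ j ∈ T, (nm j : ℝ) := by
      have h2 : (0 : ℝ) < ∏ j ∈ T, (nm j : ℝ) := lt_of_lt_of_le one_pos (one_le_nr T)
      rw [le_div_iff₀ h2, one_mul]
      exact hT
    rw [e1, if_pos h1, mul_one]
  · intro T _ hT
    rw [mem_AF, not_le] at hT
    have h1 : ¬ (1 : ℝ) ≤ M / ∏ j ∈ T, (nm j : ℝ) := by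
      have h2 : (0 : ℝ) < ∏ j ∈ T, (nm j : ℝ) := lt_of_lt_of_le one_pos (one_le_nr T)
      rw [le_div_iff₀ h2, one_mul, not_le]
      exact hT
    rw [e1, if_neg h1, mul_zero]

end H1.LS4
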