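import Pool.Agent.H1.LS4.Smx

/-!
# [H1 LS4 RAD] The radii and the set of the points of the logarithmic space whose box contains a given element (80-130 lines)

`F` totally complex of degree `n`; `lrk F + 1` = number of infinite places = `n / 2`. Put
`e y w := if h : w = w₀ then - ∑ v, y v else y ⟨w, h⟩`, so `∑ w, e y w = 0` and `rad y q w = exp ((q / (lrk F + 1) + e y w) / 2)`.
* `lrk_succ`: the places different from `w₀` and `w₀` (`H57.TLS.box_card`, `Fintype.card_subtype_compl`, ...).
* `rad_prod`: `∏ w, (rad y q w)^2 = exp (∑ w, (q / (lrk F + 1) + e y w)) = exp q` (`Real.exp_sum`).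
* `rad_meas`: for a fixed `α ≠ 0` the condition `BxF (rad y q) α` is a finite conjunction of closed conditions: `rad` is continuous in
`y`.
* `rad_vol`: `w α ≤ rad y q w` iff `2 log (w α) ≤ q / (lrk F + 1) + e y w` (`Real.log_le_iff..`, `w α > 0`). With
`c w := 2 log (w α) - q / (lrk F + 1)` and `z v := y v - c v` (`v ≠ w₀`) the conditions are `0 ≤ z v` for `v ≠ w₀` and, at `w₀`,
`c w₀ ≤ - ∑ v, y v`, i.e. `∑ v, z v ≤ - ∑_{all w} c w = q - log N(α)` (`∑_w 2 log (w α) = log ∏ (w α)^2 = log N(α)`, `prod_sq_eq_norm`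
in H36/QA). So the set is the translate by `c` of `Smp _ (q - log N(α))` (`measure_preimage_add_right` or similar); it is empty if
`q < log N(α)`. `smp_vol`.
* `rad_unit`: `w (u α) = w u * w α`, `logEmbedding F (Additive.ofMul u) v = mult v * log (v u) = 2 log (v u)`, and
`∑_v logEmbedding u v = - 2 log (w₀ u)` (`sum_logEmbedding_component`).
-/

set_option autoImplicit false

open scoped NumberField Classical
open NumberField NumberField.Units NumberField.Units.dirichletUnitTheorem H63.MA H36.QA H57.TLS MeasureTheory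

noncomputable section

namespace H1.LS4

variable {F : Type} [Field F] [NumberField F]

/-- the coordinates of a point of the logarithmic space at all places; they sum to zero -/
private def ee (y : logSpace F) (w : InfinitePlace F) : ℝ :=
  if h : w = w₀ then - ∑ v, y v else y ⟨w, h⟩

private theorem ee_w0 (y : logSpace F) : ee y w₀ = - ∑ v, y v := by
  unfold ee
  rw [dif_pos rfl]

private theorem ee_ne (y : logSpace F) (v : {w : InfinitePlace F // w ≠ w₀}) : ee y v.1 = y v := by
  unfold ee
  rw [dif_neg v.2]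

private theorem sum_ee (y : logSpace F) : ∑ w, ee y w = 0 := by
  rw [Fintype.sum_eq_add_sum_subtype_ne _ w₀, ee_w0]
  simp only [ee_ne]
  ring

private theorem rad_eq (y : logSpace F) (q : ℝ) (w : InfinitePlace F) :
    rad y q w = Real.exp ((q / (lrk F + 1) + ee y w) / 2) := rfl

private theorem ee_sub (y z : logSpace F) (w : InfinitePlace F) : ee (y - z) w = ee y w - ee z w := by
  unfold ee
  by_cases h : w = w₀
  · rw [dif_pos h, dif_pos h, dif_pos h]
    simp only [Pi.sub_apply, Finset.sum_sub_distrib]
    ring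
  · rw [dif_neg h, dif_neg h, dif_neg h]
    rfl

private theorem card_eq : Fintype.card (InfinitePlace F) = lrk F + 1 := by
  unfold lrk
  have h := Fintype.sum_eq_add_sum_subtype_ne (fun _ : InfinitePlace F => (1 : ℕ)) w₀
  simp only [Finset.sum_const, Finset.card_univ, smul_eq_mul, mul_one] at h
  rw [h, add_comm]

theorem lrk_succ {n : ℕ} (hF : TC F n) : 2 * (lrk F + 1) = n := by
  rw [← card_eq]
  exact box_card n F hF

theorem rad_pos (y : logSpace F) (q : ℝ) (w : InfinitePlace F) : 0 < rad y q w := Real.exp_pos _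

theorem rad_prod {n : ℕ} (hF : TC F n) (y : logSpace F) (q : ℝ) : PN F (rad y q) = Real.exp q := by
  have h1 : ∀ w : InfinitePlace F, rad y q w ^ 2 = Real.exp (q / (lrk F + 1) + ee y w) := by
    intro w
    rw [rad_eq, ← Real.exp_nat_mul]
    congr 1
    push_cast
    ring
  show ∏ w, rad y q w ^ 2 = _
  simp only [h1]
  rw [← Real.exp_sum, Finset.sum_add_distrib, sum_ee, Finset.sum_const, Finset.card_univ, card_eq]
  congr 1
  have : ((lrk F : ℝ) + 1) ≠ 0 := by positivity
  rw [nsmul_eq_mul]
  push_cast
  field_simp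
  ring

theorem rad_meas (q : ℝ) (α : 𝓞 F) : MeasurableSet {y : logSpace F | BxF (rad y q) α} := by
  have h : {y : logSpace F | BxF (rad y q) α} = ⋂ w : InfinitePlace F, {y | w (α : F) ≤ rad y q w} := by
    ext y
    simp only [Set.mem_setOf_eq, Set.mem_iInter]
    rfl
  rw [h]
  refine MeasurableSet.iInter fun w => measurableSet_le measurable_const ?_
  have hc : Continuous fun y : logSpace F => rad y q w := by
    simp only [rad_eq]
    refine Real.continuous_exp.comp ((continuous_const.add ?_).div_const 2)
    unfold ee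
    by_cases hw : w = w₀
    · simp only [dif_pos hw]
      fun_prop
    · simp only [dif_neg hw]
      fun_prop
  exact hc.measurable

private theorem bx_iff (q : ℝ) (α : 𝓞 F) (hα : α ≠ 0) (y : logSpace F) :
    BxF (rad y q) α ↔
      ∀ w : InfinitePlace F, 2 * Real.log (w (α : F)) ≤ q / (lrk F + 1) + ee y w := by
  refine forall_congr' fun w => ?_
  have hpos : 0 < w (α : F) := by
    rw [InfinitePlace.pos_iff]
    exact fun h => hα (by exact_mod_cast h)
  rw [rad_eq, ← Real.log_le_iff_le_exp hpos, le_div_iff₀ (by norm_num : (0 : ℝ) < 2), mul_comm]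

theorem rad_vol {n : ℕ} (hF : TC F n) (q : ℝ) (α : 𝓞 F) (hα : α ≠ 0) :
    volume {y : logSpace F | BxF (rad y q) α} =
      if Real.log (Ideal.absNorm (Ideal.span {α})) ≤ q then
        ENNReal.ofReal (smp (lrk F) * (q - Real.log (Ideal.absNorm (Ideal.span {α}))) ^ lrk F) else 0 := by
  set L : ℝ := Real.log (Ideal.absNorm (Ideal.span {α})) with hL
  have hpos : ∀ w : InfinitePlace F, 0 < w (α : F) := by
    intro w
    rw [InfinitePlace.pos_iff]
    exact fun h => hα (by exact_mod_cast h)
  have hsum : ∑ w : InfinitePlace F, 2 * Real.log (w (α : F)) = L := by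
    rw [hL, ← prod_sq_eq_norm n F hF α, Real.log_prod fun w _ => (pow_pos (hpos w) 2).ne']
    refine Finset.sum_congr rfl fun w _ => ?_
    rw [Real.log_pow]
    push_cast
    ring
  rw [Fintype.sum_eq_add_sum_subtype_ne _ w₀] at hsum
  set c : logSpace F := fun v => 2 * Real.log (v.1 (α : F)) - q / (lrk F + 1) with hc
  have hr : ((lrk F : ℝ) + 1) ≠ 0 := by positivity
  have hcard : Fintype.card {w : InfinitePlace F // w ≠ w₀} = lrk F := rfl
  have hset : {y : logSpace F | BxF (rad y q) α} =
      (fun y => y + (-c)) ⁻¹' Smp {w : InfinitePlace F // w ≠ w₀} (q - L) := by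
    ext y
    rw [Set.mem_setOf_eq, bx_iff q α hα, Set.mem_preimage]
    have e1 : ∑ v, (y + -c) v = ∑ v, y v - ∑ v : {w : InfinitePlace F // w ≠ w₀},
        2 * Real.log (v.1 (α : F)) + lrk F * (q / (lrk F + 1)) := by
      simp only [Pi.add_apply, Pi.neg_apply, hc, Finset.sum_add_distrib, Finset.sum_neg_distrib,
        Finset.sum_sub_distrib, Finset.sum_const, Finset.card_univ, hcard, nsmul_eq_mul]
      ring
    have e2 : (lrk F : ℝ) * (q / (lrk F + 1)) + q / (lrk F + 1) = q := by
      field_simp
    constructor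
    · intro h
      refine ⟨fun v => ?_, ?_⟩
      · have := h v.1
        rw [ee_ne] at this
        simp only [Pi.add_apply, Pi.neg_apply, hc]
        linarith
      · have := h w₀
        rw [ee_w0] at this
        rw [e1]
        linarith
    · rintro ⟨h1, h2⟩ w
      by_cases hw : w = w₀
      · rw [hw, ee_w0]
        rw [e1] at h2
        linarith
      · have := h1 ⟨w, hw⟩
        simp only [Pi.add_apply, Pi.neg_apply, hc] at this
        rw [show ee y w = y ⟨w, hw⟩ from ee_ne y ⟨w, hw⟩]
        linarith
  rw [hset, measure_preimage_add_right]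
  split_ifs with hq
  · rw [smp_vol _ _ (by linarith), hcard]
  · have : Smp {w : InfinitePlace F // w ≠ w₀} (q - L) = ∅ := by
      rw [Set.eq_empty_iff_forall_notMem]
      rintro z ⟨h1, h2⟩
      have : 0 ≤ ∑ v, z v := Finset.sum_nonneg fun v _ => h1 v
      linarith
    rw [this, measure_empty]

theorem rad_unit {n : ℕ} (hF : TC F n) (u : (𝓞 F)ˣ) (q : ℝ) (α : 𝓞 F) (y : logSpace F) :
    BxF (rad y q) ((u : 𝓞 F) * α) ↔ BxF (rad (y - logEmbedding F (Additive.ofMul u)) q) α := by
  have htc := hF.1
  have hmult : ∀ w : InfinitePlace F, w.mult = 2 := fun w =>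
    InfinitePlace.mult_isComplex ⟨w, IsTotallyComplex.isComplex w⟩
  refine forall_congr' fun w => ?_
  have hu : 0 < w (u : F) := Units.pos_at_place u w
  have he : ee (logEmbedding F (Additive.ofMul u)) w = 2 * Real.log (w (u : F)) := by
    by_cases hw : w = w₀
    · rw [hw, ee_w0, sum_logEmbedding_component, hmult]
      push_cast
      ring
    · rw [show ee (logEmbedding F (Additive.ofMul u)) w =
        (logEmbedding F (Additive.ofMul u)) ⟨w, hw⟩ from ee_ne _ ⟨w, hw⟩, logEmbedding_component, hmult]
      push_cast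
      rfl
  have h1 : w (((u : 𝓞 F) * α : 𝓞 F) : F) = w (u : F) * w (α : F) := by
    rw [← map_mul]
    congr 1
  have h2 : rad (y - logEmbedding F (Additive.ofMul u)) q w = rad y q w / w (u : F) := by
    rw [rad_eq, rad_eq, ee_sub, he]
    conv_rhs => rw [← Real.exp_log hu, ← Real.exp_sub]
    congr 1
    ring
  rw [h1, h2, le_div_iff₀ hu, mul_comm]

end H1.LS4
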