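import Pool.Agent.H1.LS4.Df
import Pool.Agent.H36.QA.Cov

/-!
# [H1 LS4 SKC] The covering of the space by an ideal lattice, with skew radii (60-100 lines)

Claim: for all radii `f w > 0` every point `x` of the mixed space is in the coset of an `α ∈ 𝔞` with
`‖x_w - α_w‖ ≤ (C dd^A N𝔞 / ∏ f^2)^(1/n) f_w` for all (complex) places `w`. The proof is the proof of `H36.QA.cov_radius` (read
H36/QA/Cov.lean), with radii:
1. `a` from `cov_prim` (a primitive element with `w a ≤ T := (2 + 2^n) dd` for all `w`).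
2. `y ∈ 𝔞`, `y ≠ 0` with `w y ≤ g w` for all `w`, where `g w = l * f w` and `∏ w, g w ^ 2 = l^n * PN F f = N𝔞 dd 2^(n+1)` (choose
`l = (N𝔞 dd 2^(n+1) / PN F f)^(1/n)`, `Real.rpow_inv_natCast_pow`; `∏ l^2 = l^n` because `2 * card places = n`: `H57.TLS.box_card`).
This is `cov_elt` with radii: the same proof with `f : InfinitePlace F → NNReal` in `exists_ne_zero_mem_ideal_lt` and
`∏ w, f w ^ w.mult = PN F g` (`w.mult = 2`, totally complex).
3. `v i = mixedEmbedding (y a^i)`, `i < n`, is a basis (`cov_span`), `‖(v i).2 w‖ = w(y) w(a)^i ≤ g w * T^n`.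
4. `α` = the element of `𝔞` with `mixedEmbedding α = ZSpan.floor b x`; `x - floor = fract = ∑ i, Int.fract (b.repr x i) • b i`
(`ZSpan.fract`, `ZSpan.fract_apply`/`ZSpan.repr_fract_apply` and `Basis.sum_repr`), so at each place
`‖(x - floor).2 w‖ ≤ ∑ i ‖(v i).2 w‖ ≤ n * (g w * T^n)` (`0 ≤ Int.fract < 1`).
5. `‖..‖^n * PN F f ≤ n^n T^(n^2) f_w^n l^n PN F f = n^n T^(n^2) f_w^n N𝔞 dd 2^(n+1)`.
-/

set_option autoImplicit false

open scoped NumberField Classical
open NumberField NumberField.Units NumberField.Units.dirichletUnitTheorem H63.MA H36.QA H57.TLS MeasureTheory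

noncomputable section

namespace H1.LS4

/-- a small nonzero element of an ideal, with radii -/
private theorem skc_elt (n : ℕ) (F : Type) [Field F] [NumberField F] (hF : TC F n)
    (𝔞 : Ideal (𝓞 F)) (h𝔞 : 𝔞 ≠ ⊥) (g : InfinitePlace F → ℝ) (hg : ∀ w, 0 ≤ g w)
    (h : Ideal.absNorm 𝔞 * (Real.sqrt (dd F) * 2 ^ n) < ∏ w, g w ^ 2) :
    ∃ y ∈ 𝔞, y ≠ 0 ∧ ∀ w : InfinitePlace F, w (y : F) ≤ g w := by
  have htc := hF.1
  have hmult : ∀ w : InfinitePlace F, w.mult = 2 := fun w =>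
    InfinitePlace.mult_isComplex ⟨w, IsTotallyComplex.isComplex w⟩
  obtain ⟨g', hg'⟩ : ∃ g' : InfinitePlace F → NNReal, ∀ w, (g' w : ℝ) = g w :=
    ⟨fun w => ⟨g w, hg w⟩, fun _ => rfl⟩
  set I : (FractionalIdeal (nonZeroDivisors (𝓞 F)) F)ˣ :=
    FractionalIdeal.mk0 F ⟨𝔞, mem_nonZeroDivisors_iff_ne_zero.2 h𝔞⟩ with hI
  have hlt : mixedEmbedding.minkowskiBound F I <
      volume (mixedEmbedding.convexBodyLT F g') := by
    refine (cov_mink n F hF I).trans_lt ?_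
    rw [hI, FractionalIdeal.coe_mk0, FractionalIdeal.coeIdeal_absNorm,
      mixedEmbedding.convexBodyLT_volume]
    have hprod : ((∏ w : InfinitePlace F, g' w ^ w.mult : NNReal) : ℝ) = ∏ w, g w ^ 2 := by
      rw [NNReal.coe_prod]
      refine Finset.prod_congr rfl fun w _ => ?_
      rw [NNReal.coe_pow, hg', hmult]
    have h1 : ENNReal.ofReal (((Ideal.absNorm (((⟨𝔞, mem_nonZeroDivisors_iff_ne_zero.2 h𝔞⟩ :
        nonZeroDivisors (Ideal (𝓞 F))) : Ideal (𝓞 F))) : ℚ) : ℝ) * (Real.sqrt (dd F) * 2 ^ n)) <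
        ((∏ w : InfinitePlace F, g' w ^ w.mult : NNReal) : ENNReal) := by
      rw [← ENNReal.ofReal_coe_nnreal, ENNReal.ofReal_lt_ofReal_iff_of_nonneg (by positivity)]
      rw [hprod]
      exact_mod_cast h
    refine h1.trans_le ?_
    calc ((∏ w : InfinitePlace F, g' w ^ w.mult : NNReal) : ENNReal) =
        1 * ((∏ w : InfinitePlace F, g' w ^ w.mult : NNReal) : ENNReal) := (one_mul _).symm
      _ ≤ _ := by
        gcongr
        exact_mod_cast mixedEmbedding.one_le_convexBodyLTFactor F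
  obtain ⟨y, hyI, hy0, hyw⟩ := mixedEmbedding.exists_ne_zero_mem_ideal_lt F I hlt
  rw [hI, FractionalIdeal.coe_mk0] at hyI
  obtain ⟨α, hα, rfl⟩ := (FractionalIdeal.mem_coeIdeal (nonZeroDivisors (𝓞 F))).1 hyI
  refine ⟨α, hα, ?_, fun w => by rw [← hg']; exact (hyw w).le⟩
  rintro rfl
  exact hy0 (map_zero _)

/-- the fractional part at one place -/
private theorem skc_fract {n : ℕ} {F : Type} [Field F] [NumberField F]
    (b : Module.Basis (Fin n) ℝ (mixedEmbedding.mixedSpace F)) (x : mixedEmbedding.mixedSpace F)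
    (w : {w : InfinitePlace F // w.IsComplex}) (D : ℝ) (hD : ∀ i, ‖(b i).2 w‖ ≤ D) :
    ‖x.2 w - (ZSpan.floor b x : mixedEmbedding.mixedSpace F).2 w‖ ≤ n * D := by
  have h1 : x.2 w - (ZSpan.floor b x : mixedEmbedding.mixedSpace F).2 w =
      (ZSpan.fract b x).2 w := rfl
  have h2 : (ZSpan.fract b x) = ∑ i, Int.fract (b.repr x i) • b i := by
    conv_lhs => rw [← b.sum_repr (ZSpan.fract b x)]
    refine Finset.sum_congr rfl fun i _ => ?_
    rw [ZSpan.repr_fract_apply]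
  have h3 : (ZSpan.fract b x).2 w = ∑ i, Int.fract (b.repr x i) • (b i).2 w := by
    rw [h2, Prod.snd_sum, Finset.sum_apply]
    rfl
  rw [h1, h3]
  calc ‖∑ i, Int.fract (b.repr x i) • (b i).2 w‖ ≤ ∑ i, ‖Int.fract (b.repr x i) • (b i).2 w‖ :=
        norm_sum_le _ _
    _ ≤ ∑ _i : Fin n, D := by
        refine Finset.sum_le_sum fun i _ => ?_
        rw [norm_smul, Real.norm_eq_abs, abs_of_nonneg (Int.fract_nonneg _)]
        exact (mul_le_of_le_one_left (norm_nonneg _) (Int.fract_lt_one _).le).trans (hD i)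
    _ = n * D := by
        rw [Finset.sum_const, Finset.card_univ, Fintype.card_fin, nsmul_eq_mul]

theorem skc (n : ℕ) (hn : 0 < n) : ∃ C : ℝ, 1 ≤ C ∧ ∃ A : ℕ, ∀ (F : Type) [Field F] [NumberField F], TC F n →
    ∀ 𝔞 : Ideal (𝓞 F), 𝔞 ≠ ⊥ → ∀ f : InfinitePlace F → ℝ, (∀ w, 0 < f w) →
      ∀ x : mixedEmbedding.mixedSpace F, ∃ α ∈ 𝔞, ∀ w : {w : InfinitePlace F // w.IsComplex},
        ‖x.2 w - (mixedEmbedding F (α : F)).2 w‖ ^ n * PN F f ≤ C * dd F ^ A * Ideal.absNorm 𝔞 * f w.1 ^ n := by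
  have hnn : (1 : ℝ) ≤ (n : ℝ) ^ n := one_le_pow₀ (by exact_mod_cast hn)
  have h2n : (1 : ℝ) ≤ 2 ^ (n + 1) := one_le_pow₀ (by norm_num)
  have h3n : (1 : ℝ) ≤ (2 + 2 ^ n) ^ (n * n) := by
    apply one_le_pow₀
    have : (0 : ℝ) ≤ 2 ^ n := by positivity
    linarith
  refine ⟨(n : ℝ) ^ n * 2 ^ (n + 1) * (2 + 2 ^ n) ^ (n * n), ?_, n * n + 1, ?_⟩
  · exact one_le_mul_of_one_le_of_one_le (one_le_mul_of_one_le_of_one_le hnn h2n) h3n
  intro F _ _ hF 𝔞 h𝔞 f hf x
  have hdd := one_le_dd F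
  have hN : (1 : ℝ) ≤ Ideal.absNorm 𝔞 := by
    have : 1 ≤ Ideal.absNorm 𝔞 := Nat.one_le_iff_ne_zero.2 (by
      rwa [Ne, Ideal.absNorm_eq_zero_iff])
    exact_mod_cast this
  have hsq : Real.sqrt (dd F) ≤ dd F := by
    rw [Real.sqrt_le_left (by linarith)]
    nlinarith
  obtain ⟨a, ha, haw⟩ := cov_prim n F hF
  set T : ℝ := (2 + 2 ^ n) * dd F with hT
  have hT1 : 1 ≤ T := by
    have h1 : (0 : ℝ) < 2 ^ n := by positivity
    have : (1 : ℝ) ≤ 2 + 2 ^ n := by linarith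
    exact one_le_mul_of_one_le_of_one_le this hdd
  set M : ℝ := Ideal.absNorm 𝔞 * (dd F * 2 ^ (n + 1)) with hM
  have hM0 : 0 < M := by positivity
  have hP : 0 < PN F f := by
    have h1 : 0 < ∏ w, f w ^ 2 := Finset.prod_pos fun w _ => pow_pos (hf w) 2
    exact h1
  set l : ℝ := (M / PN F f) ^ ((1 : ℝ) / n) with hl
  have hMP : 0 < M / PN F f := div_pos hM0 hP
  have hl0 : 0 ≤ l := Real.rpow_nonneg hMP.le _
  have hln : l ^ n = M / PN F f := by
    rw [hl, one_div]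
    exact Real.rpow_inv_natCast_pow hMP.le (by omega)
  have hprod : ∏ w, (l * f w) ^ 2 = M := by
    have h1 : ∏ w, (l * f w) ^ 2 = l ^ n * PN F f := by
      have h2 : ∏ w : InfinitePlace F, (l * f w) ^ 2 =
          (∏ _w : InfinitePlace F, l ^ 2) * ∏ w : InfinitePlace F, f w ^ 2 := by
        rw [← Finset.prod_mul_distrib]
        exact Finset.prod_congr rfl fun w _ => mul_pow _ _ _
      have h3 : (∏ _w : InfinitePlace F, l ^ 2) = l ^ n := by
        rw [Finset.prod_const, Finset.card_univ, ← pow_mul, box_card n F hF]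
      rw [h2, h3]
      rfl
    rw [h1, hln, div_mul_cancel₀ _ hP.ne']
  obtain ⟨y, hy𝔞, hy0, hyw⟩ := skc_elt n F hF 𝔞 h𝔞 (fun w => l * f w)
    (fun w => mul_nonneg hl0 (hf w).le) (by
    rw [hprod, hM]
    have h1 : Real.sqrt (dd F) * 2 ^ n ≤ dd F * 2 ^ n := by gcongr
    have h2 : dd F * 2 ^ n < dd F * 2 ^ (n + 1) := by
      rw [pow_succ]
      have : 0 < dd F * 2 ^ n := by positivity
      nlinarith
    have h3 := h1.trans_lt h2
    have : (0 : ℝ) < Ideal.absNorm 𝔞 := by linarith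
    exact mul_lt_mul_of_pos_left h3 this)
  set v : Fin n → mixedEmbedding.mixedSpace F := fun i : Fin n =>
      mixedEmbedding F ((y * a ^ (i : ℕ) : 𝓞 F) : F) with hv
  have hspan := cov_span n F hF a y ha hy0
  set b := basisOfTopLeSpanOfCardEqFinrank v hspan (by
    rw [Fintype.card_fin, mixedEmbedding.finrank, hF.2]) with hb
  have hbv : ∀ i, b i = v i := fun i => by
    rw [hb, coe_basisOfTopLeSpanOfCardEqFinrank]
  have hvn : ∀ i, ∀ w : {w : InfinitePlace F // w.IsComplex},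
      ‖(v i).2 w‖ ≤ l * f w.1 * T ^ n := by
    intro i w
    have h1 : ‖(v i).2 w‖ = w.1 ((y * a ^ (i : ℕ) : 𝓞 F) : F) := by
      rw [← mixedEmbedding.normAtPlace_apply_of_isComplex w.2, hv,
        mixedEmbedding.normAtPlace_apply]
    rw [h1]
    have h2 : w.1 ((y * a ^ (i : ℕ) : 𝓞 F) : F) = w.1 (y : F) * w.1 (a : F) ^ (i : ℕ) := by
      rw [← map_pow, ← map_mul]
      simp
    rw [h2]
    have h3 : w.1 (a : F) ^ (i : ℕ) ≤ T ^ (i : ℕ) := by
      gcongr
      exact haw w.1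
    have h4 : T ^ (i : ℕ) ≤ T ^ n := pow_le_pow_right₀ hT1 i.2.le
    exact mul_le_mul (hyw w.1) (h3.trans h4) (by positivity) (mul_nonneg hl0 (hf w.1).le)
  obtain ⟨α, hα, hαx⟩ : ∃ α ∈ 𝔞, mixedEmbedding F (α : F) =
      (ZSpan.floor b x : mixedEmbedding.mixedSpace F) := by
    have hmem : (ZSpan.floor b x : mixedEmbedding.mixedSpace F) ∈
        Submodule.span ℤ (Set.range b) := (ZSpan.floor b x).2
    generalize (ZSpan.floor b x : mixedEmbedding.mixedSpace F) = z at hmem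
    induction hmem using Submodule.span_induction with
    | mem x hx =>
      obtain ⟨i, rfl⟩ := hx
      exact ⟨y * a ^ (i : ℕ), 𝔞.mul_mem_right _ hy𝔞, (hbv i).symm⟩
    | zero => exact ⟨0, 𝔞.zero_mem, by simp⟩
    | add u v _ _ hu hv =>
      obtain ⟨α, hα, hα'⟩ := hu
      obtain ⟨β, hβ, hβ'⟩ := hv
      refine ⟨α + β, 𝔞.add_mem hα hβ, ?_⟩
      rw [← hα', ← hβ', ← map_add]
      simp
    | smul q u _ hu =>
      obtain ⟨α, hα, hα'⟩ := hu
      refine ⟨q * α, 𝔞.mul_mem_left _ hα, ?_⟩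
      rw [← hα', ← map_zsmul]
      simp
  refine ⟨α, hα, fun w => ?_⟩
  have hnorm : ‖x.2 w - (mixedEmbedding F (α : F)).2 w‖ ≤ n * (l * f w.1 * T ^ n) := by
    rw [hαx]
    exact skc_fract b x w _ fun i => by
      rw [hbv i]
      exact hvn i w
  have hfw := (hf w.1).le
  calc ‖x.2 w - (mixedEmbedding F (α : F)).2 w‖ ^ n * PN F f ≤
      (n * (l * f w.1 * T ^ n)) ^ n * PN F f := by gcongr
    _ = n ^ n * (l ^ n * PN F f) * T ^ (n * n) * f w.1 ^ n := by
        rw [mul_pow, mul_pow, mul_pow, ← pow_mul]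
        ring
    _ = (n : ℝ) ^ n * 2 ^ (n + 1) * (2 + 2 ^ n) ^ (n * n) * dd F ^ (n * n + 1) *
          Ideal.absNorm 𝔞 * f w.1 ^ n := by
        rw [hln, div_mul_cancel₀ _ hP.ne', hM, hT, mul_pow, pow_succ (dd F)]
        ring

end H1.LS4
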