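import Pool.Agent.H1.LS4.Df

/-!
# [H1 LS4 SMX] The volume of the simplex (50-90 lines, only Mathlib)

`Smp ι s = {z | (∀ i, 0 ≤ z i) ∧ ∑ i, z i ≤ s}`.
1. `Smp ι s` is closed, hence measurable, and bounded (`0 ≤ z i ≤ s`), so its volume is finite.
2. `smp m > 0`: `Smp (Fin m) 1` contains the open box `{z | ∀ i, 0 < z i ∧ z i < 1/(m+1)}` of positive volume (`volume_pi`,
`Real.volume_pi_Ioo` / `Real.volume_Ioo`); for `m = 0` the space is a point of volume `1` (`Real.volume_pi_Ioo` with an empty product works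
as well).
3. `ι` and `Fin (card ι)`: `volume_measurePreserving_piCongrLeft` (or `volume_preserving_arrowCongr`-type lemma for
`e : ι ≃ Fin (card ι)`): the preimage of `Smp (Fin _) s` is `Smp ι s` (`Equiv.sum_comp`).
4. `s > 0`: `Smp ι s = s • Smp ι 1`, `Measure.addHaar_smul`, `finrank = card ι`. `s = 0`: `Smp ι 0 = {0}`, volume `0` if `card ι > 0`
(`0 ^ card = 0`) and `1` if `card ι = 0`; and `smp 0 = 1`. (Alternatively `Smp ι 0` is the intersection of the `Smp ι s`, `s → 0`.)
-/

set_option autoImplicit false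

open scoped NumberField Classical
open NumberField NumberField.Units NumberField.Units.dirichletUnitTheorem H63.MA H36.QA H57.TLS MeasureTheory
open scoped Pointwise

noncomputable section

namespace H1.LS4

theorem smp_meas (ι : Type) [Fintype ι] (s : ℝ) : MeasurableSet (Smp ι s) := by
  have h : Smp ι s = (⋂ i, {z : ι → ℝ | 0 ≤ z i}) ∩ {z | ∑ i, z i ≤ s} := by
    ext z
    simp only [Smp, Set.mem_ofPred_eq, Set.mem_inter_iff, Set.mem_iInter]
  rw [h]
  refine (IsClosed.inter (isClosed_iInter fun i => ?_) ?_).measurableSet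
  · exact isClosed_le continuous_const (continuous_apply i)
  · exact isClosed_le (continuous_finsetSum _ fun i _ => continuous_apply i) continuous_const

private theorem smx_lt_top (ι : Type) [Fintype ι] (s : ℝ) : volume (Smp ι s) < ⊤ := by
  refine (measure_mono (t := Set.Icc (0 : ι → ℝ) (fun _ => s)) ?_).trans_lt isCompact_Icc.measure_lt_top
  intro z hz
  refine ⟨fun i => hz.1 i, fun i => ?_⟩
  exact (Finset.single_le_sum (f := z) (fun j _ => hz.1 j) (Finset.mem_univ i)).trans hz.2

theorem smp_pos (m : ℕ) : 0 < smp m := by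
  refine ENNReal.toReal_pos ?_ (smx_lt_top (Fin m) 1).ne
  have hsub : Set.pi Set.univ (fun _ : Fin m => Set.Ioo (0 : ℝ) (1 / (m + 1))) ⊆ Smp (Fin m) 1 := by
    intro z hz
    rw [Set.mem_univ_pi] at hz
    refine ⟨fun i => (hz i).1.le, ?_⟩
    calc ∑ i, z i ≤ ∑ _i : Fin m, (1 : ℝ) / (m + 1) := Finset.sum_le_sum fun i _ => (hz i).2.le
      _ = m / (m + 1) := by
        rw [Finset.sum_const, Finset.card_univ, Fintype.card_fin, nsmul_eq_mul]
        ring
      _ ≤ 1 := by
        rw [div_le_one (by positivity)]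
        linarith
  have hpos : 0 < volume (Set.pi Set.univ (fun _ : Fin m => Set.Ioo (0 : ℝ) (1 / (m + 1)))) := by
    refine IsOpen.measure_pos volume (isOpen_set_pi Set.finite_univ fun _ _ => isOpen_Ioo) ?_
    refine ⟨fun _ => 1 / (2 * (m + 1)), ?_⟩
    rw [Set.mem_univ_pi]
    intro i
    have h1 : (0 : ℝ) < m + 1 := by positivity
    refine ⟨by positivity, ?_⟩
    rw [div_lt_div_iff₀ (by positivity) h1]
    linarith
  exact (hpos.trans_le (measure_mono hsub)).ne'

private theorem smx_fin (m : ℕ) (s : ℝ) (hs : 0 ≤ s) :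
    volume (Smp (Fin m) s) = ENNReal.ofReal (smp m * s ^ m) := by
  have h1 : ENNReal.ofReal (smp m) = volume (Smp (Fin m) 1) := ENNReal.ofReal_toReal (smx_lt_top (Fin m) 1).ne
  rcases hs.eq_or_lt with h0 | h0
  · subst h0
    rcases Nat.eq_zero_or_pos m with hm | hm
    · subst hm
      rw [pow_zero, mul_one, h1]
      congr 1
      ext z
      simp [Smp]
    · rw [zero_pow hm.ne', mul_zero, ENNReal.ofReal_zero]
      have : Nonempty (Fin m) := ⟨⟨0, hm⟩⟩
      refine measure_mono_null (t := {(0 : Fin m → ℝ)}) ?_ (measure_singleton _)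
      intro z hz
      rw [Set.mem_singleton_iff]
      funext i
      refine le_antisymm ?_ (hz.1 i)
      exact (Finset.single_le_sum (f := z) (fun j _ => hz.1 j) (Finset.mem_univ i)).trans hz.2
  · have h2 : Smp (Fin m) s = s • Smp (Fin m) 1 := by
      ext z
      rw [Set.mem_smul_set_iff_inv_smul_mem₀ h0.ne']
      simp only [Smp, Set.mem_ofPred_eq, Pi.smul_apply, smul_eq_mul]
      rw [← Finset.mul_sum, inv_mul_le_iff₀ h0, mul_one]
      constructor
      · rintro ⟨ha, hb⟩
        exact ⟨fun i => mul_nonneg (inv_nonneg.2 h0.le) (ha i), hb⟩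
      · rintro ⟨ha, hb⟩
        refine ⟨fun i => ?_, hb⟩
        have := ha i
        rwa [mul_nonneg_iff_of_pos_left (inv_pos.2 h0)] at this
    rw [h2, Measure.addHaar_smul, Module.finrank_fin_fun, ← h1, abs_of_nonneg (pow_nonneg hs m),
      ← ENNReal.ofReal_mul (pow_nonneg hs m), mul_comm]

theorem smp_vol (ι : Type) [Fintype ι] (s : ℝ) (hs : 0 ≤ s) :
    volume (Smp ι s) = ENNReal.ofReal (smp (Fintype.card ι) * s ^ Fintype.card ι) := by
  rw [← smx_fin _ s hs]
  have hp := volume_measurePreserving_piCongrLeft (fun _ : Fin (Fintype.card ι) => ℝ) (Fintype.equivFin ι)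
  rw [← hp.measure_preimage (smp_meas _ s).nullMeasurableSet]
  congr 1
  ext z
  have hz : ∀ i : ι, MeasurableEquiv.piCongrLeft (fun _ : Fin (Fintype.card ι) => ℝ) (Fintype.equivFin ι) z
      (Fintype.equivFin ι i) = z i := by
    intro i
    exact Equiv.piCongrLeft_apply_apply (fun _ : Fin (Fintype.card ι) => ℝ) (Fintype.equivFin ι) z i
  rw [Set.mem_preimage]
  simp only [Smp, Set.mem_ofPred_eq]
  rw [← Equiv.sum_comp (Fintype.equivFin ι)]
  simp only [hz]
  refine and_congr ⟨fun h j => ?_, fun h i => ?_⟩ Iff.rfl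
  · obtain ⟨i, rfl⟩ := (Fintype.equivFin ι).surjective j
    rw [hz]
    exact h i
  · rw [← hz i]
    exact h _

end H1.LS4
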