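import Pool.Agent.H1.LS4.Gal

/-!
# [H1 LS4 SPL] Totally split primes (80-120 lines)

`F / K` Galois of degree `n`, `l` a nonzero prime of `K`. `G = F ≃ₐ[K] F` acts transitively on the primes above `l`
(Mathlib: `Ideal.exists_comap_galRestrict_eq`, `exists_smul_eq_of_isGaloisGroup`, `coe_smul_primesOver_eq_map_galRestrict`; `gm σ P = P.map (galRestrict ..)`), and
`(number of primes) * e * f = n` (`Ideal.ncard_primesOver_mul_ramificationIdxIn_mul_inertiaDegIn`).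
* `spl_sum`: if there are `n` primes over `l`, the map `σ ↦ gm σ P₀` from `G` to the primes over `l` is surjective between sets of `n` elements,
hence bijective.
* `spl_norm`: then `e = f = 1`, so `relNorm (𝓞 K) P = l ^ f = l` (`Ideal.relNorm_eq_pow_of_isMaximal`), `absNorm P = absNorm l`.
* `spl_unr`: `Unr` gives `e = 1`; `absNorm P = (absNorm l)^f` (`absNorm_relNorm`), so `absNorm P = absNorm l` gives `f = 1` (`absNorm l ≥ 2`), so the
number of primes is `n`.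
* `spl_down`: `Ideal.ncard_primesOver_mul_ncard_primesOver`: #(primes of F over l) * #(primes of E over P) = [E:K] = [F:K] [E:F], and the two factors are
at most `[F:K]`, `[E:F]`.
* `spl_up`: let `𝔓` be a prime of `E` over `l`, `σ` in its stabilizer (`gm σ 𝔓 = 𝔓`). The restriction `τ` of `σ` to `F` (Galois:
`AlgEquiv.restrictNormal`) fixes `𝔓 ∩ F` (`gm τ (𝔓 ∩ F) = 𝔓 ∩ F`), so `τ = 1` by `spl_sum`-injectivity; the same for `F'`; so `σ = 1` by
`h.inj`. Hence the orbit has `#G = 9` elements.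
* `spl_rel`: by `spl_norm` for `E / K` and the tower: `relNorm (𝓞 F) 𝔓 = P ^ f(𝔓/P)`, `P = 𝔓 ∩ F`, and `relNorm (𝓞 K) 𝔓 = l`; `relNorm_relNorm` forces
`f = 1`. (Or: `absNorm 𝔓 = absNorm l ≤ absNorm P ≤ absNorm 𝔓`.)
* `spl_gm`: for `τ`, `σ` compatible: `(gm σ 𝔓).comap = gm τ (𝔓.comap)`.
-/

set_option autoImplicit false

open scoped NumberField Classical
open NumberField H63.MA H36.QA H57.LI

noncomputable section

namespace H1.LS4

variable {K F F' E : Type} [Field K] [NumberField K] [Field F] [NumberField F] [Algebra K F] [Field F'] [NumberField F']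
  [Algebra K F'] [Field E] [NumberField E] [Algebra K E] [Algebra F E] [Algebra F' E]

private theorem spl_trans [IsGalois K F] (l : Ideal (𝓞 K)) (P Q : Ideal (𝓞 F)) (hP : P ∈ l.primesOver (𝓞 F))
    (hQ : Q ∈ l.primesOver (𝓞 F)) : ∃ σ : F ≃ₐ[K] F, gm σ P = Q := by
  obtain ⟨σ, hσ⟩ := Ideal.exists_comap_galRestrict_eq (𝓞 K) K F (𝓞 F) hQ hP
  refine ⟨σ, ?_⟩
  rw [← hσ]
  ext y
  obtain ⟨x, rfl⟩ := (RingOfIntegers.mapRingEquiv σ.toRingEquiv : 𝓞 F ≃+* 𝓞 F).surjective y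
  rw [gm_mem, Ideal.mem_comap]
  have e : (galRestrict (𝓞 K) K F (𝓞 F) σ) x = (RingOfIntegers.mapRingEquiv σ.toRingEquiv : 𝓞 F ≃+* 𝓞 F) x := by
    apply RingOfIntegers.coe_injective
    exact algebraMap_galRestrict_apply (𝓞 K) σ x
  rw [e]

private theorem map_algebraMap_ri (σ : F ≃ₐ[K] F) (x : 𝓞 K) :
    (RingOfIntegers.mapRingEquiv σ.toRingEquiv : 𝓞 F ≃+* 𝓞 F) (algebraMap (𝓞 K) (𝓞 F) x) = algebraMap (𝓞 K) (𝓞 F) x := by
  apply RingOfIntegers.coe_injective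
  exact σ.commutes (x : K)

private theorem gm_over (l : Ideal (𝓞 K)) (P : Ideal (𝓞 F)) (hP : P ∈ l.primesOver (𝓞 F)) (σ : F ≃ₐ[K] F) :
    gm σ P ∈ l.primesOver (𝓞 F) := by
  obtain ⟨h1, h2⟩ := hP
  refine ⟨(gm_prime σ P).2 h1, ⟨?_⟩⟩
  rw [h2.over]
  ext x
  rw [Ideal.under, Ideal.under, Ideal.mem_comap, Ideal.mem_comap]
  conv_rhs => rw [← map_algebraMap_ri σ x]
  rw [gm_mem]

private theorem range_gm [IsGalois K F] (l : Ideal (𝓞 K)) (P : Ideal (𝓞 F)) (hP : P ∈ l.primesOver (𝓞 F)) :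
    Set.range (fun σ : F ≃ₐ[K] F => gm σ P) = l.primesOver (𝓞 F) := by
  ext Q
  constructor
  · rintro ⟨σ, rfl⟩
    exact gm_over l P hP σ
  · intro hQ
    exact spl_trans l P Q hP hQ

private theorem inj_gm [IsGalois K F] (l : Ideal (𝓞 K)) (h : (l.primesOver (𝓞 F)).ncard = Module.finrank K F)
    (P : Ideal (𝓞 F)) (hP : P ∈ l.primesOver (𝓞 F)) : Function.Injective (fun σ : F ≃ₐ[K] F => gm σ P) := by
  have h1 : (Finset.univ.image (fun σ : F ≃ₐ[K] F => gm σ P)).card = (Finset.univ : Finset (F ≃ₐ[K] F)).card := by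
    have e : ((Finset.univ.image (fun σ : F ≃ₐ[K] F => gm σ P) : Finset (Ideal (𝓞 F))) : Set (Ideal (𝓞 F)))
        = l.primesOver (𝓞 F) := by
      rw [← range_gm l P hP]
      simp
    rw [Finset.card_univ, ← Nat.card_eq_fintype_card, IsGalois.card_aut_eq_finrank, ← h, ← e, Set.ncard_coe_finset]
  have h2 := Finset.card_image_iff.1 h1
  exact fun a b hab => h2 (Finset.mem_coe.2 (Finset.mem_univ a)) (Finset.mem_coe.2 (Finset.mem_univ b)) hab

theorem spl_sum [IsGalois K F] (l : Pl K) (h : (l.asIdeal.primesOver (𝓞 F)).ncard = Module.finrank K F) (P₀ : Ideal (𝓞 F))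
    (hP : P₀ ∈ l.asIdeal.primesOver (𝓞 F)) (f : Ideal (𝓞 F) → ℂ) :
    ∑ᶠ P ∈ l.asIdeal.primesOver (𝓞 F), f P = ∑ σ : F ≃ₐ[K] F, f (gm σ P₀) := by
  rw [← range_gm l.asIdeal P₀ hP, finsum_mem_range (inj_gm l.asIdeal h P₀ hP), finsum_eq_sum_of_fintype]

private theorem fund [IsGalois K F] (l : Pl K) :
    (l.asIdeal.primesOver (𝓞 F)).ncard * (l.asIdeal.ramificationIdxIn (𝓞 F) * l.asIdeal.inertiaDegIn (𝓞 F))
      = Module.finrank K F := by
  have : l.asIdeal.IsPrime := l.isPrime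
  rw [Ideal.ncard_primesOver_mul_ramificationIdxIn_mul_inertiaDegIn l.asIdeal (𝓞 F) (F ≃ₐ[K] F),
    IsGalois.card_aut_eq_finrank]

private theorem rel_pow (l : Pl K) (P : Ideal (𝓞 F)) (hP : P ∈ l.asIdeal.primesOver (𝓞 F)) :
    Ideal.relNorm (𝓞 K) P = l.asIdeal ^ P.inertiaDeg (𝓞 K) ∧ Ideal.absNorm P = nm l ^ P.inertiaDeg (𝓞 K) := by
  obtain ⟨h1, h2⟩ := hP
  have hm : l.asIdeal.IsMaximal := l.isMaximal
  have hPm : P.IsMaximal := Ideal.IsMaximal.of_liesOver_isMaximal P l.asIdeal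
  have h3 : Ideal.relNorm (𝓞 K) P = l.asIdeal ^ P.inertiaDeg (𝓞 K) := Ideal.relNorm_eq_pow_of_isMaximal P l.asIdeal
  refine ⟨h3, ?_⟩
  rw [← Ideal.absNorm_relNorm (𝓞 K), h3, map_pow]
  rfl

theorem spl_norm [IsGalois K F] (l : Pl K) (h : (l.asIdeal.primesOver (𝓞 F)).ncard = Module.finrank K F) (P : Ideal (𝓞 F))
    (hP : P ∈ l.asIdeal.primesOver (𝓞 F)) : Ideal.relNorm (𝓞 K) P = l.asIdeal ∧ Ideal.absNorm P = nm l := by
  have h0 := fund (F := F) l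
  have hn : 0 < Module.finrank K F := Module.finrank_pos
  rw [h] at h0
  have h1 : l.asIdeal.ramificationIdxIn (𝓞 F) * l.asIdeal.inertiaDegIn (𝓞 F) = 1 :=
    Nat.eq_of_mul_eq_mul_left hn (h0.trans (mul_one _).symm)
  have h2 : l.asIdeal.inertiaDegIn (𝓞 F) = 1 := Nat.eq_one_of_mul_eq_one_left h1
  have hpr : l.asIdeal.IsPrime := l.isPrime
  have hP1 := hP.1
  have hP2 := hP.2
  have h3 : P.inertiaDeg (𝓞 K) = 1 := by
    rw [← Ideal.inertiaDegIn_eq_inertiaDeg l.asIdeal P (F ≃ₐ[K] F), h2]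
  have h4 := rel_pow l P hP
  rw [h3, pow_one, pow_one] at h4
  exact h4

private theorem nm_two (l : Pl K) : 2 ≤ nm l := by
  have h0 : nm l ≠ 0 := fun h => l.ne_bot (Ideal.absNorm_eq_zero_iff.1 h)
  have h1 : nm l ≠ 1 := fun h => l.isPrime.ne_top (Ideal.absNorm_eq_one_iff.1 h)
  omega

theorem spl_unr [IsGalois K F] (l : Pl K) (h : Unr K F l.asIdeal) (P : Ideal (𝓞 F))
    (hP : P ∈ l.asIdeal.primesOver (𝓞 F)) (hn : Ideal.absNorm P = nm l) :
    (l.asIdeal.primesOver (𝓞 F)).ncard = Module.finrank K F := by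
  have h0 := fund (F := F) l
  have hpr : l.asIdeal.IsPrime := l.isPrime
  have hP1 := hP.1
  have hP2 := hP.2
  have h4 := (rel_pow l P hP).2
  have hf : P.inertiaDeg (𝓞 K) = 1 := by
    rw [hn] at h4
    exact (Nat.pow_right_injective (nm_two l) ((pow_one (nm l)).trans h4)).symm
  have he : P.ramificationIdx (𝓞 K) = 1 := by
    have hb : l.asIdeal.map (algebraMap (𝓞 K) (𝓞 F)) ≠ ⊥ := Ideal.map_ne_bot_of_ne_bot l.ne_bot
    have h5 : 0 < P.ramificationIdx (𝓞 K) := Ideal.ramificationIdx_pos P (𝓞 K)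
    rw [Ideal.IsDedekindDomain.ramificationIdx_eq_multiplicity l.asIdeal P hb] at h5 ⊢
    by_contra hne
    have h6 : 2 ≤ multiplicity P (l.asIdeal.map (algebraMap (𝓞 K) (𝓞 F))) := by omega
    exact h P hP1 (pow_dvd_of_le_multiplicity h6)
  rw [Ideal.ramificationIdxIn_eq_ramificationIdx l.asIdeal P (F ≃ₐ[K] F),
    Ideal.inertiaDegIn_eq_inertiaDeg l.asIdeal P (F ≃ₐ[K] F), he, hf, mul_one, mul_one] at h0
  exact h0

private theorem exists_over (l : Pl K) : ∃ P : Ideal (𝓞 F), P ∈ l.asIdeal.primesOver (𝓞 F) := by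
  have hm : l.asIdeal.IsMaximal := l.isMaximal
  obtain ⟨P, hP, hPp⟩ := Ideal.exists_maximal_ideal_liesOver_of_isIntegral l.asIdeal (S := 𝓞 F)
  exact ⟨P, hP.isPrime, hPp⟩

theorem spl_down [IsGalois K F] [IsGalois K E] [IsScalarTower K F E] (l : Pl K)
    (h : (l.asIdeal.primesOver (𝓞 E)).ncard = Module.finrank K E) :
    (l.asIdeal.primesOver (𝓞 F)).ncard = Module.finrank K F := by
  obtain ⟨P, hP⟩ := exists_over (F := F) l
  have hpr : l.asIdeal.IsPrime := l.isPrime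
  have hP1 := hP.1
  have hP2 := hP.2
  have hm : l.asIdeal.IsMaximal := l.isMaximal
  have hPm : P.IsMaximal := Ideal.IsMaximal.of_liesOver_isMaximal P l.asIdeal
  have hPb : P ≠ ⊥ := Ideal.ne_bot_of_liesOver_of_ne_bot l.ne_bot P
  have h1 := Ideal.ncard_primesOver_mul_ncard_primesOver (p := l.asIdeal) P (F ≃ₐ[K] F) (𝓞 E) (E ≃ₐ[K] E)
  have hG : IsGalois F E := IsGalois.tower_top_of_isGalois K F E
  have h2 := fund (F := F) l
  have h3 := fund (K := F) (F := E) ⟨P, hP1, hPb⟩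
  rw [h, ← Module.finrank_mul_finrank K F E] at h1
  have a1 : (l.asIdeal.primesOver (𝓞 F)).ncard ≤ Module.finrank K F := Nat.le_of_dvd Module.finrank_pos ⟨_, h2.symm⟩
  have a2 : (P.primesOver (𝓞 E)).ncard ≤ Module.finrank F E := Nat.le_of_dvd Module.finrank_pos ⟨_, h3.symm⟩
  have hFE : 0 < Module.finrank F E := Module.finrank_pos
  by_contra hne
  have hlt : (l.asIdeal.primesOver (𝓞 F)).ncard < Module.finrank K F := lt_of_le_of_ne a1 hne
  have : (l.asIdeal.primesOver (𝓞 F)).ncard * (P.primesOver (𝓞 E)).ncard < Module.finrank K F * Module.finrank F E :=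
    lt_of_le_of_lt (Nat.mul_le_mul_left _ a2) (Nat.mul_lt_mul_of_pos_right hlt hFE)
  omega

theorem spl_gm [IsScalarTower K F E] (τ : F ≃ₐ[K] F) (σ : E ≃ₐ[K] E)
    (hσ : ∀ z : F, σ (algebraMap F E z) = algebraMap F E (τ z)) (𝔓 : Ideal (𝓞 E)) :
    (gm σ 𝔓).comap (algebraMap (𝓞 F) (𝓞 E)) = gm τ (𝔓.comap (algebraMap (𝓞 F) (𝓞 E))) := by
  ext x
  obtain ⟨y, rfl⟩ := (RingOfIntegers.mapRingEquiv τ.toRingEquiv : 𝓞 F ≃+* 𝓞 F).surjective x
  have e : algebraMap (𝓞 F) (𝓞 E) ((RingOfIntegers.mapRingEquiv τ.toRingEquiv : 𝓞 F ≃+* 𝓞 F) y)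
      = (RingOfIntegers.mapRingEquiv σ.toRingEquiv : 𝓞 E ≃+* 𝓞 E) (algebraMap (𝓞 F) (𝓞 E) y) := by
    apply RingOfIntegers.coe_injective
    exact (hσ (y : F)).symm
  rw [gm_mem, Ideal.mem_comap, Ideal.mem_comap, e, gm_mem]

private theorem stab_res [IsGalois K F] [IsScalarTower K F E] (l : Pl K)
    (h1 : (l.asIdeal.primesOver (𝓞 F)).ncard = Module.finrank K F) (𝔓 : Ideal (𝓞 E))
    (hP : 𝔓 ∈ l.asIdeal.primesOver (𝓞 E)) (σ : E ≃ₐ[K] E) (hσ : gm σ 𝔓 = 𝔓) (z : F) :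
    σ (algebraMap F E z) = algebraMap F E z := by
  have hc : ∀ z : F, σ (algebraMap F E z) = algebraMap F E (σ.restrictNormal F z) := fun z =>
    (AlgEquiv.restrictNormal_commutes σ F z).symm
  have h2 := spl_gm (σ.restrictNormal F) σ hc 𝔓
  rw [hσ] at h2
  have hP1 := hP.1
  have hP2 := hP.2
  have hPF : 𝔓.comap (algebraMap (𝓞 F) (𝓞 E)) ∈ l.asIdeal.primesOver (𝓞 F) := by
    refine ⟨Ideal.IsPrime.comap _, ⟨?_⟩⟩
    rw [hP2.over, Ideal.under, Ideal.under, Ideal.comap_comap, ← IsScalarTower.algebraMap_eq]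
  have h3 := inj_gm l.asIdeal h1 _ hPF (a₁ := σ.restrictNormal F) (a₂ := AlgEquiv.refl)
    (by simp only [gm_refl]; exact h2.symm)
  rw [hc, h3]
  rfl

theorem spl_up [IsGalois K F] [IsGalois K F'] (h : Cp K F F' E) (l : Pl K)
    (h1 : (l.asIdeal.primesOver (𝓞 F)).ncard = Module.finrank K F)
    (h2 : (l.asIdeal.primesOver (𝓞 F')).ncard = Module.finrank K F') :
    (l.asIdeal.primesOver (𝓞 E)).ncard = Module.finrank K E := by
  have := h.tow
  have := h.tow'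
  have := h.gal
  obtain ⟨𝔓, hP⟩ := exists_over (F := E) l
  have hinj : Function.Injective (fun σ : E ≃ₐ[K] E => gm σ 𝔓) := by
    intro σ τ hst
    have hst' : gm σ 𝔓 = gm τ 𝔓 := hst
    have h3 : gm (σ.trans τ.symm) 𝔓 = 𝔓 := by
      rw [← gm_trans, hst', gm_trans, AlgEquiv.self_trans_symm, gm_refl]
    have h4 := h.inj (σ.trans τ.symm) (stab_res l h1 𝔓 hP _ h3) (stab_res l h2 𝔓 hP _ h3)
    ext z
    have h5 := congrArg (fun ρ : E ≃ₐ[K] E => τ (ρ z)) h4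
    simpa using h5
  rw [← range_gm l.asIdeal 𝔓 hP, Set.ncard_range_of_injective hinj, IsGalois.card_aut_eq_finrank]

theorem spl_rel [IsGalois K F] [IsGalois K E] [IsScalarTower K F E] (l : Pl K)
    (h : (l.asIdeal.primesOver (𝓞 E)).ncard = Module.finrank K E) (𝔓 : Ideal (𝓞 E))
    (hP : 𝔓 ∈ l.asIdeal.primesOver (𝓞 E)) :
    Ideal.relNorm (𝓞 F) 𝔓 = 𝔓.comap (algebraMap (𝓞 F) (𝓞 E)) := by
  have hP1 := hP.1
  have hP2 := hP.2
  have hPF : 𝔓.comap (algebraMap (𝓞 F) (𝓞 E)) ∈ l.asIdeal.primesOver (𝓞 F) := by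
    refine ⟨Ideal.IsPrime.comap _, ⟨?_⟩⟩
    rw [hP2.over, Ideal.under, Ideal.under, Ideal.comap_comap, ← IsScalarTower.algebraMap_eq]
  have hd := spl_down (F := F) l h
  have n1 := (spl_norm l h 𝔓 hP).2
  have n2 := (spl_norm l hd _ hPF).2
  have hQ1 := hPF.1
  have hQ2 := hPF.2
  have hQb : 𝔓.comap (algebraMap (𝓞 F) (𝓞 E)) ≠ ⊥ := Ideal.ne_bot_of_liesOver_of_ne_bot l.ne_bot _
  have h5 := rel_pow (K := F) (F := E) ⟨𝔓.comap (algebraMap (𝓞 F) (𝓞 E)), hQ1, hQb⟩ 𝔓 ⟨hP1, ⟨rfl⟩⟩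
  have h6 : (Ideal.absNorm (𝔓.comap (algebraMap (𝓞 F) (𝓞 E)))) ^ 𝔓.inertiaDeg (𝓞 F) = Ideal.absNorm 𝔓 := h5.2.symm
  rw [n1, n2] at h6
  have hf : 𝔓.inertiaDeg (𝓞 F) = 1 := Nat.pow_right_injective (nm_two l) (h6.trans (pow_one (nm l)).symm)
  have h7 := h5.1
  rw [hf, pow_one] at h7
  exact h7

end H1.LS4
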